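import Pool.Agent.BCF.Dens

/-!
# Approximation of every point by the forward orbit of every point

PLAN. Let `z' = y.1`, `k' = y.2.1`. By `odo_int_inj` and `pt_int` (differences of `pt 0, pt 1, pt 2` are not
integers) there is at most one pair `(m, c)` with `m : ℤ`, `c ∈ {0, 1, 2}` and `z' + m = pt c` (`pt 0 = 0`).
(1) Choose `L ≥ N` larger than: all `w` with `FZ (z' + m) w` for `|m| ≤ R`; all `w` with
`FM (cv y j) j (z' + m) (k' m) w` for `|m| ≤ R`, `j ∈ Q`, `t j ≠ 0` (finite sets, uniqueness of `w`).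
(2) Choose `w ≥ L` with: (A) if `z' + m = 0` with `|m| ≤ R`, then `kp w n = ((k' m)⁻¹ * k' (m+1)) n` for
`n < L` (`kp_spec`); (B) if there are `|m| ≤ R`, `j ∈ Q` with `t j ≠ 0` and `Hit (cv t j) j (z' + m) (k' m)`
(then `m` is unique by the above and `j` by `hit_mark`), then `decide (Odd w) = y.2.2 m j`. (A) and (B)
exclude each other, so `w` exists.
(3) `r n = z' n + (if n = w then 1 else 0)`; `dens hx (w + 1) r (k' 0)` gives `q`. Put `x' = sg q x`, it is
in `XX t`. Then `x'.1 n = z' n` for `n < w`, `x'.1 w = z' w + 1`, `x'.2.1 0 n = k' 0 n` for `n ≤ w`.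
(4) For `|m| ≤ R` with `z' + m ≠ 0`: `FZ (z' + m) v` with `v < L ≤ w`, so also `FZ (x'.1 + m) v`, and the steps
`x'.2.1 m → x'.2.1 (m+1)` and `k' m → k' (m+1)` multiply by the same `kp v`. If `z' + m = 0` then
`FZ (x'.1 + m) w` and the two steps multiply by elements which agree for `n < L`. Hence
`x'.2.1 m n = k' m n` for `|m| ≤ R`, `n < L` (induction on `m` in both directions); and if there is no
`|m| ≤ R` with `z' + m = 0`, then even for `n ≤ w`.
(5) Bits: `t j = 0`: both `false`. No hit of `y` at `(m, j)`: `FM ... v` for `y` with `v < L`; the coordinates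
up to `v` of `x'` are the same, so `FM ... v` for `x'`, same bit. Hit at `(m, j)`: then `z' + m = pt c`,
`c ≠ 0`, so there is no `m'` with `z' + m' = 0` and (4) holds for `n ≤ w`; `FM (cv t j) j (x'.1 + m)
(x'.2.1 m) w`, and the bit of `x'` is `decide (Odd w)`, the bit of `y` by (B).
-/

namespace Pool.Agent.BCF

open Pool.Agent.FlipC (Odo)

private theorem appr_bd {α : Type*} (s : Finset α) (P : α → ℕ → Prop)
    (hu : ∀ a w w', P a w → P a w' → w = w') : ∃ L, ∀ a ∈ s, ∀ w, P a w → w < L := by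
  classical
  have h : ∀ a, ∃ b, ∀ w, P a w → w < b := by
    intro a
    by_cases h : ∃ w, P a w
    · obtain ⟨w, hw⟩ := h
      exact ⟨w + 1, fun w' hw' => by rw [hu a w' w hw' hw]; exact Nat.lt_succ_self w⟩
    · exact ⟨0, fun w hw => absurd ⟨w, hw⟩ h⟩
  choose b hb using h
  exact ⟨s.sup b, fun a ha w hw => (hb a w hw).trans_le (Finset.le_sup (f := b) ha)⟩

private theorem appr_ind {R : ℕ} {E : ℤ → Prop} (h0 : E 0)
    (hs : ∀ m : ℤ, |m| ≤ R → (E (m + 1) ↔ E m)) : ∀ m : ℤ, |m| ≤ R → E m := by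
  have hp : ∀ i : ℕ, i ≤ R → E i := by
    intro i
    induction i with
    | zero => intro _; exact h0
    | succ i ih =>
      intro hi
      have h1 := ih (by omega)
      have h2 : |(i : ℤ)| ≤ R := by
        rw [abs_of_nonneg (by omega)]
        omega
      have h3 := (hs i h2).2 h1
      push_cast
      exact h3
  have hn : ∀ i : ℕ, i ≤ R → E (-(i : ℤ)) := by
    intro i
    induction i with
    | zero => intro _; simpa using h0
    | succ i ih =>
      intro hi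
      have h1 := ih (by omega)
      have h2 : |(-((i + 1 : ℕ) : ℤ))| ≤ R := by
        rw [abs_neg, abs_of_nonneg (by omega)]
        exact_mod_cast hi
      apply (hs _ h2).1
      have h3 : -((i + 1 : ℕ) : ℤ) + 1 = -(i : ℤ) := by
        push_cast
        ring
      rw [h3]
      exact h1
  intro m hm
  rcases le_total 0 m with h | h
  · rw [abs_of_nonneg h] at hm
    have h1 := hp m.toNat (by omega)
    rwa [Int.toNat_of_nonneg h] at h1
  · rw [abs_of_nonpos h] at hm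
    have h1 := hn (-m).toNat (by omega)
    rw [Int.toNat_of_nonneg (by omega), neg_neg] at h1
    exact h1

private theorem appr_zz {z : Odo} {m m' : ℤ} (h : z + (m : Odo) = 0) (h' : z + (m' : Odo) = 0) :
    m = m' := by
  apply odo_int_inj
  exact add_left_cancel (h.trans h'.symm)

private theorem appr_pp {z : Odo} {c c' m m' : ℤ} (h : z + (m : Odo) = pt c)
    (h' : z + (m' : Odo) = pt c') : c = c' ∧ m = m' := by
  have h1 : pt (c - c') = ((m - m' : ℤ) : Odo) := by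
    rw [pt_sub, ← h, ← h']
    push_cast
    ring
  obtain ⟨h2, h3⟩ := pt_int h1
  exact ⟨by omega, by omega⟩

private theorem appr_zp {z : Odo} {t : Par} {j : Mk} {m m' : ℤ} (h : z + (m : Odo) = 0)
    (h' : z + (m' : Odo) = pt (cv t j)) : t j = 0 := by
  rw [← pt_zero] at h
  exact cv_eq_zero.1 (appr_pp h h').1.symm

private theorem appr_w {t : Par} (y : Om) (L R : ℕ) (Q : Finset Mk) :
    ∃ w, L ≤ w ∧ (∀ m : ℤ, |m| ≤ R → y.1 + (m : Odo) = 0 →
        ∀ n < L, kp w n = (y.2.1 m n)⁻¹ * y.2.1 (m + 1) n) ∧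
      ∀ m : ℤ, |m| ≤ R → ∀ j ∈ Q, t j ≠ 0 → Hit (cv t j) j (y.1 + (m : Odo)) (y.2.1 m) →
        decide (Odd w) = y.2.2 m j := by
  by_cases hA : ∃ m : ℤ, |m| ≤ R ∧ y.1 + (m : Odo) = 0
  · obtain ⟨m₀, _, h0⟩ := hA
    obtain ⟨w, hw, hk⟩ := kp_spec ((y.2.1 m₀)⁻¹ * y.2.1 (m₀ + 1)) L L
    refine ⟨w, hw, fun m _ hm n hn => ?_, fun m _ j _ ht hh => ?_⟩
    · rw [appr_zz hm h0, hk n hn]
      rfl
    · exact absurd (appr_zp h0 hh.1) ht
  · by_cases hB : ∃ m : ℤ, ∃ j : Mk, |m| ≤ R ∧ t j ≠ 0 ∧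
        Hit (cv t j) j (y.1 + (m : Odo)) (y.2.1 m)
    · obtain ⟨m₀, j₀, hm₀, ht₀, hh₀⟩ := hB
      have key : ∀ w : ℕ, decide (Odd w) = y.2.2 m₀ j₀ → ∀ m : ℤ, |m| ≤ R → ∀ j ∈ Q, t j ≠ 0 →
          Hit (cv t j) j (y.1 + (m : Odo)) (y.2.1 m) → decide (Odd w) = y.2.2 m j := by
        intro w hw m _ j _ _ hh
        obtain ⟨_, rfl⟩ := appr_pp hh.1 hh₀.1
        rw [hit_mark hh hh₀]
        exact hw
      cases hb : y.2.2 m₀ j₀ with
      | true =>
        refine ⟨2 * L + 1, by omega, fun m h1 h2 => absurd ⟨m, h1, h2⟩ hA, key _ ?_⟩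
        rw [hb, decide_eq_true_eq]
        exact ⟨L, rfl⟩
      | false =>
        refine ⟨2 * L, by omega, fun m h1 h2 => absurd ⟨m, h1, h2⟩ hA, key _ ?_⟩
        rw [hb, decide_eq_false_iff_not, Nat.not_odd_iff_even]
        exact ⟨L, two_mul L⟩
    · exact ⟨L, le_rfl, fun m h1 h2 => absurd ⟨m, h1, h2⟩ hA,
        fun m h1 j _ h2 h3 => absurd ⟨m, j, h1, h2, h3⟩ hB⟩

theorem approach {t : Par} {x y : Om} (hx : x ∈ XX t) (hy : y ∈ XX t) (N R : ℕ) (Q : Finset Mk) :
    ∃ q : ℕ, (∀ n < N, (sg q x).1 n = y.1 n) ∧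
      (∀ m : ℤ, |m| ≤ R → ∀ n < N, (sg q x).2.1 m n = y.2.1 m n) ∧
      ∀ m : ℤ, |m| ≤ R → ∀ j ∈ Q, (sg q x).2.2 m j = y.2.2 m j := by
  -- the bound `L`
  obtain ⟨L₁, hL₁⟩ := appr_bd (Finset.Icc (-(R : ℤ)) R) (fun m w => FZ (y.1 + (m : Odo)) w)
    (fun a w w' h h' => FZ.unique h h')
  obtain ⟨L₂, hL₂⟩ := appr_bd ((Finset.Icc (-(R : ℤ)) R) ×ˢ Q)
    (fun a w => FM (cv t a.2) a.2 (y.1 + (a.1 : Odo)) (y.2.1 a.1) w)
    (fun a w w' h h' => FM.unique h h')
  set L := max N (max L₁ L₂) with hL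
  have hLN : N ≤ L := le_max_left _ _
  have hLz : ∀ m : ℤ, |m| ≤ R → ∀ w, FZ (y.1 + (m : Odo)) w → w < L := by
    intro m hm w hw
    exact (hL₁ m (Finset.mem_Icc.2 (abs_le.1 hm)) w hw).trans_le
      ((le_max_left _ _).trans (le_max_right _ _))
  have hLm : ∀ m : ℤ, |m| ≤ R → ∀ j ∈ Q, ∀ w,
      FM (cv t j) j (y.1 + (m : Odo)) (y.2.1 m) w → w < L := by
    intro m hm j hj w hw
    exact (hL₂ (m, j) (Finset.mem_product.2 ⟨Finset.mem_Icc.2 (abs_le.1 hm), hj⟩) w hw).trans_le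
      ((le_max_right _ _).trans (le_max_right _ _))
  clear_value L
  obtain ⟨w, hLw, hA, hB⟩ := appr_w (t := t) y L R Q
  obtain ⟨q, hq1, hq2⟩ := dens hx (w + 1) (fun n => y.1 n + (if n = w then 1 else 0)) (y.2.1 0)
  have hx' : sg (q : ℤ) x ∈ XX t := sg_mem _ hx
  have hz : ∀ n < w, (sg (q : ℤ) x).1 n = y.1 n := by
    intro n hn
    have h1 := hq1 n (by omega)
    rw [if_neg (by omega), add_zero] at h1
    exact h1
  have hzw : (sg (q : ℤ) x).1 w = y.1 w + 1 := by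
    have h1 := hq1 w (by omega)
    rw [if_pos rfl] at h1
    exact h1
  have hk0 : ∀ n < w + 1, (sg (q : ℤ) x).2.1 0 n = y.2.1 0 n := by
    intro n hn
    have h1 := hq2 n hn
    show x.2.1 (0 + q) n = _
    rw [zero_add]
    exact h1
  refine ⟨q, ?_⟩
  generalize sg (q : ℤ) x = x' at hx' hz hzw hk0 ⊢
  have hzm : ∀ m : ℤ, ∀ n < w, (x'.1 + (m : Odo)) n = (y.1 + (m : Odo)) n := by
    intro m n hn
    rw [Pi.add_apply, Pi.add_apply, hz n hn]
  have hzmw : ∀ m : ℤ, (x'.1 + (m : Odo)) w = (y.1 + (m : Odo)) w + 1 := by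
    intro m
    rw [Pi.add_apply, Pi.add_apply, hzw]
    ring
  -- one step
  have hstep0 : ∀ m : ℤ, |m| ≤ R → y.1 + (m : Odo) ≠ 0 → ∀ n,
      (x'.2.1 (m + 1) n = y.2.1 (m + 1) n ↔ x'.2.1 m n = y.2.1 m n) := by
    intro m hm h0 n
    obtain ⟨v, hv⟩ := exists_FZ h0
    have hvL := hLz m hm v hv
    have hv' : FZ (x'.1 + (m : Odo)) v := by
      refine ⟨?_, fun v' hv' => ?_⟩
      · rw [hzm m v (by omega)]
        exact hv.1
      · rw [hzm m v' (by omega)]
        exact hv.2 v' hv'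
    rw [hx'.1 m v hv', hy.1 m v hv]
    show x'.2.1 m n * kp v n = y.2.1 m n * kp v n ↔ _
    exact mul_left_inj _
  have hstep1 : ∀ m : ℤ, |m| ≤ R → ∀ n < L,
      (x'.2.1 (m + 1) n = y.2.1 (m + 1) n ↔ x'.2.1 m n = y.2.1 m n) := by
    intro m hm n hn
    by_cases h0 : y.1 + (m : Odo) = 0
    · have hw' : FZ (x'.1 + (m : Odo)) w := by
        refine ⟨?_, fun v' hv' => ?_⟩
        · rw [hzmw m, h0, Pi.zero_apply, zero_add]
          exact one_ne_zero
        · rw [hzm m v' hv', h0]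
          rfl
      rw [hx'.1 m w hw']
      have h1 := hA m hm h0 n hn
      show x'.2.1 m n * kp w n = _ ↔ _
      rw [h1]
      constructor
      · intro h2
        rw [← mul_assoc] at h2
        have h3 := mul_eq_right.1 h2
        exact mul_inv_eq_one.1 h3
      · intro h2
        rw [h2, mul_inv_cancel_left]
    · exact hstep0 m hm h0 n
  have hkL : ∀ m : ℤ, |m| ≤ R → ∀ n < L, x'.2.1 m n = y.2.1 m n := by
    intro m hm n hn
    exact appr_ind (E := fun m => x'.2.1 m n = y.2.1 m n) (hk0 n (by omega))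
      (fun m hm => hstep1 m hm n hn) m hm
  have hag : ∀ (j : Mk) (m : ℤ) (n : ℕ), x'.2.1 m n = y.2.1 m n →
      (Ag j (x'.2.1 m) n ↔ Ag j (y.2.1 m) n) := by
    intro j m n h
    unfold Ag
    rw [h]
  refine ⟨fun n hn => hz n (by omega), fun m hm n hn => hkL m hm n (by omega),
    fun m hm j hj => ?_⟩
  by_cases ht : t j = 0
  · rw [(hx'.2 m j).1 ht, (hy.2 m j).1 ht]
  · by_cases hh : Hit (cv t j) j (y.1 + (m : Odo)) (y.2.1 m)
    · have hkw : ∀ n < w, x'.2.1 m n = y.2.1 m n := by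
        intro n hn
        exact appr_ind (E := fun m => x'.2.1 m n = y.2.1 m n) (hk0 n (by omega))
          (fun m hm => hstep0 m hm (fun h0 => ht (appr_zp h0 hh.1)) n) m hm
      have hFM : FM (cv t j) j (x'.1 + (m : Odo)) (x'.2.1 m) w := by
        refine ⟨Or.inl ?_, fun w' hw' => ⟨?_, ?_⟩⟩
        · rw [hzmw m, hh.1]
          intro h1
          exact one_ne_zero (add_eq_left.1 h1)
        · rw [hzm m w' hw', hh.1]
        · rw [hag j m w' (hkw w' hw')]
          exact hh.2 w'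
      rw [(hx'.2 m j).2 ht w hFM]
      exact hB m hm j hj ht hh
    · obtain ⟨v, hv⟩ := exists_FM hh
      have hvL := hLm m hm j hj v hv
      have hFM : FM (cv t j) j (x'.1 + (m : Odo)) (x'.2.1 m) v := by
        refine ⟨?_, fun w' hw' => ?_⟩
        · rw [hzm m v (by omega), hag j m v (hkL m hm v hvL)]
          exact hv.1
        · rw [hzm m w' (by omega), hag j m w' (hkL m hm w' (by omega))]
          exact hv.2 w' hw'
      rw [(hx'.2 m j).2 ht v hFM, (hy.2 m j).2 ht v hv]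

end Pool.Agent.BCF
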