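import Pool.Agent.BCF.Top

/-!
# Asymptotic sequences

PLAN. `Asy.map`: compose. `Asy.eq_discrete`: for a finite discrete `D` use the functions
`x ↦ decide (f x = d)`, `d : D`. `asy_of_coord`: if not, there is a continuous `f : KS t → Bool` with
`∃ᶠ n, f (p n) ≠ f (p' n)`; take an ultrafilter `U ≤ atTop` containing this set
(`Filter.Frequently` and `Ultrafilter.of`), limits `y, y'` of `p, p'` along `U` by compactness of `KS t`
(`Ultrafilter.le_nhds_lim` or `isCompact_univ.ultrafilter_le_nhds`); all coordinates of `y` and `y'` are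
equal (eventually equal coordinates in discrete spaces, continuity), so `y = y'` and `f (p n) = f y = f y'
= f (p' n)` for `U`-almost all `n`, a contradiction. `Asy.lim_eq`: if `y ≠ y'` some coordinate, which is a
continuous function to a finite discrete space, differs.
-/

namespace Pool.Agent.BCF

open Set Filter Topology
open Pool.Agent.FlipC (Odo)

/-- Two sequences are asymptotic if every continuous function to `Bool` is eventually equal on them. -/
def Asy {X : Type*} [TopologicalSpace X] (p p' : ℕ → X) : Prop :=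
  ∀ f : X → Bool, Continuous f → ∀ᶠ n in atTop, f (p n) = f (p' n)

theorem Asy.map {X Y : Type*} [TopologicalSpace X] [TopologicalSpace Y] {p p' : ℕ → X} (h : Asy p p')
    {φ : X → Y} (hφ : Continuous φ) : Asy (fun n => φ (p n)) (fun n => φ (p' n)) :=
  fun f hf => h (fun x => f (φ x)) (hf.comp hφ)

theorem Asy.eq_discrete {X D : Type*} [TopologicalSpace X] [TopologicalSpace D] [DiscreteTopology D]
    [Finite D] {p p' : ℕ → X} (h : Asy p p') {f : X → D} (hf : Continuous f) :
    ∀ᶠ n in atTop, f (p n) = f (p' n) := by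
  classical
  have h1 : ∀ d : D, ∀ᶠ n in atTop, decide (f (p n) = d) = decide (f (p' n) = d) := fun d =>
    h (fun x => decide (f x = d)) ((continuous_of_discreteTopology (f := fun a : D =>
      decide (a = d))).comp hf)
  filter_upwards [eventually_all.2 h1] with n hn
  have h2 := hn (f (p' n))
  rw [decide_eq_decide] at h2
  exact h2.2 rfl

private theorem lim_coord {D : Type*} [TopologicalSpace D] [T2Space D] {U : Ultrafilter ℕ}
    (hU : (U : Filter ℕ) ≤ atTop) {a a' : ℕ → D} {b b' : D} (h : ∀ᶠ n in atTop, a n = a' n)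
    (hb : Tendsto a U (𝓝 b)) (hb' : Tendsto a' U (𝓝 b')) : b = b' := by
  have h1 : ∀ᶠ n in (U : Filter ℕ), a n = a' n := hU h
  exact tendsto_nhds_unique (hb.congr' h1) hb'

theorem asy_of_coord {t : Par} {p p' : ℕ → KS t}
    (h1 : ∀ n0 : ℕ, ∀ᶠ n in atTop, (p n).1.1 n0 = (p' n).1.1 n0)
    (h2 : ∀ (m : ℤ) (n0 : ℕ), ∀ᶠ n in atTop, (p n).1.2.1 m n0 = (p' n).1.2.1 m n0)
    (h3 : ∀ (m : ℤ) (j : Mk), ∀ᶠ n in atTop, (p n).1.2.2 m j = (p' n).1.2.2 m j) : Asy p p' := by
  intro f hf
  by_contra hcon
  have hfr : ∃ᶠ n in atTop, f (p n) ≠ f (p' n) := by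
    intro h
    exact hcon (h.mono fun n hn => not_not.1 hn)
  haveI : NeBot (atTop ⊓ 𝓟 {n | f (p n) ≠ f (p' n)}) := by
    rw [Filter.neBot_iff]
    intro h0
    have h4 := (Filter.disjoint_principal_right).1 (_root_.disjoint_iff.2 h0)
    apply hfr
    filter_upwards [h4] with n hn
    exact hn
  let U : Ultrafilter ℕ := Ultrafilter.of (atTop ⊓ 𝓟 {n | f (p n) ≠ f (p' n)})
  have hU : (U : Filter ℕ) ≤ atTop ⊓ 𝓟 {n | f (p n) ≠ f (p' n)} := Ultrafilter.of_le _
  have hU1 : (U : Filter ℕ) ≤ atTop := hU.trans inf_le_left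
  have hU2 : ∀ᶠ n in (U : Filter ℕ), f (p n) ≠ f (p' n) := (hU.trans inf_le_right) (mem_principal_self _)
  obtain ⟨y, -, hy⟩ := isCompact_univ.ultrafilter_le_nhds (U.map p) (by simp)
  obtain ⟨y', -, hy'⟩ := isCompact_univ.ultrafilter_le_nhds (U.map p') (by simp)
  have hy1 : Tendsto p U (𝓝 y) := hy
  have hy2 : Tendsto p' U (𝓝 y') := hy'
  have hv1 : Tendsto (fun n => (p n).1) U (𝓝 y.1) := (continuous_subtype_val.tendsto y).comp hy1
  have hv2 : Tendsto (fun n => (p' n).1) U (𝓝 y'.1) := (continuous_subtype_val.tendsto y').comp hy2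
  have heq : y = y' := by
    refine Subtype.ext (Prod.ext (funext fun n0 => ?_) (Prod.ext (funext fun m => funext fun n0 => ?_)
      (funext fun m => funext fun j => ?_)))
    · have hc : Continuous (fun x : Om => x.1 n0) := (continuous_apply n0).comp continuous_fst
      exact lim_coord hU1 (h1 n0) ((hc.tendsto _).comp hv1) ((hc.tendsto _).comp hv2)
    · have hc : Continuous (fun x : Om => x.2.1 m n0) :=
        (continuous_apply n0).comp ((continuous_apply m).comp (continuous_fst.comp continuous_snd))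
      exact lim_coord hU1 (h2 m n0) ((hc.tendsto _).comp hv1) ((hc.tendsto _).comp hv2)
    · have hc : Continuous (fun x : Om => x.2.2 m j) :=
        (continuous_apply j).comp ((continuous_apply m).comp (continuous_snd.comp continuous_snd))
      exact lim_coord hU1 (h3 m j) ((hc.tendsto _).comp hv1) ((hc.tendsto _).comp hv2)
  have hf1 : ∀ᶠ n in (U : Filter ℕ), f (p n) = f y :=
    ((hf.tendsto y).comp hy1).eventually_mem (mem_nhds_discrete.2 (Set.mem_singleton _))
  have hf2 : ∀ᶠ n in (U : Filter ℕ), f (p' n) = f y' :=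
    ((hf.tendsto y').comp hy2).eventually_mem (mem_nhds_discrete.2 (Set.mem_singleton _))
  have hfin : ∀ᶠ n in (U : Filter ℕ), False := by
    filter_upwards [hU2, hf1, hf2] with n hn1 hn2 hn3
    exact hn1 (by rw [hn2, hn3, heq])
  exact (Filter.NeBot.ne (inferInstance : NeBot (U : Filter ℕ))) (Filter.eventually_false_iff_eq_bot.1 hfin)

theorem Asy.lim_eq {t : Par} {p p' : ℕ → KS t} (h : Asy p p') {u : ℕ → ℕ} (hu : Tendsto u atTop atTop)
    {y y' : KS t} (hy : Tendsto (fun n => p (u n)) atTop (𝓝 y))
    (hy' : Tendsto (fun n => p' (u n)) atTop (𝓝 y')) : y = y' := by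
  have key : ∀ {D : Type} [TopologicalSpace D] [DiscreteTopology D] [Finite D] (f : KS t → D),
      Continuous f → f y = f y' := by
    intro D _ _ _ f hf
    have h1 : ∀ᶠ n in atTop, f (p (u n)) = f (p' (u n)) := hu.eventually (h.eq_discrete hf)
    exact tendsto_nhds_unique (((hf.tendsto y).comp hy).congr' h1) ((hf.tendsto y').comp hy')
  have hcv : Continuous (fun x : KS t => x.1) := continuous_subtype_val
  refine Subtype.ext (Prod.ext (funext fun n0 => ?_) (Prod.ext (funext fun m => funext fun n0 => ?_)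
    (funext fun m => funext fun j => ?_)))
  · haveI : NeZero (Nat.nth Nat.Prime n0) := ⟨(Nat.prime_nth_prime n0).ne_zero⟩
    have hc : Continuous (fun x : Om => x.1 n0) := (continuous_apply n0).comp continuous_fst
    exact key (fun x : KS t => x.1.1 n0) (hc.comp hcv)
  · have hc : Continuous (fun x : Om => x.2.1 m n0) :=
      (continuous_apply n0).comp ((continuous_apply m).comp (continuous_fst.comp continuous_snd))
    exact key (fun x : KS t => x.1.2.1 m n0) (hc.comp hcv)
  · have hc : Continuous (fun x : Om => x.2.2 m j) :=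
      (continuous_apply j).comp ((continuous_apply m).comp (continuous_snd.comp continuous_snd))
    exact key (fun x : KS t => x.1.2.2 m j) (hc.comp hcv)

end Pool.Agent.BCF
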