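import Pool.Agent.BCF.Defs

/-!
# First coordinates, cut points

PLAN. All elementary. `FZ.unique, FM.unique` by `lt_trichotomy`; `exists_FZ, exists_FM` by `Nat.find`
(compare `Pool.Agent.FlipC.Cut`: `Fst.unique`, `exists_Fst`). `pt_int`: evaluate the equation at the even
coordinates `2 * k`: `(q : ZMod p) = 0`, so `q = 0` by `Pool.Agent.FlipC.int_inj` with `φ k = 2 * k`; at
the odd coordinates `c = 0` by `int_inj` with `φ k = 2 * k + 1`. `hit_mark`: the entries of the marks are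
`g n 0`, `g n 1`.
-/

namespace Pool.Agent.BCF

open Pool.Agent.FlipC (Odo)

theorem odo_int_apply (q : ℤ) (m : ℕ) : ((q : ℤ) : Odo) m = (q : ZMod (Nat.nth Nat.Prime m)) := rfl

theorem odo_int_inj {q q' : ℤ} (h : ((q : ℤ) : Odo) = ((q' : ℤ) : Odo)) : q = q' :=
  Pool.Agent.FlipC.int_inj Function.injective_id fun k => congrFun h k

theorem FZ.unique {x : Odo} {w w' : ℕ} (h : FZ x w) (h' : FZ x w') : w = w' := by
  rcases lt_trichotomy w w' with hlt | heq | hlt
  · exact absurd (h'.2 w hlt) h.1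
  · exact heq
  · exact absurd (h.2 w' hlt) h'.1

theorem exists_FZ {x : Odo} (h : x ≠ 0) : ∃ w, FZ x w := by
  classical
  have hex : ∃ w, x w ≠ 0 := by
    by_contra hcon
    push Not at hcon
    exact h (funext hcon)
  refine ⟨Nat.find hex, Nat.find_spec hex, fun w' hw' => ?_⟩
  have := Nat.find_min hex hw'
  exact not_not.1 this

theorem FZ.ne_zero {x : Odo} {w : ℕ} (h : FZ x w) : x ≠ 0 := by
  rintro rfl
  exact h.1 rfl

theorem FM.unique {c : ℤ} {j : Mk} {x : Odo} {g : Gp} {w w' : ℕ} (h : FM c j x g w)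
    (h' : FM c j x g w') : w = w' := by
  rcases lt_trichotomy w w' with hlt | heq | hlt
  · exfalso
    obtain ⟨h1, h2⟩ := h'.2 w hlt
    rcases h.1 with h3 | h3
    · exact h3 h1
    · exact h3 h2
  · exact heq
  · exfalso
    obtain ⟨h1, h2⟩ := h.2 w' hlt
    rcases h'.1 with h3 | h3
    · exact h3 h1
    · exact h3 h2

theorem exists_FM {c : ℤ} {j : Mk} {x : Odo} {g : Gp} (h : ¬ Hit c j x g) : ∃ w, FM c j x g w := by
  classical
  have hex : ∃ w, x w ≠ pt c w ∨ ¬ Ag j g w := by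
    by_contra hcon
    push Not at hcon
    exact h ⟨funext fun w => (hcon w).1, fun w => (hcon w).2⟩
  refine ⟨Nat.find hex, Nat.find_spec hex, fun w' hw' => ?_⟩
  have h1 := Nat.find_min hex hw'
  push Not at h1
  exact h1

theorem Hit.not_FM {c : ℤ} {j : Mk} {x : Odo} {g : Gp} (h : Hit c j x g) (w : ℕ) :
    ¬ FM c j x g w := by
  rintro ⟨h1 | h1, _⟩
  · exact h1 (by rw [h.1])
  · exact h1 (h.2 w)

/-- A point lies on at most one cut. -/
theorem hit_mark {c c' : ℤ} {j j' : Mk} {x x' : Odo} {g : Gp} (h : Hit c j x g)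
    (h' : Hit c' j' x' g) : j = j' := by
  refine Prod.ext (Subtype.ext (funext fun n => ?_)) (Subtype.ext (funext fun n => ?_))
  · rw [← (h.2 n).1, ← (h'.2 n).1]
  · rw [← (h.2 n).2, ← (h'.2 n).2]

private theorem pt_odd (c : ℤ) {m : ℕ} (hm : Odd m) : pt c m = (c : ZMod (Nat.nth Nat.Prime m)) := by
  unfold pt
  rw [if_pos hm]

private theorem pt_even (c : ℤ) {m : ℕ} (hm : ¬ Odd m) : pt c m = 0 := by
  unfold pt
  rw [if_neg hm]

theorem pt_zero : pt 0 = 0 := by
  funext m
  by_cases hm : Odd m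
  · rw [pt_odd _ hm, Int.cast_zero]
    rfl
  · rw [pt_even _ hm]
    rfl

theorem pt_add (a b : ℤ) : pt (a + b) = pt a + pt b := by
  funext m
  rw [Pi.add_apply]
  by_cases hm : Odd m
  · rw [pt_odd _ hm, pt_odd _ hm, pt_odd _ hm, Int.cast_add]
  · rw [pt_even _ hm, pt_even _ hm, pt_even _ hm, add_zero]

theorem pt_sub (a b : ℤ) : pt (a - b) = pt a - pt b := by
  funext m
  rw [Pi.sub_apply]
  by_cases hm : Odd m
  · rw [pt_odd _ hm, pt_odd _ hm, pt_odd _ hm, Int.cast_sub]
  · rw [pt_even _ hm, pt_even _ hm, pt_even _ hm, sub_zero]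

theorem pt_neg (a : ℤ) : pt (-a) = -pt a := by
  funext m
  rw [Pi.neg_apply]
  by_cases hm : Odd m
  · rw [pt_odd _ hm, pt_odd _ hm, Int.cast_neg]
  · rw [pt_even _ hm, pt_even _ hm, neg_zero]

/-- The only integer translate of `0` of the form `pt c` is `0`. -/
theorem pt_int {c q : ℤ} (h : pt c = ((q : ℤ) : Odo)) : c = 0 ∧ q = 0 := by
  have hq : q = 0 := by
    refine Pool.Agent.FlipC.int_inj (φ := fun k => 2 * k) (fun a b hab => ?_) fun k => ?_
    · have h1 : 2 * a = 2 * b := hab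
      omega
    · have h1 := congrFun h (2 * k)
      rw [pt_even _ (by rw [Nat.not_odd_iff_even]; exact even_two_mul k)] at h1
      rw [Int.cast_zero]
      exact h1.symm
  refine ⟨?_, hq⟩
  subst hq
  refine Pool.Agent.FlipC.int_inj (φ := fun k => 2 * k + 1) (fun a b hab => ?_) fun k => ?_
  · have h1 : 2 * a + 1 = 2 * b + 1 := hab
    omega
  · have h1 := congrFun h (2 * k + 1)
    rw [pt_odd _ ⟨k, rfl⟩] at h1
    exact h1

theorem cv_eq_zero {t : Par} {j : Mk} : cv t j = 0 ↔ t j = 0 := by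
  unfold cv
  rw [Int.natCast_eq_zero, Fin.val_eq_zero_iff]

theorem cv_nonneg (t : Par) (j : Mk) : 0 ≤ cv t j := by
  unfold cv
  exact Int.natCast_nonneg _

theorem cv_lt (t : Par) (j : Mk) : cv t j < 3 := by
  unfold cv
  have := (t j).isLt
  omega

theorem cv_inj {t t' : Par} {j j' : Mk} (h : cv t j = cv t' j') : t j = t' j' := by
  unfold cv at h
  exact Fin.ext (by exact_mod_cast h)

end Pool.Agent.BCF
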