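import Pool.Agent.BCF.Top
import Pool.Agent.BCF.Appr
import Pool.Agent.FlipC.Recode

/-!
# Bits of the ambient space, density of orbits, recoding

PLAN. Copy the second half of `Pool.Agent.FlipC.Min` (from `La` on) with
`La = (Σ m : ℕ, ZMod (Nat.nth Nat.Prime m)) ⊕ (ℤ × (Σ n : ℕ, Equiv.Perm (Fin (n + 2)))) ⊕ (ℤ × Mk)`.
* `bb_fin`: bits are determined by finitely many coordinates.
* `approach_bits` from `approach` and `bb_fin`.
* `kk_perf`: `z' = sg k (sg 1 z)`, `k : ℕ`; it is not `z` as the first coordinate moves by `k + 1 ≠ 0`.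
* `kk_open`: for `t'` near `t` (agreeing with `t` on the finitely many marks in `Q`) let
  `z' = (z.1, z.2.1, u')` with `u' m j = z.2.2 m j` for `j ∈ Q`, and the bit of a point given by
  `exists_pt t' z.1 z.2.1 _ _` for `j ∉ Q`.
* `exists_recode` by `Pool.Agent.FlipC.recode` (`Par` and `Om` are compact; a point of `XX t` exists by
  `exists_coc` and `exists_pt`).
-/

namespace Pool.Agent.BCF

open Set Filter Topology
open Pool.Agent.FlipC (Odo)

/-- Labels of bits. -/
private abbrev La : Type := (Σ m : ℕ, ZMod (Nat.nth Nat.Prime m)) ⊕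
  ((ℤ × (Σ n : ℕ, Equiv.Perm (Fin (n + 2)))) ⊕ (ℤ × Mk))

/-- The bit with a given label. -/
private noncomputable def lb : La → Om → Bool
  | Sum.inl x => fun z => decide (z.1 x.1 = x.2)
  | Sum.inr (Sum.inl q) => fun z => decide (z.2.1 q.1 q.2.1 = q.2.2)
  | Sum.inr (Sum.inr q) => fun z => z.2.2 q.1 q.2

private theorem continuous_lb (l : La) : Continuous (lb l) := by
  rcases l with x | q | q
  · have hc : Continuous (fun z : Om => z.1 x.1) := (continuous_apply x.1).comp continuous_fst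
    exact (continuous_of_discreteTopology (f := fun a : ZMod (Nat.nth Nat.Prime x.1) =>
      decide (a = x.2))).comp hc
  · have hc : Continuous (fun z : Om => z.2.1 q.1 q.2.1) :=
      (continuous_apply q.2.1).comp ((continuous_apply q.1).comp
        (continuous_fst.comp continuous_snd))
    exact (continuous_of_discreteTopology (f := fun a : Equiv.Perm (Fin (q.2.1 + 2)) =>
      decide (a = q.2.2))).comp hc
  · exact (continuous_apply q.2).comp ((continuous_apply q.1).comp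
      (continuous_snd.comp continuous_snd))

private theorem exists_enum : ∃ en : ℕ → La, Function.Surjective en := by
  have : Nonempty La := ⟨Sum.inr (Sum.inl (0, ⟨0, 1⟩))⟩
  have : ∀ m : ℕ, Countable (ZMod (Nat.nth Nat.Prime m)) := fun m => inferInstance
  exact exists_surjective_nat La

theorem exists_bits : ∃ bb : ℕ → Om → Bool, (∀ i, Continuous (bb i)) ∧
    (∀ z z', (∀ i, bb i z = bb i z') → z = z') ∧
    ∀ n : ℕ, ∃ (N R : ℕ) (Q : Finset Mk), ∀ z z' : Om,
      (∀ n0 < N, z.1 n0 = z'.1 n0) → (∀ m : ℤ, |m| ≤ R → ∀ n0 < N, z.2.1 m n0 = z'.2.1 m n0) →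
      (∀ m : ℤ, |m| ≤ R → ∀ j ∈ Q, z.2.2 m j = z'.2.2 m j) → ∀ i < n, bb i z = bb i z' := by
  classical
  obtain ⟨en, hen⟩ := exists_enum
  refine ⟨fun i => lb (en i), fun i => continuous_lb _, ?_, ?_⟩
  · intro z z' h
    have hl : ∀ l, lb l z = lb l z' := by
      intro l
      obtain ⟨i, rfl⟩ := hen l
      exact h i
    refine Prod.ext ?_ (Prod.ext ?_ ?_)
    · funext m
      have := hl (Sum.inl ⟨m, z'.1 m⟩)
      simpa [lb] using this
    · funext m n
      have := hl (Sum.inr (Sum.inl (m, ⟨n, z'.2.1 m n⟩)))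
      simpa [lb] using this
    · funext m j
      exact hl (Sum.inr (Sum.inr (m, j)))
  · intro n
    induction n with
    | zero => exact ⟨0, 0, ∅, fun _ _ _ _ _ i hi => absurd hi (Nat.not_lt_zero i)⟩
    | succ n ih =>
      obtain ⟨N, R, Q, h⟩ := ih
      have hcase : ∀ l : La, ∃ (N' R' : ℕ) (Q' : Finset Mk), ∀ z z' : Om,
          (∀ n0 < N', z.1 n0 = z'.1 n0) →
          (∀ m : ℤ, |m| ≤ R' → ∀ n0 < N', z.2.1 m n0 = z'.2.1 m n0) →
          (∀ m : ℤ, |m| ≤ R' → ∀ j ∈ Q', z.2.2 m j = z'.2.2 m j) → lb l z = lb l z' := by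
        intro l
        rcases l with x | q | q
        · refine ⟨x.1 + 1, 0, ∅, fun z z' h1 _ _ => ?_⟩
          simp only [lb]
          rw [h1 x.1 (by omega)]
        · refine ⟨q.2.1 + 1, q.1.natAbs, ∅, fun z z' _ h2 _ => ?_⟩
          simp only [lb]
          rw [h2 q.1 (by rw [Int.abs_eq_natAbs]) q.2.1 (by omega)]
        · refine ⟨0, q.1.natAbs, {q.2}, fun z z' _ _ h3 => ?_⟩
          simp only [lb]
          exact h3 q.1 (by rw [Int.abs_eq_natAbs]) q.2 (Finset.mem_singleton_self q.2)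
      obtain ⟨N', R', Q', h'⟩ := hcase (en n)
      refine ⟨max N N', max R R', Q ∪ Q', fun z z' h1 h2 h3 i hi => ?_⟩
      have hR : (R : ℤ) ≤ (max R R' : ℕ) := by exact_mod_cast le_max_left R R'
      have hR' : (R' : ℤ) ≤ (max R R' : ℕ) := by exact_mod_cast le_max_right R R'
      rcases Nat.lt_succ_iff_lt_or_eq.1 hi with hlt | heq
      · exact h z z' (fun m hm => h1 m (lt_of_lt_of_le hm (le_max_left _ _)))
          (fun m hm n0 hn0 => h2 m (hm.trans hR) n0 (lt_of_lt_of_le hn0 (le_max_left _ _)))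
          (fun m hm j hj => h3 m (hm.trans hR) j (Finset.mem_union_left _ hj)) i hlt
      · subst heq
        exact h' z z' (fun m hm => h1 m (lt_of_lt_of_le hm (le_max_right _ _)))
          (fun m hm n0 hn0 => h2 m (hm.trans hR') n0 (lt_of_lt_of_le hn0 (le_max_right _ _)))
          (fun m hm j hj => h3 m (hm.trans hR') j (Finset.mem_union_right _ hj))

/-- The sequence of bits. -/
noncomputable def bb : ℕ → Om → Bool := exists_bits.choose

theorem continuous_bb (i : ℕ) : Continuous (bb i) := exists_bits.choose_spec.1 i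

theorem bb_sep (z z' : Om) (h : ∀ i, bb i z = bb i z') : z = z' := exists_bits.choose_spec.2.1 z z' h

theorem bb_fin (n : ℕ) : ∃ (N R : ℕ) (Q : Finset Mk), ∀ z z' : Om,
      (∀ n0 < N, z.1 n0 = z'.1 n0) → (∀ m : ℤ, |m| ≤ R → ∀ n0 < N, z.2.1 m n0 = z'.2.1 m n0) →
      (∀ m : ℤ, |m| ≤ R → ∀ j ∈ Q, z.2.2 m j = z'.2.2 m j) → ∀ i < n, bb i z = bb i z' :=
  exists_bits.choose_spec.2.2 n

theorem approach_bits {t : Par} {z z' : Om} (hz : z ∈ XX t) (hz' : z' ∈ XX t) (n : ℕ) :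
    ∃ k : ℕ, ∀ i < n, bb i (sg k z) = bb i z' := by
  obtain ⟨N, R, Q, h⟩ := bb_fin n
  obtain ⟨k, h1, h2, h3⟩ := approach hz hz' N R Q
  exact ⟨k, h _ _ h1 h2 h3⟩

private theorem sg_ne {k : ℤ} (hk : k ≠ 0) (z : Om) : sg k z ≠ z := by
  intro h
  apply hk
  have h1 : z.1 + ((k : ℤ) : Odo) = z.1 := congrArg Prod.fst h
  have h2 : ((k : ℤ) : Odo) = ((0 : ℤ) : Odo) := by
    rw [Int.cast_zero]
    exact add_eq_left.1 h1
  exact odo_int_inj h2

theorem kk_perf {t : Par} {z : Om} (hz : z ∈ XX t) (n : ℕ) :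
    ∃ z', z' ≠ z ∧ z' ∈ XX t ∧ ∀ i < n, bb i z' = bb i z := by
  obtain ⟨k, hk⟩ := approach_bits (sg_mem 1 hz) hz n
  refine ⟨sg k (sg 1 z), ?_, sg_mem _ (sg_mem _ hz), hk⟩
  rw [sg_sg]
  exact sg_ne (by omega) z

theorem kk_dense {t : Par} {z z' : Om} (hz : z ∈ XX t) (hz' : z' ∈ XX t) :
    ∃ u : ℕ → ℕ, Tendsto (fun n => sg (u n) z) atTop (𝓝 z') := by
  choose u hu using fun n => approach_bits hz hz' n
  refine ⟨u, Pool.Agent.FlipC.tendsto_of_bits bb continuous_bb bb_sep _ _ (fun i => ?_)⟩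
  filter_upwards [eventually_gt_atTop i] with n hn
  exact hu n i hn

theorem kk_open (n : ℕ) (s : ℕ → Bool) (c : Bool) :
    IsOpen {t : Par | ∃ z, (t, z) ∈ KT ∧ (∀ i < n, bb i z = s i) ∧ bb n z = c} := by
  classical
  rw [isOpen_iff_mem_nhds]
  rintro t ⟨z, hz, h1, h2⟩
  obtain ⟨N, R, Q, hNQ⟩ := bb_fin (n + 1)
  have hU : IsOpen (⋂ j ∈ Q, {t' : Par | t' j = t j}) := by
    refine isOpen_biInter_finset fun j _ => ?_
    have hc : Continuous (fun t' : Par => t' j) := continuous_apply j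
    exact (isOpen_discrete ({t j} : Set (Fin 3))).preimage hc
  have hmem : t ∈ ⋂ j ∈ Q, {t' : Par | t' j = t j} := by simp
  filter_upwards [hU.mem_nhds hmem] with t' ht'
  have ht'' : ∀ j ∈ Q, t' j = t j := by simpa using ht'
  have hz0 : z ∈ XX t := hz
  obtain ⟨x, hx1, hx2, hx3⟩ := exists_pt t' z.1 z.2.1 hz0.1 z.2.2
  have hag : ∀ i < n + 1, bb i x.1 = bb i z := by
    refine hNQ x.1 z (fun m _ => by rw [hx1]) (fun m _ n0 _ => by rw [hx2]) (fun m _ j hj => ?_)
    by_cases h0 : t' j = 0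
    · rw [(x.2.2 m j).1 h0, (hz0.2 m j).1 (by rw [← ht'' j hj]; exact h0)]
    · by_cases hh : Hit (cv t' j) j (z.1 + (m : Odo)) (z.2.1 m)
      · exact hx3 m j h0 hh
      · refine bit_eq x.2 hz0 (ht'' j hj) (by rw [hx1]) (by rw [hx2]) (fun _ => ?_)
        rw [hx1, hx2]
        exact hh
  refine ⟨x.1, x.2, fun i hi => ?_, ?_⟩
  · rw [hag i (by omega), h1 i hi]
  · rw [hag n (by omega), h2]

theorem kk_nonempty (t : Par) : ∃ z, (t, z) ∈ KT := by
  obtain ⟨k, -, hk, -⟩ := exists_coc (0 : Odo) 1 1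
  obtain ⟨x, -⟩ := exists_pt t 0 k hk (fun _ _ => false)
  exact ⟨x.1, x.2⟩

/-- The recoding of the family. -/
theorem exists_recode : ∃ e : KT ≃ₜ Par × (ℕ → Bool), ∀ z : KT, (e z).1 = z.1.1 :=
  Pool.Agent.FlipC.recode KT bb isClosed_KT continuous_bb bb_sep kk_nonempty
    (fun t z n hz => by
      obtain ⟨z', h1, h2, h3⟩ := kk_perf (show z ∈ XX t from hz) n
      exact ⟨z', h1, h2, h3⟩)
    kk_open

end Pool.Agent.BCF
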