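import Pool.Agent.BCF.Bits

/-!
# Orbits are dense in both directions

PLAN. `dense_fwd`: for each `n` apply `approach_bits` to `sg n x` and `y`: a natural `k` with the first `n`
bits of `sg k (sg n x) = sg (k + n) x` equal to those of `y`; `u n = k + n`; convergence by
`Pool.Agent.FlipC.tendsto_of_bits` (or bits and compactness).
`dense_bwd`: given `N, n` we want `v ≥ N` with the first `n` bits of `sk (-v) x` equal to those of `y`. The
sequence `i ↦ sk (-i) x` in the compact space `KS t` has a cluster point `w`; let `k` be as in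
`approach_bits` for `w, y`. The set of `x'` with the first `n` bits of `sk k x'` equal to those of `y` is
an open neighbourhood of `w`, so it contains `sk (-i) x` for some `i ≥ N + k`; `v = i - k`.
`tendsto_of_zk`: all coordinates converge (are eventually equal to those of `y`): bits at `(m, j)`: both
`false` if `t j = 0`; otherwise there is `w` with `FM (cv t j) j (y.1.1 + m) (y.1.2.1 m) w`, and as soon as
the coordinates of `p n` up to `w` agree with those of `y` the same holds for `p n`.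
-/

namespace Pool.Agent.BCF

open Set Filter Topology
open Pool.Agent.FlipC (Odo)

private theorem tendsto_bb {t : Par} {p : ℕ → KS t} {y : KS t}
    (h : ∀ n : ℕ, ∀ i < n, bb i (p n).1 = bb i y.1) : Tendsto p atTop (𝓝 y) := by
  refine Pool.Agent.FlipC.tendsto_of_bits (fun i (z : KS t) => bb i z.1)
    (fun i => (continuous_bb i).comp continuous_subtype_val)
    (fun z z' hz => Subtype.ext (bb_sep z.1 z'.1 hz)) p y fun i => ?_
  filter_upwards [eventually_gt_atTop i] with n hn
  exact h n i hn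

theorem dense_fwd {t : Par} (x y : KS t) :
    ∃ u : ℕ → ℕ, Tendsto u atTop atTop ∧ Tendsto (fun n => sk (u n : ℤ) x) atTop (𝓝 y) := by
  have h : ∀ n : ℕ, ∃ k : ℕ, ∀ i < n, bb i (sg k (sg (n : ℤ) x.1)) = bb i y.1 := fun n =>
    approach_bits (sg_mem (n : ℤ) x.2) y.2 n
  choose k hk using h
  refine ⟨fun n => k n + n, tendsto_atTop_mono (fun n => Nat.le_add_left n (k n)) tendsto_id, ?_⟩
  refine tendsto_bb fun n i hi => ?_
  have h1 := hk n i hi
  rw [sg_sg] at h1
  rw [← h1]
  change bb i (sg (((k n + n : ℕ)) : ℤ) x.1) = _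
  rw [Nat.cast_add]

private theorem bwd_one {t : Par} (x y : KS t) (n N : ℕ) :
    ∃ v : ℕ, N ≤ v ∧ ∀ i < n, bb i (sk (-(v : ℤ)) x).1 = bb i y.1 := by
  obtain ⟨w, hw⟩ := exists_clusterPt_of_compactSpace
    (Filter.map (fun i : ℕ => sk (t := t) (-(i : ℤ)) x) atTop)
  obtain ⟨k, hk⟩ := approach_bits w.2 y.2 n
  have hn : ∀ᶠ x' : KS t in 𝓝 w, ∀ i ∈ Finset.range n, bb i (sg k x'.1) = bb i y.1 := by
    rw [Filter.eventually_all_finset]
    intro i hi
    have hc : Continuous (fun x' : KS t => bb i (sg k x'.1)) :=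
      (continuous_bb i).comp ((continuous_sg k).comp continuous_subtype_val)
    have h1 := (hc.tendsto w).eventually (p := fun b => b = bb i (sg k w.1))
      (by rw [nhds_discrete]; exact rfl)
    filter_upwards [h1] with x' hx'
    rw [hx']
    exact hk i (Finset.mem_range.1 hi)
  have hfr := (mapClusterPt_iff_frequently.1 hw) _ hn
  obtain ⟨i, hi1, hi2⟩ := (hfr.and_eventually (eventually_ge_atTop (N + k))).exists
  refine ⟨i - k, by omega, fun j hj => ?_⟩
  have h2 := hi1 j (Finset.mem_range.2 hj)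
  change bb j (sg k (sg (-(i : ℤ)) x.1)) = bb j y.1 at h2
  rw [sg_sg] at h2
  rw [← h2]
  change bb j (sg (-(((i - k : ℕ)) : ℤ)) x.1) = _
  have h3 : (-(((i - k : ℕ)) : ℤ)) = (k : ℤ) + -(i : ℤ) := by
    rw [Nat.cast_sub (by omega)]
    ring
  rw [h3]

theorem dense_bwd {t : Par} (x y : KS t) :
    ∃ u : ℕ → ℕ, Tendsto u atTop atTop ∧ Tendsto (fun n => sk (-(u n : ℤ)) x) atTop (𝓝 y) := by
  have h : ∀ n : ℕ, ∃ v : ℕ, n ≤ v ∧ ∀ i < n, bb i (sk (-(v : ℤ)) x).1 = bb i y.1 := fun n =>
    bwd_one x y n n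
  choose u hu1 hu2 using h
  exact ⟨u, tendsto_atTop_mono hu1 tendsto_id, tendsto_bb hu2⟩

/-- Away from the cuts convergence of the first two components implies convergence. -/
theorem tendsto_of_zk {t : Par} {p : ℕ → KS t} {y : KS t}
    (hy : ∀ (m : ℤ) (j : Mk), t j ≠ 0 → ¬ Hit (cv t j) j (y.1.1 + (m : Odo)) (y.1.2.1 m))
    (h1 : Tendsto (fun n => (p n).1.1) atTop (𝓝 y.1.1))
    (h2 : ∀ m : ℤ, Tendsto (fun n => (p n).1.2.1 m) atTop (𝓝 (y.1.2.1 m))) :
    Tendsto p atTop (𝓝 y) := by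
  rw [tendsto_subtype_rng]
  have h2' : Tendsto (fun n => (p n).1.2.1) atTop (𝓝 y.1.2.1) := tendsto_pi_nhds.2 h2
  have h3 : Tendsto (fun n => (p n).1.2.2) atTop (𝓝 y.1.2.2) := by
    refine tendsto_pi_nhds.2 fun m => tendsto_pi_nhds.2 fun j => ?_
    apply tendsto_nhds_of_eventually_eq
    by_cases ht : t j = 0
    · refine Filter.Eventually.of_forall fun n => ?_
      rw [((p n).2.2 m j).1 ht, (y.2.2 m j).1 ht]
    · obtain ⟨w, hw⟩ := exists_FM (hy m j ht)
      have hq : Tendsto (fun n => (((p n).1.1, (p n).1.2.1, y.1.2.2) : Om)) atTop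
          (𝓝 ((y.1.1, y.1.2.1, y.1.2.2) : Om)) :=
        h1.prodMk_nhds (h2'.prodMk_nhds tendsto_const_nhds)
      have hev := hq.eventually ((isClopen_FM (cv t j) j m w).isOpen.mem_nhds hw)
      filter_upwards [hev] with n hn
      rw [((p n).2.2 m j).2 ht w hn, (y.2.2 m j).2 ht w hw]
  exact h1.prodMk_nhds (h2'.prodMk_nhds h3)

end Pool.Agent.BCF
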