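import Pool.Agent.BCF.Basic

/-!
# From cuts to graphs

Elementary combinatorics of eventually constant sequences: a correspondence of the marks under an element of the
group gives an embedding (an isomorphism) of the graphs.
-/

namespace Pool.Agent.BCF

theorem Lm.unique {s : Sq} {i i' : ℕ} (h : Lm s i) (h' : Lm s i') : i = i' := by
  obtain ⟨N, hN⟩ := h
  obtain ⟨N', hN'⟩ := h'
  rw [← hN (max N N') (le_max_left _ _), ← hN' (max N N') (le_max_right _ _)]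

theorem lm_spec (s : Ev) : Lm s.1 (lm s) := s.2.choose_spec

theorem lm_eq {s : Ev} {i : ℕ} (h : Lm s.1 i) : lm s = i := (lm_spec s).unique h

theorem exists_seq (i : ℕ) : ∃ s : Sq, Lm s i := by
  classical
  refine ⟨fun n => if h : i < n + 2 then ⟨i, h⟩ else 0, i, fun n hn => ?_⟩
  have h1 : i < n + 2 := by omega
  simp only [dif_pos h1]

theorem exists_perm2 (n : ℕ) {a b : Fin (n + 2)} (h : a ≠ b) :
    ∃ p : Equiv.Perm (Fin (n + 2)), p 0 = a ∧ p 1 = b := by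
  have h01 : (0 : Fin (n + 2)) ≠ 1 := by
    intro h0
    have := congrArg Fin.val h0
    simp at this
  have hc : (0 : Fin (n + 2)) ≠ Equiv.swap 0 a b := by
    intro h0
    have h1 := congrArg (Equiv.swap 0 a) h0
    rw [Equiv.swap_apply_left, Equiv.swap_apply_self] at h1
    exact h h1
  refine ⟨Equiv.swap 0 a * Equiv.swap 1 (Equiv.swap 0 a b), ?_, ?_⟩
  · rw [Equiv.Perm.mul_apply, Equiv.swap_apply_of_ne_of_ne h01 hc, Equiv.swap_apply_left]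
  · rw [Equiv.Perm.mul_apply, Equiv.swap_apply_left, Equiv.swap_apply_self]

theorem exists_mark {i j : ℕ} (h : i ≠ j) :
    ∃ (k : Gp) (j' : Mk), (∀ n, Ag j' k n) ∧ lm j'.1 = i ∧ lm j'.2 = j := by
  classical
  have h01 : ∀ n : ℕ, (0 : Fin (n + 2)) ≠ 1 := by
    intro n h0
    have := congrArg Fin.val h0
    simp at this
  let s : Sq := fun n => if h : i < n + 2 ∧ j < n + 2 then ⟨i, h.1⟩ else 0
  let s' : Sq := fun n => if h : i < n + 2 ∧ j < n + 2 then ⟨j, h.2⟩ else 1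
  have hs : Lm s i := ⟨i + j, fun n hn => by
    have h1 : i < n + 2 ∧ j < n + 2 := ⟨by omega, by omega⟩
    simp only [s, dif_pos h1]⟩
  have hs' : Lm s' j := ⟨i + j, fun n hn => by
    have h1 : i < n + 2 ∧ j < n + 2 := ⟨by omega, by omega⟩
    simp only [s', dif_pos h1]⟩
  have hne : ∀ n, s n ≠ s' n := by
    intro n
    by_cases h1 : i < n + 2 ∧ j < n + 2
    · simp only [s, s', dif_pos h1]
      intro h2
      exact h (congrArg Fin.val h2)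
    · simp only [s, s', dif_neg h1]
      exact h01 n
  choose k hk using fun n => exists_perm2 n (hne n)
  exact ⟨k, (⟨s, i, hs⟩, ⟨s', j, hs'⟩), fun n => hk n, lm_eq hs, lm_eq hs'⟩

theorem tp_ne_zero {Γ : ℕ → ℕ → Bool} {j : Mk} : tp Γ j ≠ 0 ↔ lm j.1 ≠ lm j.2 := by
  unfold tp
  by_cases h : lm j.1 = lm j.2
  · simp [h]
  · rw [if_neg h]
    refine ⟨fun _ => h, fun _ => ?_⟩
    split_ifs
    · decide
    · decide

theorem tp_eq_tp {Γ Γ' : ℕ → ℕ → Bool} {j j' : Mk} (h : lm j.1 ≠ lm j.2)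
    (h' : lm j'.1 ≠ lm j'.2) :
    tp Γ j = tp Γ' j' ↔ Γ (lm j.1) (lm j.2) = Γ' (lm j'.1) (lm j'.2) := by
  unfold tp
  rw [if_neg h, if_neg h']
  cases h1 : Γ (lm j.1) (lm j.2) <;> cases h2 : Γ' (lm j'.1) (lm j'.2) <;> simp

theorem emb_of_marks {Γ Γ' : ℕ → ℕ → Bool} {g : Gp}
    (h : ∀ (k : Gp) (j' : Mk), tp Γ' j' ≠ 0 → (∀ n, Ag j' k n) →
      ∃ j : Mk, tp Γ j = tp Γ' j' ∧ ∀ n, Ag j (g⁻¹ * k) n) :
    ∃ τ : ℕ → ℕ, Lift g⁻¹ τ ∧ ∀ i j, i ≠ j → τ i ≠ τ j ∧ Γ (τ i) (τ j) = Γ' i j := by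
  have key : ∀ i j, i ≠ j → ∃ a b, (∀ s, Lm s i → Lm (act g⁻¹ s) a) ∧
      (∀ s, Lm s j → Lm (act g⁻¹ s) b) ∧ a ≠ b ∧ Γ a b = Γ' i j := by
    intro i j hij
    obtain ⟨k, j', hAg, h1, h2⟩ := exists_mark hij
    have hne' : lm j'.1 ≠ lm j'.2 := by rw [h1, h2]; exact hij
    obtain ⟨j₁, htp, hAg1⟩ := h k j' (tp_ne_zero.2 hne') hAg
    have hne : lm j₁.1 ≠ lm j₁.2 := tp_ne_zero.1 (by rw [htp]; exact tp_ne_zero.2 hne')
    have lift : ∀ (e e' : Ev) (i : ℕ), lm e = i → (∀ n, (g⁻¹ : Gp) n (e.1 n) = e'.1 n) →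
        ∀ s, Lm s i → Lm (act g⁻¹ s) (lm e') := by
      intro e e' i he hg s hs
      obtain ⟨N, hN⟩ := hs
      obtain ⟨N1, hN1⟩ := lm_spec e
      obtain ⟨N2, hN2⟩ := lm_spec e'
      refine ⟨N + N1 + N2, fun n hn => ?_⟩
      have e1 : s n = e.1 n := by
        apply Fin.ext
        rw [hN n (by omega), hN1 n (by omega), he]
      show (((g⁻¹ : Gp) n (s n) : Fin (n + 2)) : ℕ) = _
      rw [e1, hg n, hN2 n (by omega)]
    refine ⟨lm j₁.1, lm j₁.2, lift j'.1 j₁.1 i h1 (fun n => ?_), lift j'.2 j₁.2 j h2 (fun n => ?_),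
      hne, ?_⟩
    · rw [← (hAg n).1, ← (hAg1 n).1]
      rfl
    · rw [← (hAg n).2, ← (hAg1 n).2]
      rfl
    · rw [(tp_eq_tp hne hne').1 htp, h1, h2]
  choose τ b hτ _ _ _ using fun i : ℕ => key i (i + 1) (by omega)
  refine ⟨τ, fun s i hs => hτ i s hs, fun i j hij => ?_⟩
  obtain ⟨a, b', ha, hb, hab, hΓ⟩ := key i j hij
  obtain ⟨s, hs⟩ := exists_seq i
  obtain ⟨s', hs'⟩ := exists_seq j
  have e1 : a = τ i := (ha s hs).unique (hτ i s hs)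
  have e2 : b' = τ j := (hb s' hs').unique (hτ j s' hs')
  rw [← e1, ← e2]
  exact ⟨hab, hΓ⟩

theorem iso_of_marks {Γ Γ' : ℕ → ℕ → Bool} {g : Gp}
    (h : ∀ (k : Gp) (j' : Mk), tp Γ' j' ≠ 0 → (∀ n, Ag j' k n) →
      ∃ j : Mk, tp Γ j = tp Γ' j' ∧ ∀ n, Ag j (g⁻¹ * k) n)
    (h' : ∀ (k : Gp) (j : Mk), tp Γ j ≠ 0 → (∀ n, Ag j k n) →
      ∃ j' : Mk, tp Γ' j' = tp Γ j ∧ ∀ n, Ag j' (g⁻¹⁻¹ * k) n) :
    ∃ π : ℕ ≃ ℕ, ∀ i j, i ≠ j → Γ' (π i) (π j) = Γ i j := by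
  obtain ⟨τ, hτ, _⟩ := emb_of_marks h
  obtain ⟨σ, hσ, hσ'⟩ := emb_of_marks (Γ := Γ') (Γ' := Γ) (g := g⁻¹) h'
  have act1 : ∀ s : Sq, act g⁻¹⁻¹ (act g⁻¹ s) = s := by
    intro s
    funext n
    show ((g n)⁻¹)⁻¹ ((g n)⁻¹ (s n)) = s n
    simp
  have act2 : ∀ s : Sq, act g⁻¹ (act g⁻¹⁻¹ s) = s := by
    intro s
    funext n
    show (g n)⁻¹ (((g n)⁻¹)⁻¹ (s n)) = s n
    simp
  refine ⟨⟨σ, τ, fun i => ?_, fun i => ?_⟩, fun i j hij => (hσ' i j hij).2⟩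
  · obtain ⟨s, hs⟩ := exists_seq i
    have h1 := hτ _ _ (hσ s i hs)
    rw [act2] at h1
    exact h1.unique hs
  · obtain ⟨s, hs⟩ := exists_seq i
    have h1 := hσ _ _ (hτ s i hs)
    rw [act1] at h1
    exact h1.unique hs

end Pool.Agent.BCF
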