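import Pool.Agent.BCF.Basic

/-!
# The finite argument for minimality

PLAN. Let `P N = ∏ i ∈ Finset.range N, Nat.nth Nat.Prime i`. Write `x ≡ y (N)` for `∀ n < N, x n = y n`.

(0) `(i : Odo) ≡ (i' : Odo) (N)` and `i, i' < P N` (naturals) imply `i = i'` (pairwise coprime moduli:
`Nat.modEq_iff_dvd`, `Finset.prod_primes_dvd` or `Nat.Coprime.mul_dvd_of_dvd_of_dvd`), and
`((P N : ℕ) : Odo) ≡ 0 (N)`. By `Pool.Agent.FlipC.crt` every residue `r` is hit: there is a natural `i`
with `i ≡ r (N)`, and it may be reduced modulo `P N`.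

(1) For `N, r` put `S N r = {f : F | ∃ q : ℕ, z + q ≡ r (N) ∧ h q = f}`. It is non-empty (`crt` for
`r - z`). If `N ≤ N'` and `r' ≡ r (N)` then `S N' r' ⊆ S N r`. Choose `(N, r)` with `(S N r).ncard`
minimal (`Nat.find`, or `Function.argmin`/well-foundedness) and put `S = S N r`. Then `S N' r' = S` for
all such `N', r'` (`Set.eq_of_subset_of_ncard_le`).

(2) Let `i₀ < P N` be the natural number with `r + i₀ ≡ 0 (N)`. For `i < P N`, `i ≠ i₀`, there is a
coordinate `n < N` with `(r + i) n ≠ 0`, so there is `v i < N` with `FZ (y + i) (v i)` for ALL `y ≡ r (N)`.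
Hence there are `A, B : F` such that for all naturals `m` with `z + m ≡ r (N)` and all `w` with
`FZ (z + m + i₀) w` one has `h (m + P N) = h m * A * κ w * B` (prove by induction on `i ≤ i₀`:
`∃ A, ∀ m, z + m ≡ r (N) → h (m + i) = h m * A`; and by induction on `i`, `i₀ + 1 + i ≤ P N`:
`∃ B, ∀ m, z + m ≡ r (N) → h (m + i₀ + 1 + i) = h (m + i₀ + 1) * B`).

(3) For `w ≥ N` let `r' n = -i₀` for `n ≠ w` and `r' w = -i₀ + 1`. Then `r' ≡ r (N)`, and
`y ≡ r' (w + 1)` implies `FZ (y + i₀) w`. So for `f ∈ S = S (w + 1) r'` there is `m` with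
`z + m ≡ r' (w + 1)`, `h m = f`, and `m + P N` witnesses `f * A * κ w * B ∈ S N r = S`.
So `(· * (A * κ w * B)) '' S ⊆ S`, and `=` by finiteness.

(4) For `w, w' ≥ N`: `S * A * κ w = S * B⁻¹ = S * A * κ w'` as sets. Take `κ w' = 1` and `κ w = f`
arbitrary: `S * A` is invariant under right multiplication by every `f`, hence it is everything and so
is `S`. By minimality of the cardinality all `S N' r'` are everything.
-/

namespace Pool.Agent.BCF

open Pool.Agent.FlipC (Odo)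

private theorem modP {N : ℕ} {a b : ℕ} (ha : a < ∏ i ∈ Finset.range N, Nat.nth Nat.Prime i)
    (hb : b < ∏ i ∈ Finset.range N, Nat.nth Nat.Prime i)
    (h : ∀ n < N, (a : ZMod (Nat.nth Nat.Prime n)) = (b : ZMod (Nat.nth Nat.Prime n))) : a = b := by
  have h1 : ((∏ i ∈ Finset.range N, (Nat.nth Nat.Prime i : ℤ))) ∣ (b : ℤ) - a := by
    refine Finset.prod_dvd_of_coprime ?_ ?_
    · intro i _ j _ hij
      have h2 : Nat.Coprime (Nat.nth Nat.Prime i) (Nat.nth Nat.Prime j) := by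
        rw [Nat.coprime_primes (Pool.Agent.FlipC.fact_pr i).out (Pool.Agent.FlipC.fact_pr j).out]
        exact fun h => hij (Nat.nth_injective Nat.infinite_setOfPred_prime h)
      exact Nat.isCoprime_iff_coprime.2 h2
    · intro n hn
      have h3 := h n (Finset.mem_range.1 hn)
      rw [ZMod.natCast_eq_natCast_iff] at h3
      exact (Nat.modEq_iff_dvd.1 h3)
  have h4 : (∏ i ∈ Finset.range N, (Nat.nth Nat.Prime i : ℤ)) =
      ((∏ i ∈ Finset.range N, Nat.nth Nat.Prime i : ℕ) : ℤ) := by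
    push_cast; rfl
  rw [h4] at h1
  exact Nat.ModEq.eq_of_lt_of_lt (Nat.modEq_iff_dvd.2 h1) ha hb

private theorem seg {F : Type*} [Group F] (κ : ℕ → F) (z : Odo) (h : ℕ → F)
    (hh : ∀ m w : ℕ, FZ (z + (m : Odo)) w → h (m + 1) = h m * κ w) (N : ℕ) (r : Odo) (a b : ℕ)
    (hab : a ≤ b) (hne : ∀ i, a ≤ i → i < b → ∃ n < N, r n + (i : ZMod (Nat.nth Nat.Prime n)) ≠ 0) :
    ∃ A : F, ∀ m : ℕ, (∀ n < N, (z + (m : Odo)) n = r n) → h (m + b) = h (m + a) * A := by
  induction b, hab using Nat.le_induction with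
  | base => exact ⟨1, fun m _ => (mul_one _).symm⟩
  | succ b hb ih =>
    obtain ⟨A, hA⟩ := ih (fun i h1 h2 => hne i h1 (by omega))
    classical
    have hex := hne b hb (by omega)
    have hex' : ∃ n, n < N ∧ r n + (b : ZMod (Nat.nth Nat.Prime n)) ≠ 0 := hex
    refine ⟨A * κ (Nat.find hex'), fun m hm => ?_⟩
    have hsp := Nat.find_spec hex'
    have hfz : FZ (z + ((m + b : ℕ) : Odo)) (Nat.find hex') := by
      have key : ∀ n < N, (z + ((m + b : ℕ) : Odo)) n = r n + (b : ZMod (Nat.nth Nat.Prime n)) := by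
        intro n hn
        rw [← hm n hn]
        simp only [Pi.add_apply, Pi.natCast_apply, Nat.cast_add]
        ring
      refine ⟨?_, ?_⟩
      · rw [key _ hsp.1]
        exact hsp.2
      · intro w' hw'
        have h5 := Nat.find_min hex' hw'
        rw [key w' (by omega)]
        by_contra h6
        exact h5 ⟨by omega, h6⟩
    have h7 := hh (m + b) _ hfz
    rw [← add_assoc, h7, hA m hm, mul_assoc]

theorem lemD {F : Type*} [Group F] [Finite F] (κ : ℕ → F) (hκ : ∀ (f : F) (j : ℕ), ∃ w, j ≤ w ∧ κ w = f)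
    (z : Odo) (hz : ∀ m : ℕ, z + (m : Odo) ≠ 0) (h : ℕ → F)
    (hh : ∀ m w : ℕ, FZ (z + (m : Odo)) w → h (m + 1) = h m * κ w) (N : ℕ) (r : Odo) (f : F) :
    ∃ q : ℕ, (∀ n < N, (z + (q : Odo)) n = r n) ∧ h q = f := by
  classical
  let S : ℕ × Odo → Set F := fun x => {f | ∃ q : ℕ, (∀ n < x.1, (z + (q : Odo)) n = x.2 n) ∧ h q = f}
  have hne : ∀ x, (S x).Nonempty := by
    intro x
    obtain ⟨k, hk⟩ := Pool.Agent.FlipC.crt (x.2 - z) x.1
    refine ⟨h k, k, fun n hn => ?_, rfl⟩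
    have := hk n hn
    simp only [Pi.add_apply, Pi.natCast_apply, Pi.sub_apply] at this ⊢
    rw [this]; ring
  have hsub : ∀ x y : ℕ × Odo, x.1 ≤ y.1 → (∀ n < x.1, y.2 n = x.2 n) → S y ⊆ S x := by
    rintro x y hxy he f ⟨q, hq, hf⟩
    exact ⟨q, fun n hn => (hq n (by omega)).trans (he n hn), hf⟩
  obtain ⟨x, hx⟩ : ∃ x, ∀ y, (S x).ncard ≤ (S y).ncard := by
    have hwf := WellFounded.has_min (measure fun x => (S x).ncard).wf Set.univ ⟨(0, 0), trivial⟩
    obtain ⟨x, _, hx⟩ := hwf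
    exact ⟨x, fun y => not_lt.1 (hx y trivial)⟩
  obtain ⟨N0, r0⟩ := x
  have heq : ∀ (N' : ℕ) (r' : Odo), N0 ≤ N' → (∀ n < N0, r' n = r0 n) → S (N', r') = S (N0, r0) := by
    intro N' r' h1 h2
    exact Set.eq_of_subset_of_ncard_le (hsub (N0, r0) (N', r') h1 h2) (hx _) (Set.toFinite _)
  set P := ∏ i ∈ Finset.range N0, Nat.nth Nat.Prime i with hP
  have hPpos : 0 < P := Finset.prod_pos fun i _ => (Pool.Agent.FlipC.fact_pr i).out.pos
  have hPz : ∀ n < N0, ((P : ℕ) : ZMod (Nat.nth Nat.Prime n)) = 0 := by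
    intro n hn
    rw [ZMod.natCast_eq_zero_iff]
    exact Finset.dvd_prod_of_mem _ (Finset.mem_range.2 hn)
  obtain ⟨i1, hi1⟩ := Pool.Agent.FlipC.crt (-r0) N0
  obtain ⟨i0, hi0, hi0P⟩ : ∃ i0 : ℕ, (∀ n < N0, (i0 : ZMod (Nat.nth Nat.Prime n)) = -r0 n) ∧ i0 < P := by
    refine ⟨i1 % P, fun n hn => ?_, Nat.mod_lt _ hPpos⟩
    have h1 : ((i1 % P : ℕ) : ZMod (Nat.nth Nat.Prime n)) = (i1 : ZMod (Nat.nth Nat.Prime n)) := by
      conv_rhs => rw [← Nat.mod_add_div i1 P]
      push_cast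
      rw [hPz n hn]; ring
    rw [h1, hi1 n hn]
    rfl
  have hne0 : ∀ i, i < P → i ≠ i0 → ∃ n < N0, r0 n + (i : ZMod (Nat.nth Nat.Prime n)) ≠ 0 := by
    intro i hi hii
    by_contra hcon
    push Not at hcon
    refine hii (modP hi hi0P fun n hn => ?_)
    rw [hi0 n hn]
    exact eq_neg_of_add_eq_zero_right (hcon n hn)
  obtain ⟨A, hA⟩ := seg κ z h hh N0 r0 0 i0 (Nat.zero_le _)
    (fun i _ hi => hne0 i (by omega) (by omega))
  obtain ⟨B, hB⟩ := seg κ z h hh N0 r0 (i0 + 1) P (by omega)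
    (fun i hi hi' => hne0 i (by omega) (by omega))
  have hstep : ∀ g ∈ S (N0, r0), ∀ w, N0 ≤ w → g * (A * κ w * B) ∈ S (N0, r0) := by
    intro g hg w hw
    let r' : Odo := fun n => if n = w then -(i0 : ZMod (Nat.nth Nat.Prime n)) + 1
      else -(i0 : ZMod (Nat.nth Nat.Prime n))
    have hr' : ∀ n < N0, r' n = r0 n := by
      intro n hn
      simp only [r']
      rw [if_neg (by omega), hi0 n hn, neg_neg]
    rw [← heq (w + 1) r' (by omega) hr'] at hg
    obtain ⟨m, hm, hmg⟩ := hg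
    have hm0 : ∀ n < N0, (z + (m : Odo)) n = r0 n := fun n hn =>
      (hm n (show n < w + 1 by omega)).trans (hr' n hn)
    have hfz : FZ (z + ((m + i0 : ℕ) : Odo)) w := by
      have key : ∀ n < w + 1, (z + ((m + i0 : ℕ) : Odo)) n =
          r' n + (i0 : ZMod (Nat.nth Nat.Prime n)) := by
        intro n hn
        have hmn : (z + (m : Odo)) n = r' n := hm n hn
        rw [← hmn]
        simp only [Pi.add_apply, Pi.natCast_apply, Nat.cast_add]
        ring
      refine ⟨?_, ?_⟩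
      · rw [key w (by omega)]
        simp [r']
      · intro w' hw'
        rw [key w' (by omega)]
        simp only [r']
        rw [if_neg (by omega)]
        ring
    refine ⟨m + P, fun n hn => ?_, ?_⟩
    · have h1 := hm0 n hn
      simp only [Pi.add_apply, Pi.natCast_apply, Nat.cast_add] at h1 ⊢
      rw [hPz n hn, add_zero]
      exact h1
    · rw [hB m hm0, ← add_assoc, hh (m + i0) w hfz, hA m hm0, add_zero, hmg]
      group
  have huniv : S (N0, r0) = Set.univ := by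
    obtain ⟨g, hg⟩ := hne (N0, r0)
    ext f
    refine ⟨fun _ => trivial, fun _ => ?_⟩
    obtain ⟨w, hw, hκw⟩ := hκ (A⁻¹ * (g⁻¹ * f) * B⁻¹) N0
    have h1 := hstep g hg w hw
    rw [hκw] at h1
    have h2 : g * (A * (A⁻¹ * (g⁻¹ * f) * B⁻¹) * B) = f := by group
    rwa [h2] at h1
  have hall : S (N, r) = Set.univ := by
    have h1 := hx (N, r)
    rw [huniv] at h1
    exact Set.eq_of_subset_of_ncard_le (Set.subset_univ _) h1 (Set.toFinite _)
  have hf : f ∈ S (N, r) := by rw [hall]; trivial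
  exact hf

end Pool.Agent.BCF
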