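import Pool.Agent.BCF.Kap

/-!
# Cut extensions of an odometer: definitions

The odometer is `Odo = ∏ ℤ/p_n` with the translation by `1`. The points of the system with parameter `t`
are triples `x = (z, k, u)`: `z = x.1 : Odo`, `k = x.2.1 : ℤ → Gp` (the position in the group at all times)
and `u = x.2.2 : ℤ → Mk → Bool` (the bits of the cuts at all times).
-/

namespace Pool.Agent.BCF

open Pool.Agent.FlipC (Odo)

/-- Sequences with `n`-th entry below `n + 2`. -/
abbrev Sq : Type := ∀ n : ℕ, Fin (n + 2)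

/-- The sequence `s` is eventually constant with value `i`. -/
def Lm (s : Sq) (i : ℕ) : Prop := ∃ N, ∀ n, N ≤ n → (s n : ℕ) = i

/-- Eventually constant sequences. -/
abbrev Ev : Type := {s : Sq // ∃ i, Lm s i}

/-- The eventual value. -/
noncomputable def lm (s : Ev) : ℕ := s.2.choose

/-- Marks are pairs of eventually constant sequences. -/
abbrev Mk : Type := Ev × Ev

/-- Parameters: the mark `j` is inactive if `t j = 0`; otherwise it is placed over the point `pt (t j)`. -/
abbrev Par : Type := Mk → Fin 3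

/-- The value of the parameter as an integer. -/
def cv (t : Par) (j : Mk) : ℤ := (((t j : Fin 3) : ℕ) : ℤ)

/-- The ambient space. -/
abbrev Om : Type := Odo × (ℤ → Gp) × (ℤ → Mk → Bool)

/-- The point of the odometer with value `c` at odd coordinates and `0` at even ones. -/
noncomputable def pt (c : ℤ) : Odo := fun m => if Odd m then (c : ZMod (Nat.nth Nat.Prime m)) else 0

/-- The first non-zero coordinate of `x` is the `w`-th. -/
def FZ (x : Odo) (w : ℕ) : Prop := x w ≠ 0 ∧ ∀ w' < w, x w' = 0

/-- At coordinate `n` the permutation `g n` maps the letters `0, 1` to the entries of the mark. -/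
def Ag (j : Mk) (g : Gp) (n : ℕ) : Prop := g n 0 = j.1.1 n ∧ g n 1 = j.2.1 n

/-- The first coordinate where `(x, g)` and the cut `(pt c, j)` differ is the `w`-th. -/
def FM (c : ℤ) (j : Mk) (x : Odo) (g : Gp) (w : ℕ) : Prop :=
  (x w ≠ pt c w ∨ ¬ Ag j g w) ∧ ∀ w' < w, x w' = pt c w' ∧ Ag j g w'

/-- `(x, g)` lies on the cut `(pt c, j)`. -/
def Hit (c : ℤ) (j : Mk) (x : Odo) (g : Gp) : Prop := x = pt c ∧ ∀ n, Ag j g n

/-- The system with parameter `t`. -/
def XX (t : Par) : Set Om :=
  {x | (∀ (m : ℤ) (w : ℕ), FZ (x.1 + (m : Odo)) w → x.2.1 (m + 1) = x.2.1 m * kp w) ∧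
    ∀ (m : ℤ) (j : Mk), (t j = 0 → x.2.2 m j = false) ∧
      (t j ≠ 0 → ∀ w, FM (cv t j) j (x.1 + (m : Odo)) (x.2.1 m) w → x.2.2 m j = decide (Odd w))}

/-- The space of the system with parameter `t`. -/
abbrev KS (t : Par) : Type := {x : Om // x ∈ XX t}

/-- The shift by `q`. -/
noncomputable def sg (q : ℤ) (x : Om) : Om :=
  (x.1 + (q : Odo), fun m => x.2.1 (m + q), fun m => x.2.2 (m + q))

open Classical in
/-- The parameter of a digraph on `ℕ`. -/
noncomputable def tp (Γ : ℕ → ℕ → Bool) : Par := fun j =>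
  if lm j.1 = lm j.2 then 0 else if Γ (lm j.1) (lm j.2) = true then 1 else 2

/-- The action on sequences. -/
def act (g : Gp) (s : Sq) : Sq := fun n => g n (s n)

/-- The permutations `g n` converge pointwise to `τ`. -/
def Lift (g : Gp) (τ : ℕ → ℕ) : Prop := ∀ (s : Sq) (i : ℕ), Lm s i → Lm (act g s) (τ i)

end Pool.Agent.BCF
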