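import Pool.Agent.BCF.Shift
import Pool.Agent.BCF.DLem

/-!
# Orbits are dense in the group extension of the odometer

PLAN. Choose `m₀ : ℕ` such that `x.1 + m ≠ 0` for all naturals `m ≥ m₀` (at most one integer `m` has
`x.1 + m = 0`, by `odo_int_inj`). Apply `lemD` with `F = ∀ n : Fin N, Equiv.Perm (Fin (n + 2))`,
`κ w = fun n => kp w n` (hypothesis from `kp_spec`, extend `f : F` by `1`), `z = x.1 + m₀`,
`h q n = x.2.1 (m₀ + q) n`; `hh` from the first condition of `XX` at the time `m₀ + q`. The result for `q`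
gives the claim with `q + m₀` (a natural number).
-/

namespace Pool.Agent.BCF

open Pool.Agent.FlipC (Odo)

private theorem dens_cast (z : Odo) (a b : ℕ) :
    z + (((a : ℕ) : ℤ) : Odo) + ((b : ℕ) : Odo) = z + (((a + b : ℕ) : ℤ) : Odo) := by
  push_cast
  rw [add_assoc]

private theorem dens_start (z : Odo) : ∃ m₀ : ℕ, ∀ m : ℕ, m₀ ≤ m → z + (((m : ℕ) : ℤ) : Odo) ≠ 0 := by
  by_cases h : ∃ q : ℤ, z + (q : Odo) = 0
  · obtain ⟨q, hq⟩ := h
    refine ⟨q.natAbs + 1, fun m hm h => ?_⟩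
    have h1 : (((m : ℕ) : ℤ) : Odo) = ((q : ℤ) : Odo) := by
      have h2 : z + (((m : ℕ) : ℤ) : Odo) = z + (q : Odo) := h.trans hq.symm
      exact add_left_cancel h2
    have h2 := odo_int_inj h1
    omega
  · exact ⟨0, fun m _ hm => h ⟨m, hm⟩⟩

theorem dens {t : Par} {x : Om} (hx : x ∈ XX t) (N : ℕ) (r : Odo) (f : Gp) :
    ∃ q : ℕ, (∀ n < N, (x.1 + ((q : ℤ) : Odo)) n = r n) ∧ ∀ n < N, x.2.1 (q : ℤ) n = f n := by
  obtain ⟨m₀, hm₀⟩ := dens_start x.1
  obtain ⟨q, hq1, hq2⟩ := lemD (F := ∀ n : Fin N, Equiv.Perm (Fin (n + 2)))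
    (fun w => fun n => kp w n)
    (fun g j => by
      obtain ⟨w, hw, hw'⟩ := kp_spec (fun n => if h : n < N then g ⟨n, h⟩ else 1) N j
      refine ⟨w, hw, ?_⟩
      funext n
      have h1 := hw' n n.2
      rw [h1]
      exact dif_pos n.2)
    (x.1 + (((m₀ : ℕ) : ℤ) : Odo))
    (fun m => by
      rw [dens_cast]
      exact hm₀ _ (by omega))
    (fun q => fun n => x.2.1 ((m₀ + q : ℕ) : ℤ) n)
    (fun m w hw => by
      rw [dens_cast] at hw
      have h1 := hx.1 _ w hw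
      funext n
      have h2 : ((m₀ + (m + 1) : ℕ) : ℤ) = ((m₀ + m : ℕ) : ℤ) + 1 := by
        push_cast
        ring
      simp only [h2, h1]
      rfl)
    N r (fun n => f n)
  refine ⟨m₀ + q, fun n hn => ?_, fun n hn => ?_⟩
  · have h1 := hq1 n hn
    rw [dens_cast] at h1
    exact h1
  · exact congrFun hq2 ⟨n, hn⟩

end Pool.Agent.BCF
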