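import Pool.Agent.BCF.Bits

/-!
# The family on Cantor space

PLAN. Copy `Pool.Agent.FlipC.Main`: `exists_family`, `fam_symm`, `fam_iter` and the part `MinHomeo` of
`fam_regExt`, with `KK` replaced by `XX`.
-/

namespace Pool.Agent.BCF

open Set Filter Topology
open Pool.Agent.FlipC (Cantor MinHomeo)

/-- All systems, realised on Cantor space, continuously in the parameter. -/
theorem exists_family : ∃ (F : C(Par, C(Cantor, Cantor))) (Ψ : ∀ t : Par, KS t ≃ₜ Cantor),
    ∀ t z, F t (Ψ t z) = Ψ t (sk 1 z) := by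
  obtain ⟨e, he⟩ := exists_recode
  have he' : ∀ x : Par × Cantor, (e.symm x).1.1 = x.1 := by
    intro x
    have := he (e.symm x)
    rw [e.apply_symm_apply] at this
    exact this.symm
  let sT : KT → KT := fun z => ⟨(z.1.1, sg 1 z.1.2), sg_mem 1 (show z.1.2 ∈ XX z.1.1 from z.2)⟩
  have hsT : Continuous sT := by
    refine Continuous.subtype_mk ?_ _
    exact (continuous_fst.comp continuous_subtype_val).prodMk
      ((continuous_sg 1).comp (continuous_snd.comp continuous_subtype_val))
  let f : C(Par × Cantor, Cantor) := ⟨fun x => (e (sT (e.symm x))).2,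
    continuous_snd.comp (e.continuous.comp (hsT.comp e.symm.continuous))⟩
  let Ψ : ∀ t : Par, KS t ≃ₜ Cantor := fun t =>
    { toFun := fun z => (e ⟨(t, z.1), z.2⟩).2
      invFun := fun w => ⟨(e.symm (t, w)).1.2, by
        have h1 := (e.symm (t, w)).2
        have h2 : (e.symm (t, w)).1.2 ∈ XX (e.symm (t, w)).1.1 := h1
        rw [he'] at h2
        exact h2⟩
      left_inv := fun z => by
        refine Subtype.ext ?_
        change (e.symm (t, (e ⟨(t, z.1), z.2⟩).2)).1.2 = z.1
        have h1 : ((t, (e ⟨(t, z.1), z.2⟩).2) : Par × Cantor) = e ⟨(t, z.1), z.2⟩ := by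
          refine Prod.ext ?_ rfl
          exact (he ⟨(t, z.1), z.2⟩).symm
        rw [h1, e.symm_apply_apply]
      right_inv := fun w => by
        have h1 : (⟨(t, (e.symm (t, w)).1.2), by
            have h2 : (e.symm (t, w)).1.2 ∈ XX (e.symm (t, w)).1.1 := (e.symm (t, w)).2
            rw [he'] at h2
            exact h2⟩ : KT) = e.symm (t, w) := by
          refine Subtype.ext (Prod.ext ?_ rfl)
          exact (he' (t, w)).symm
        change (e ⟨(t, (e.symm (t, w)).1.2), _⟩).2 = w
        rw [h1, e.apply_symm_apply]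
      continuous_toFun := by
        refine continuous_snd.comp (e.continuous.comp ?_)
        exact (continuous_const.prodMk continuous_subtype_val).subtype_mk _
      continuous_invFun := by
        refine Continuous.subtype_mk ?_ _
        refine continuous_snd.comp (continuous_subtype_val.comp (e.symm.continuous.comp ?_))
        exact continuous_const.prodMk continuous_id }
  refine ⟨f.curry, Ψ, fun t z => ?_⟩
  change (e (sT (e.symm (t, (e ⟨(t, z.1), z.2⟩).2)))).2 = (e ⟨(t, (sk 1 z).1), _⟩).2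
  have h1 : ((t, (e ⟨(t, z.1), z.2⟩).2) : Par × Cantor) = e ⟨(t, z.1), z.2⟩ := by
    refine Prod.ext ?_ rfl
    exact (he ⟨(t, z.1), z.2⟩).symm
  rw [h1, e.symm_apply_apply]
  rfl

theorem fam_symm {F : C(Par, C(Cantor, Cantor))} {Ψ : ∀ t : Par, KS t ≃ₜ Cantor}
    (hF : ∀ t z, F t (Ψ t z) = Ψ t (sk 1 z)) (t : Par) (x : Cantor) :
    (Ψ t).symm (F t x) = sk 1 ((Ψ t).symm x) := by
  apply (Ψ t).injective
  rw [(Ψ t).apply_symm_apply, ← hF, (Ψ t).apply_symm_apply]

private theorem fam_iter {F : C(Par, C(Cantor, Cantor))} {Ψ : ∀ t : Par, KS t ≃ₜ Cantor}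
    (hF : ∀ t z, F t (Ψ t z) = Ψ t (sk 1 z)) (t : Par) (n : ℕ) (x : Cantor) :
    (⇑(F t))^[n] x = Ψ t (sk n ((Ψ t).symm x)) := by
  induction n with
  | zero =>
    rw [Function.iterate_zero_apply, Nat.cast_zero, sk_zero, (Ψ t).apply_symm_apply]
  | succ n ih =>
    rw [Function.iterate_succ_apply', ih, hF, sk_sk]
    congr 2
    push_cast
    ring

theorem fam_min {F : C(Par, C(Cantor, Cantor))} {Ψ : ∀ t : Par, KS t ≃ₜ Cantor}
    (hF : ∀ t z, F t (Ψ t z) = Ψ t (sk 1 z)) (t : Par) : MinHomeo (F t) := by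
  refine ⟨?_, ?_⟩
  · let s : KS t ≃ₜ KS t :=
      { toFun := sk 1
        invFun := sk (-1)
        left_inv := fun z => by rw [sk_sk]; norm_num; exact sk_zero z
        right_inv := fun z => by rw [sk_sk]; norm_num; exact sk_zero z
        continuous_toFun := continuous_sk 1
        continuous_invFun := continuous_sk (-1) }
    refine ⟨((Ψ t).symm.trans s).trans (Ψ t), fun x => ?_⟩
    change Ψ t (sk 1 ((Ψ t).symm x)) = F t x
    rw [← hF, (Ψ t).apply_symm_apply]
  · intro x y
    obtain ⟨u, hu⟩ := kk_dense ((Ψ t).symm x).2 ((Ψ t).symm y).2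
    have hu' : Tendsto (fun n => sk (u n) ((Ψ t).symm x)) atTop (𝓝 ((Ψ t).symm y)) := by
      rw [tendsto_subtype_rng]
      exact hu
    have h1 : Tendsto (fun n => Ψ t (sk (u n) ((Ψ t).symm x))) atTop (𝓝 y) := by
      have := ((Ψ t).continuous.tendsto ((Ψ t).symm y)).comp hu'
      rw [(Ψ t).apply_symm_apply] at this
      exact this
    refine mem_closure_of_tendsto h1 (Eventually.of_forall fun n => ⟨u n, ?_⟩)
    exact fam_iter hF t (u n) x

end Pool.Agent.BCF
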