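import Pool.Agent.FlipC.Odo
import Pool.Agent.FlipD.Defs

/-!
# The group and a dense sequence in it

`Gp` is the product of the finite symmetric groups on `n + 2` letters, with the product topology of the
discrete topologies.
-/

namespace Pool.Agent.BCF

instance permTop (n : ℕ) : TopologicalSpace (Equiv.Perm (Fin n)) := ⊥

instance permDisc (n : ℕ) : DiscreteTopology (Equiv.Perm (Fin n)) := ⟨rfl⟩

/-- The product of the finite symmetric groups on `n + 2` letters. -/
abbrev Gp : Type := ∀ n : ℕ, Equiv.Perm (Fin (n + 2))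

private theorem kap_countable : {g : Gp | ∃ L, ∀ n, L ≤ n → g n = 1}.Countable := by
  have h1 : {g : Gp | ∃ L, ∀ n, L ≤ n → g n = 1} = ⋃ L, {g : Gp | ∀ n, L ≤ n → g n = 1} := by
    ext g
    simp
  rw [h1]
  refine Set.countable_iUnion fun L => Set.Finite.countable ?_
  refine Set.Finite.of_injOn (f := fun (g : Gp) (n : Fin L) => g n)
    (t := (Set.univ : Set (∀ n : Fin L, Equiv.Perm (Fin (n + 2))))) (fun _ _ => Set.mem_univ _) ?_ Set.finite_univ
  intro g hg g' hg' h
  funext n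
  rcases Nat.lt_or_ge n L with hn | hn
  · exact congrFun h ⟨n, hn⟩
  · rw [hg n hn, hg' n hn]

theorem exists_kappa : ∃ κ : ℕ → Gp, ∀ (f : Gp) (L j : ℕ), ∃ w, j ≤ w ∧ ∀ n < L, κ w n = f n := by
  have hne : {g : Gp | ∃ L, ∀ n, L ≤ n → g n = 1}.Nonempty := ⟨fun _ => 1, 0, fun _ _ => rfl⟩
  obtain ⟨e, he⟩ := kap_countable.exists_eq_range hne
  refine ⟨fun w => e (Nat.unpair w).1, fun f L j => ?_⟩
  have hf : (fun n => if n < L then f n else 1 : Gp) ∈ {g : Gp | ∃ L, ∀ n, L ≤ n → g n = 1} :=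
    ⟨L, fun n hn => if_neg (by omega)⟩
  rw [he] at hf
  obtain ⟨q, hq⟩ := hf
  refine ⟨Nat.pair q j, Nat.right_le_pair q j, fun n hn => ?_⟩
  show e (Nat.unpair (Nat.pair q j)).1 n = f n
  rw [Nat.unpair_pair, hq]
  exact if_pos hn

/-- A sequence in `Gp` all of whose tails are dense. -/
noncomputable def kp : ℕ → Gp := exists_kappa.choose

theorem kp_spec (f : Gp) (L j : ℕ) : ∃ w, j ≤ w ∧ ∀ n < L, kp w n = f n :=
  exists_kappa.choose_spec f L j

end Pool.Agent.BCF
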