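import Pool.Agent.BCF.Comb

/-!
# Lifting injections of `ℕ` to the group

PLAN. `exists_lift`: for each `n` there is a permutation `g n` of `Fin (n + 2)` with `g n i = τ i` for all
`i < n + 2` with `τ i < n + 2` (a partial injection of a finite set extends to a permutation: e.g.
`Equiv.extendSubtype` applied to `{i // τ i < n + 2} ≃ its image`). If `Lm s i` then for large `n`:
`s n = i` and `i, τ i < n + 2`, so `g n (s n) = τ i`.
`Lift.inv`: if `Lm s i`, take `s'` with `Lm s' (π.symm i)` (`exists_seq`); `act g s' n = i = s n` for large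
`n`, so `(g n)⁻¹ (s n) = s' n`.
-/

namespace Pool.Agent.BCF

private theorem lift_perm {τ : ℕ → ℕ} (hτ : Function.Injective τ) (n : ℕ) :
    ∃ p : Equiv.Perm (Fin (n + 2)), ∀ i : Fin (n + 2), τ i < n + 2 → ((p i : Fin (n + 2)) : ℕ) = τ i := by
  obtain ⟨p, hp⟩ := Equiv.Perm.exists_extending_pair
    (fun i : {i : Fin (n + 2) // τ i < n + 2} => i.1)
    (fun i : {i : Fin (n + 2) // τ i < n + 2} => (⟨τ i.1, i.2⟩ : Fin (n + 2)))
    Subtype.val_injective (fun a b hab => by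
      have h1 : τ a.1 = τ b.1 := congrArg Fin.val hab
      exact Subtype.ext (Fin.ext (hτ h1)))
  exact ⟨p, fun i hi => congrArg Fin.val (hp ⟨i, hi⟩)⟩

theorem exists_lift {τ : ℕ → ℕ} (hτ : Function.Injective τ) : ∃ g : Gp, Lift g τ := by
  choose g hg using lift_perm hτ
  refine ⟨g, fun s i hs => ?_⟩
  obtain ⟨N, hN⟩ := hs
  refine ⟨max N (τ i), fun n hn => ?_⟩
  have h1 := hN n ((le_max_left _ _).trans hn)
  have h2 : τ i ≤ n := (le_max_right _ _).trans hn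
  show ((g n (s n) : Fin (n + 2)) : ℕ) = τ i
  rw [hg n (s n) (by rw [h1]; omega), h1]

theorem Lift.inv {π : ℕ ≃ ℕ} {g : Gp} (h : Lift g π) : Lift g⁻¹ π.symm := by
  intro s i hs
  obtain ⟨s', hs'⟩ := exists_seq (π.symm i)
  obtain ⟨N1, hN1⟩ := h s' _ hs'
  obtain ⟨N2, hN2⟩ := hs
  obtain ⟨N3, hN3⟩ := hs'
  refine ⟨max N1 (max N2 N3), fun n hn => ?_⟩
  have h1 := hN1 n ((le_max_left _ _).trans hn)
  have h2 := hN2 n ((le_max_left _ _).trans ((le_max_right _ _).trans hn))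
  have h3 := hN3 n ((le_max_right _ _).trans ((le_max_right _ _).trans hn))
  rw [Equiv.apply_symm_apply] at h1
  have h4 : g n (s' n) = s n := Fin.ext (h1.trans h2.symm)
  have h5 : (g n)⁻¹ (s n) = s' n := by
    rw [← h4]; exact (g n).symm_apply_apply (s' n)
  show (((g n)⁻¹ (s n) : Fin (n + 2)) : ℕ) = π.symm i
  rw [h5, h3]

/-- The induced map on marks. -/
def mv {γ : Gp} {τ : ℕ → ℕ} (h : Lift γ τ) (j : Mk) : Mk :=
  (⟨act γ j.1.1, by obtain ⟨i, hi⟩ := j.1.2; exact ⟨τ i, h _ _ hi⟩⟩,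
    ⟨act γ j.2.1, by obtain ⟨i, hi⟩ := j.2.2; exact ⟨τ i, h _ _ hi⟩⟩)

theorem lm_mv {γ : Gp} {τ : ℕ → ℕ} (h : Lift γ τ) (j : Mk) :
    lm (mv h j).1 = τ (lm j.1) ∧ lm (mv h j).2 = τ (lm j.2) :=
  ⟨lm_eq (h _ _ (lm_spec j.1)), lm_eq (h _ _ (lm_spec j.2))⟩

theorem mv_mv {γ γ' : Gp} {τ τ' : ℕ → ℕ} (h : Lift γ τ) (h' : Lift γ' τ') (hγ : γ' * γ = 1)
    (j : Mk) : mv h' (mv h j) = j := by
  have h1 : ∀ s : Sq, act γ' (act γ s) = s := by
    intro s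
    funext n
    have h2 : γ' n * γ n = 1 := congrFun hγ n
    show γ' n (γ n (s n)) = s n
    rw [← Equiv.Perm.mul_apply, h2, Equiv.Perm.one_apply]
  exact Prod.ext (Subtype.ext (h1 _)) (Subtype.ext (h1 _))

theorem tp_mv {Γ Γ' : ℕ → ℕ → Bool} {γ : Gp} {τ : ℕ → ℕ} (h : Lift γ τ)
    (hτ : ∀ i j, i ≠ j → τ i ≠ τ j ∧ Γ (τ i) (τ j) = Γ' i j) (j : Mk) :
    tp Γ' j = tp Γ (mv h j) := by
  unfold tp
  rw [(lm_mv h j).1, (lm_mv h j).2]
  by_cases h1 : lm j.1 = lm j.2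
  · rw [if_pos h1, if_pos (by rw [h1])]
  · obtain ⟨h2, h3⟩ := hτ _ _ h1
    rw [if_neg h1, if_neg h2, h3]

end Pool.Agent.BCF
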