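import Pool.Agent.BCF.RigB

/-!
# No flips

PLAN. `exists_theta` with `ς = -1` and `theta_int` (for `Φ` and `ς = -1`; `Φ` is surjective) give an integer
`q₀` with `(Φ x).1.1 = -x.1.1 + q₀`. Let `c = cv t j`, `z = pt c`, positions `κ` from `exists_coc z k 1`, and
`x₁, x₀ : KS t` from `exists_pt` with `v m j' = b` if `m = 0 ∧ j' = j` and `false` otherwise, `b = true`,
resp. `false`. They differ exactly in the bit at `(0, j)` (a hit; the other bits agree by `bit_eq` or, at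
hits, by the choice of `v`). So `sk n x₁, sk n x₀` are asymptotic (`asy_of_ge`, `M = 1`) and so are
`Φ (sk n x₁) = sk (-n) (Φ x₁)` and `sk (-n) (Φ x₀)` (`Asy.map`). Let `y₁ = Φ x₁, y₀ = Φ x₀`, over
`-pt c + q₀`. As `c ≠ 0`, `-pt c + q₀ + m ≠ 0` for all `m` (`pt_neg, pt_int`), so the positions of `y₁` and
`y₀` have a constant quotient `h` (`quot_const`), and by `Asy.eq_discrete` for `x ↦ x.1.2.1 0 n₀` each
coordinate of `h` is `1`. So the positions agree, and the bits too: a hit `-pt c + q₀ + m = pt c'`,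
`c' = cv t' j' ≥ 1`, gives `pt (-c - c') = -(q₀ + m)`, so `c + c' = 0`, impossible as both are `≥ 1`. Hence
`y₁ = y₀`, `x₁ = x₀`, a contradiction.
-/

namespace Pool.Agent.BCF

open Set Filter Topology
open Pool.Agent.FlipC (Odo)

private theorem nf_bits {t : Par} {z : Odo} {κ : ℤ → Gp} {x x' : KS t}
    (hz : x.1.1 = z) (hκ : x.1.2.1 = κ) (hz' : x'.1.1 = z) (hκ' : x'.1.2.1 = κ)
    {v v' : ℤ → Mk → Bool} (hvv : ∀ m j', 1 ≤ m → v m j' = v' m j')
    (hv : ∀ (m : ℤ) (j' : Mk), t j' ≠ 0 → Hit (cv t j') j' (z + (m : Odo)) (κ m) →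
      x.1.2.2 m j' = v m j')
    (hv' : ∀ (m : ℤ) (j' : Mk), t j' ≠ 0 → Hit (cv t j') j' (z + (m : Odo)) (κ m) →
      x'.1.2.2 m j' = v' m j') (m : ℤ) (hm : 1 ≤ m) :
    x.1.2.2 m = x'.1.2.2 m := by
  funext j'
  by_cases ht : t j' = 0
  · exact bit_eq x.2 x'.2 rfl (by rw [hz, hz']) (by rw [hκ, hκ']) (fun h => absurd ht h)
  · by_cases hh : Hit (cv t j') j' (z + (m : Odo)) (κ m)
    · rw [hv m j' ht hh, hv' m j' ht hh, hvv m j' hm]
    · exact bit_eq x.2 x'.2 rfl (by rw [hz, hz']) (by rw [hκ, hκ']) (fun _ => by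
        rw [hz, hκ]
        exact hh)

private theorem nf_eq {t' : Par} {y y' : KS t'} {c q₀ : ℤ} (hc : 1 ≤ c)
    (hy : y.1.1 = -pt c + ((q₀ : ℤ) : Odo)) (hy' : y'.1.1 = -pt c + ((q₀ : ℤ) : Odo))
    (h : Asy (fun n : ℕ => sk (-(n : ℤ)) y) (fun n : ℕ => sk (-(n : ℤ)) y')) : y = y' := by
  have hz : y.1.1 = y'.1.1 := hy.trans hy'.symm
  have h0 : ∀ m : ℤ, y.1.1 + (m : Odo) ≠ 0 := by
    intro m hm
    have h1 : pt c = ((q₀ + m : ℤ) : Odo) := by
      rw [Int.cast_add]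
      rw [hy, add_assoc] at hm
      exact (neg_add_eq_zero.1 hm)
    have h2 := (pt_int h1).1
    omega
  have hq := quot_const y.2 y'.2 hz h0
  have hone : y'.1.2.1 0 * (y.1.2.1 0)⁻¹ = 1 := by
    funext n₀
    have hcont : Continuous (fun x : KS t' => x.1.2.1 0 n₀) := by fun_prop
    have h1 := (h.eq_discrete hcont).exists
    obtain ⟨n, hn⟩ := h1
    have hn' : y.1.2.1 (0 + -(n : ℤ)) n₀ = y'.1.2.1 (0 + -(n : ℤ)) n₀ := hn
    have h2 := congrFun (hq (0 + -(n : ℤ))) n₀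
    rw [← h2]
    show y'.1.2.1 (0 + -(n : ℤ)) n₀ * (y.1.2.1 (0 + -(n : ℤ)) n₀)⁻¹ = 1
    rw [hn', mul_inv_cancel]
  have hκ : ∀ m : ℤ, y.1.2.1 m = y'.1.2.1 m := by
    intro m
    have h1 := hq m
    rw [hone, mul_inv_eq_one] at h1
    exact h1.symm
  have hu : ∀ (m : ℤ) (j' : Mk), y.1.2.2 m j' = y'.1.2.2 m j' := by
    intro m j'
    refine bit_eq y.2 y'.2 rfl (by rw [hz]) (hκ m) fun ht hh => ?_
    have h1 := hh.1
    have h2 : pt (c + cv t' j') = ((q₀ + m : ℤ) : Odo) := by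
      rw [pt_add, ← h1, hy, Int.cast_add]
      abel
    have h3 := (pt_int h2).1
    have h4 := cv_nonneg t' j'
    omega
  refine Subtype.ext (Prod.ext hz (Prod.ext (funext hκ) (funext fun m => funext fun j' => hu m j')))

theorem no_flip {t t' : Par} (Φ : KS t ≃ₜ KS t')
    (hΦ : ∀ (q : ℤ) (x : KS t), Φ (sk q x) = sk (-q) (Φ x)) (k : Gp) (j : Mk) (hj : t j ≠ 0)
    (hk : ∀ n, Ag j k n) : False := by
  classical
  obtain ⟨θ, hθ⟩ := exists_theta (Φ := Φ) Φ.continuous (-1) (fun x => by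
    rw [hΦ 1 x]
    rfl)
  obtain ⟨q₀, hq₀⟩ := theta_int (Φ := Φ) Φ.continuous Φ.surjective (Or.inr rfl)
    (fun q x => by rw [hΦ q x, neg_one_mul]) hθ
  have hc : 1 ≤ cv t j := by
    have h1 := cv_nonneg t j
    have h2 : cv t j ≠ 0 := fun h => hj (cv_eq_zero.1 h)
    omega
  obtain ⟨κ, hκ0, hκ, -⟩ := exists_coc (pt (cv t j)) k 1
  obtain ⟨x, hx1, hx2, hx3⟩ := exists_pt t (pt (cv t j)) κ hκ
    (fun m j' => if m = 0 ∧ j' = j then true else false)
  obtain ⟨x', hx1', hx2', hx3'⟩ := exists_pt t (pt (cv t j)) κ hκ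
    (fun m j' => if m = 0 ∧ j' = j then false else false)
  have hasy := asy_of_ge (y := x) (y' := x') (by rw [hx1, hx1']) 1
    (fun m _ => by rw [hx2, hx2'])
    (fun m hm => nf_bits hx1 hx2 hx1' hx2' (fun m j' hm => by
      have h0 : ¬ (m = 0 ∧ j' = j) := fun h => by
        have := h.1
        omega
      rw [if_neg h0, if_neg h0]) hx3 hx3' m hm)
  have hasy2 : Asy (fun n : ℕ => sk (-(n : ℤ)) (Φ x)) (fun n : ℕ => sk (-(n : ℤ)) (Φ x')) := by
    have h1 := hasy.map Φ.continuous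
    simp only [hΦ] at h1
    exact h1
  have hy : ∀ w : KS t, w.1.1 = pt (cv t j) → (Φ w).1.1 = -pt (cv t j) + ((q₀ : ℤ) : Odo) := by
    intro w hw
    rw [hθ w, hw, hq₀, Int.cast_neg, Int.cast_one, neg_one_mul]
  have heq := nf_eq hc (hy x hx1) (hy x' hx1') hasy2
  have heq2 : x = x' := Φ.injective heq
  have hhit : Hit (cv t j) j (pt (cv t j) + ((0 : ℤ) : Odo)) (κ 0) := by
    refine ⟨by rw [Int.cast_zero, add_zero], fun n => ?_⟩
    rw [hκ0]
    exact hk n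
  have e1 := hx3 0 j hj hhit
  have e2 := hx3' 0 j hj hhit
  rw [heq2, e2] at e1
  simp at e1

end Pool.Agent.BCF
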