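import Pool.Agent.BCF.RigA

/-!
# The constant element of the group, and the cuts

PLAN.
* `const_g`: let `G x = (Φ x).1.2.1 0 * (x.1.2.1 0)⁻¹`, a continuous function `KS t → Gp` (coordinatewise;
  each coordinate is a function of two continuous maps to a discrete space). Let `a` be a point over
  `pt 3` (`exists_gen t 1`). For all `q`: `G (sk q a) = (Φ a).1.2.1 q * (a.1.2.1 q)⁻¹ = G a` by `quot_const`
  (`pt3_ne`, `hz`). By `dense_fwd a x` and continuity `G x = G a =: g` for all `x`. For time `m` apply this to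
  `sk m x`.
* `mark_transfer`: `z = pt (cv t' j')`, positions `κ` from `exists_coc z k 1`, points `y₁, y₀ : KS t'` from
  `exists_pt` with `v` constant `true`, resp. `false`; there is a hit at `(0, j')`, so `y₁ ≠ y₀`. Preimages
  `w₁ ≠ w₀` have the same first component `z` and the same positions `g⁻¹ * κ m`. So there are `m, j` with
  different bits, by `bit_eq` `t j ≠ 0` and `Hit (cv t j) j (z + m) (g⁻¹ * κ m)`. From `z + m = pt (cv t j)` and
  `pt_sub`, `pt_int`: `cv t j = cv t' j'` and `m = 0` (`cv_inj`; `κ 0 = k`).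
-/

namespace Pool.Agent.BCF

open Set Filter Topology
open Pool.Agent.FlipC (Odo)

theorem const_g {t t' : Par} {Φ : KS t → KS t'} (hc : Continuous Φ)
    (hΦ : ∀ (q : ℤ) (x : KS t), Φ (sk q x) = sk q (Φ x)) (hz : ∀ x : KS t, (Φ x).1.1 = x.1.1) :
    ∃ g : Gp, ∀ (x : KS t) (m : ℤ), (Φ x).1.2.1 m = g * x.1.2.1 m := by
  have hcont : Continuous fun x : KS t => (Φ x).1.2.1 0 * (x.1.2.1 0)⁻¹ := by
    have h1 : Continuous fun x : KS t => (Φ x).1.2.1 0 :=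
      (continuous_apply (0 : ℤ)).comp (continuous_subtype_val.comp hc).snd.fst
    have h2 : Continuous fun x : KS t => x.1.2.1 0 :=
      (continuous_apply (0 : ℤ)).comp (continuous_subtype_val (p := fun x => x ∈ XX t)).snd.fst
    refine continuous_pi fun n => ?_
    have h3 : Continuous fun x : KS t => (Φ x).1.2.1 0 n := (continuous_apply n).comp h1
    have h4 : Continuous fun x : KS t => x.1.2.1 0 n := (continuous_apply n).comp h2
    have h5 : Continuous fun q : Equiv.Perm (Fin (n + 2)) × Equiv.Perm (Fin (n + 2)) =>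
        q.1 * q.2⁻¹ := continuous_of_discreteTopology
    exact h5.comp (h3.prodMk h4)
  obtain ⟨a, ha, -⟩ := exists_gen t 1
  have hsk : ∀ (q : ℤ) (x : KS t), (Φ (sk q x)).1.2.1 0 * ((sk q x).1.2.1 0)⁻¹ =
      (Φ x).1.2.1 q * (x.1.2.1 q)⁻¹ := by
    intro q x
    rw [hΦ]
    show (Φ x).1.2.1 (0 + q) * (x.1.2.1 (0 + q))⁻¹ = _
    rw [zero_add]
  have hconst : ∀ q : ℤ, (Φ (sk q a)).1.2.1 0 * ((sk q a).1.2.1 0)⁻¹ =
      (Φ a).1.2.1 0 * (a.1.2.1 0)⁻¹ := by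
    intro q
    rw [hsk]
    refine quot_const a.2 (Φ a).2 (hz a).symm (fun m => ?_) q
    rw [ha]
    exact pt3_ne m
  have hall : ∀ x : KS t, (Φ x).1.2.1 0 * (x.1.2.1 0)⁻¹ = (Φ a).1.2.1 0 * (a.1.2.1 0)⁻¹ := by
    intro x
    obtain ⟨u, -, hu⟩ := dense_fwd a x
    have h1 := (hcont.tendsto x).comp hu
    have h2 : ((fun x : KS t => (Φ x).1.2.1 0 * (x.1.2.1 0)⁻¹) ∘ fun n => sk (u n : ℤ) a) =
        fun _ => (Φ a).1.2.1 0 * (a.1.2.1 0)⁻¹ := by
      funext n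
      exact hconst _
    rw [h2] at h1
    exact (tendsto_nhds_unique tendsto_const_nhds h1).symm
  refine ⟨(Φ a).1.2.1 0 * (a.1.2.1 0)⁻¹, fun x m => ?_⟩
  have h1 := hall (sk m x)
  rw [hsk] at h1
  rw [← h1, inv_mul_cancel_right]

theorem mark_transfer {t t' : Par} {Φ : KS t → KS t'} (hs : Function.Surjective Φ)
    (hz : ∀ x : KS t, (Φ x).1.1 = x.1.1) {g : Gp}
    (hg : ∀ (x : KS t) (m : ℤ), (Φ x).1.2.1 m = g * x.1.2.1 m) (k : Gp) (j' : Mk) (hj' : t' j' ≠ 0)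
    (hk : ∀ n, Ag j' k n) : ∃ j : Mk, t j = t' j' ∧ ∀ n, Ag j (g⁻¹ * k) n := by
  obtain ⟨κ, hκ0, hκ, -⟩ := exists_coc (pt (cv t' j')) k 1
  obtain ⟨y₁, h11, h12, h13⟩ := exists_pt t' (pt (cv t' j')) κ hκ (fun _ _ => true)
  obtain ⟨y₀, h01, h02, h03⟩ := exists_pt t' (pt (cv t' j')) κ hκ (fun _ _ => false)
  have hhit : Hit (cv t' j') j' (pt (cv t' j') + ((0 : ℤ) : Odo)) (κ 0) := by
    refine ⟨?_, ?_⟩
    · rw [Int.cast_zero, add_zero]
    · rw [hκ0]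
      exact hk
  have hne : y₁ ≠ y₀ := by
    intro h
    have h1 := h13 0 j' hj' hhit
    have h2 := h03 0 j' hj' hhit
    rw [h, h2] at h1
    exact Bool.false_ne_true h1
  obtain ⟨w₁, hw₁⟩ := hs y₁
  obtain ⟨w₀, hw₀⟩ := hs y₀
  have hw : w₁ ≠ w₀ := by
    intro h
    apply hne
    rw [← hw₁, ← hw₀, h]
  have hz1 : w₁.1.1 = pt (cv t' j') := by rw [← hz, hw₁, h11]
  have hz0 : w₀.1.1 = pt (cv t' j') := by rw [← hz, hw₀, h01]
  have hk1 : ∀ m, w₁.1.2.1 m = g⁻¹ * κ m := by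
    intro m
    have h1 := hg w₁ m
    rw [hw₁, h12] at h1
    rw [h1, inv_mul_cancel_left]
  have hk0 : ∀ m, w₀.1.2.1 m = g⁻¹ * κ m := by
    intro m
    have h1 := hg w₀ m
    rw [hw₀, h02] at h1
    rw [h1, inv_mul_cancel_left]
  obtain ⟨m, j, hmj⟩ : ∃ m j, w₁.1.2.2 m j ≠ w₀.1.2.2 m j := by
    by_contra hcon
    push Not at hcon
    apply hw
    apply Subtype.ext
    have e1 : w₁.1.1 = w₀.1.1 := hz1.trans hz0.symm
    have e2 : w₁.1.2.1 = w₀.1.2.1 := by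
      funext m
      rw [hk1, hk0]
    have e3 : w₁.1.2.2 = w₀.1.2.2 := by
      funext m j
      exact hcon m j
    exact Prod.ext e1 (Prod.ext e2 e3)
  have hH : t j ≠ 0 ∧ Hit (cv t j) j (w₁.1.1 + (m : Odo)) (w₁.1.2.1 m) := by
    by_contra hcon
    apply hmj
    refine bit_eq w₁.2 w₀.2 rfl ?_ ?_ ?_
    · rw [hz1, hz0]
    · rw [hk1, hk0]
    · intro h1 h2
      exact hcon ⟨h1, h2⟩
  obtain ⟨-, hH1, hH2⟩ := hH
  rw [hz1] at hH1
  have h5 : pt (cv t j - cv t' j') = ((m : ℤ) : Odo) := by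
    rw [pt_sub, ← hH1]
    abel
  obtain ⟨h6, h7⟩ := pt_int h5
  refine ⟨j, cv_inj (by omega), fun n => ?_⟩
  have h8 := hH2 n
  rw [hk1, h7, hκ0] at h8
  exact h8

end Pool.Agent.BCF
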