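import Pool.Agent.BCF.NullM
import Pool.Agent.BCF.NoFlip
import Pool.Agent.BCF.RigC
import Pool.Agent.FlipD.Final

/-!
# Borel completeness of conjugacy and flip conjugacy
-/

namespace Pool.Agent.BCF

open Set Filter Topology MeasureTheory
open Pool.Agent.FlipC (Odo Cantor MinHomeo Conj Factor)
open Pool.Agent.FlipD (Maps FlipConj BorelPairs FlipPairs)

theorem continuous_tp : Continuous tp := by
  refine continuous_pi fun j => ?_
  by_cases h : lm j.1 = lm j.2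
  · have : (fun Γ : ℕ → ℕ → Bool => tp Γ j) = fun _ => 0 := by
      funext Γ
      simp [tp, h]
    rw [this]
    exact continuous_const
  · have : (fun Γ : ℕ → ℕ → Bool => tp Γ j) =
        (fun b : Bool => if b = true then (1 : Fin 3) else 2) ∘
          fun Γ : ℕ → ℕ → Bool => Γ (lm j.1) (lm j.2) := by
      funext Γ
      simp [tp, h]
    rw [this]
    exact continuous_of_discreteTopology.comp
      ((continuous_apply (lm j.2)).comp (continuous_apply (lm j.1)))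

theorem sk_nat {t t' : Par} {Φ : KS t → KS t'} {ς : ℤ} (h : ∀ x : KS t, Φ (sk 1 x) = sk ς (Φ x)) :
    ∀ (q : ℤ) (x : KS t), Φ (sk q x) = sk (ς * q) (Φ x) := by
  intro q
  induction q using Int.induction_on with
  | zero => intro x; rw [mul_zero, sk_zero, sk_zero]
  | succ q ih =>
    intro x
    have h1 : sk ((q : ℤ) + 1) x = sk (q : ℤ) (sk 1 x) := by rw [sk_sk]
    rw [h1, ih, h, sk_sk]
    congr 1
    ring
  | pred q ih =>
    intro x
    have h0 : Φ (sk (-1) x) = sk (-ς) (Φ x) := by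
      have h2 := h (sk (-1) x)
      rw [sk_sk, add_neg_cancel, sk_zero] at h2
      rw [h2, sk_sk, neg_add_cancel, sk_zero]
    have h1 : sk (-(q : ℤ) - 1) x = sk (-(q : ℤ)) (sk (-1) x) := by
      rw [sk_sk]; congr 1
    rw [h1, ih, h0, sk_sk]
    congr 1
    ring

/-- A factor map gives the inclusion of the cuts. -/
theorem marks_of_factor {t t' : Par} {Φ : KS t → KS t'} (hc : Continuous Φ)
    (hs : Function.Surjective Φ) (hΦ : ∀ x : KS t, Φ (sk 1 x) = sk 1 (Φ x)) :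
    ∃ (q : ℤ) (g : Gp), (∀ x : KS t, (Φ x).1.1 = x.1.1 + (q : Odo)) ∧
      (∀ (x : KS t) (m : ℤ), (Φ x).1.2.1 (m - q) = g * x.1.2.1 m) ∧
      ∀ (k : Gp) (j' : Mk), t' j' ≠ 0 → (∀ n, Ag j' k n) →
        ∃ j : Mk, t j = t' j' ∧ ∀ n, Ag j (g⁻¹ * k) n := by
  have hq := sk_nat hΦ
  obtain ⟨θ, hθ⟩ := exists_theta hc 1 (fun x => by rw [hΦ]; rfl)
  obtain ⟨q, hq'⟩ := theta_int hc hs (Or.inl rfl) hq hθ
  have hz : ∀ x : KS t, (Φ x).1.1 = x.1.1 + (q : Odo) := by
    intro x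
    rw [hθ x, hq', Int.cast_one, one_mul]
  let Φ' : KS t → KS t' := fun x => sk (-q) (Φ x)
  have hc' : Continuous Φ' := (continuous_sk (-q)).comp hc
  have hs' : Function.Surjective Φ' := by
    intro y
    obtain ⟨x, hx⟩ := hs (sk q y)
    refine ⟨x, ?_⟩
    change sk (-q) (Φ x) = y
    rw [hx, sk_sk, neg_add_cancel, sk_zero]
  have hΦ' : ∀ (p : ℤ) (x : KS t), Φ' (sk p x) = sk p (Φ' x) := by
    intro p x
    change sk (-q) (Φ (sk p x)) = sk p (sk (-q) (Φ x))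
    rw [hq, one_mul, sk_sk, sk_sk, add_comm]
  have hz' : ∀ x : KS t, (Φ' x).1.1 = x.1.1 := by
    intro x
    change (Φ x).1.1 + ((-q : ℤ) : Odo) = x.1.1
    rw [hz x, Int.cast_neg, add_neg_cancel_right]
  obtain ⟨g, hg⟩ := const_g hc' hΦ' hz'
  refine ⟨q, g, hz, fun x m => ?_, mark_transfer hs' hz' hg⟩
  have h1 : (Φ' x).1.2.1 m = (Φ x).1.2.1 (m + -q) := rfl
  rw [sub_eq_add_neg, ← h1, hg]

theorem code_iff {G : SimpleGraph ℕ} {i j : ℕ} : code G i j = true ↔ G.Adj i j := by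
  simp [code]

section

variable {F : C(Par, C(Cantor, Cantor))} {Ψ : ∀ t : Par, KS t ≃ₜ Cantor}
  (hF : ∀ t z, F t (Ψ t z) = Ψ t (sk 1 z))

include hF

theorem conj_iso {G H : SimpleGraph ℕ} (h : Conj (F (tp (code G))) (F (tp (code H)))) :
    Nonempty (G ≃g H) := by
  obtain ⟨e, he⟩ := h
  set t := tp (code G) with ht
  set t' := tp (code H) with ht'
  let Φ : KS t ≃ₜ KS t' := ((Ψ t).trans e).trans (Ψ t').symm
  have hΦ : ∀ x : KS t, Φ (sk 1 x) = sk 1 (Φ x) := by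
    intro x
    change (Ψ t').symm (e (Ψ t (sk 1 x))) = sk 1 ((Ψ t').symm (e (Ψ t x)))
    rw [← hF, he, fam_symm hF]
  have hΦ' : ∀ y : KS t', Φ.symm (sk 1 y) = sk 1 (Φ.symm y) := by
    intro y
    apply Φ.injective
    rw [Φ.apply_symm_apply, hΦ, Φ.apply_symm_apply]
  obtain ⟨q, g, h1, h2, h3⟩ := marks_of_factor Φ.continuous Φ.surjective hΦ
  obtain ⟨q', g', h1', h2', h3'⟩ := marks_of_factor Φ.symm.continuous Φ.symm.surjective hΦ'
  obtain ⟨x, -, -⟩ := exists_gen t 1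
  have hqq : q' = -q := by
    have e1 := h1' (Φ x)
    rw [Φ.symm_apply_apply, h1 x] at e1
    have e2 : ((0 : ℤ) : Odo) = ((q + q' : ℤ) : Odo) := by
      have e3 : x.1.1 + 0 = x.1.1 + ((q : Odo) + (q' : Odo)) := by
        rw [add_zero, ← add_assoc]; exact e1
      have e4 := add_left_cancel e3
      rw [Int.cast_zero, Int.cast_add]
      exact e4
    have := odo_int_inj e2
    omega
  have hgg : g' = g⁻¹ := by
    have e1 := h2' (Φ x) 0
    rw [Φ.symm_apply_apply] at e1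
    have e2 := h2 x (0 + q)
    rw [add_sub_cancel_right] at e2
    rw [e2, hqq] at e1
    have e3 : (0 : ℤ) - -q = 0 + q := by ring
    rw [e3, ← mul_assoc] at e1
    exact eq_inv_of_mul_eq_one_left (mul_eq_right.1 e1.symm)
  rw [hgg] at h3'
  obtain ⟨π, hπ⟩ := iso_of_marks h3 h3'
  refine ⟨⟨π, ?_⟩⟩
  intro i j
  by_cases hij : i = j
  · subst hij
    simp
  · rw [← code_iff (G := H), ← code_iff (G := G), hπ i j hij]

theorem iso_conj {G H : SimpleGraph ℕ} (h : Nonempty (G ≃g H)) :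
    Conj (F (tp (code G))) (F (tp (code H))) := by
  obtain ⟨π⟩ := h
  obtain ⟨Φ, hΦ⟩ := iso_sys (Γ := code G) (Γ' := code H) π.toEquiv (fun i j _ => by
    rw [Bool.eq_iff_iff, code_iff, code_iff]
    exact π.map_rel_iff)
  refine ⟨((Ψ _).symm.trans Φ).trans (Ψ _), fun x => ?_⟩
  change Ψ _ (Φ ((Ψ _).symm (F _ x))) = F _ (Ψ _ (Φ ((Ψ _).symm x)))
  rw [fam_symm hF, hΦ, hF]

theorem flip_iso {G H : SimpleGraph ℕ} (h : FlipConj (F (tp (code G))) (F (tp (code H)))) :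
    Nonempty (G ≃g H) := by
  rcases h with h | ⟨e, he⟩
  · exact conj_iso hF h
  · exfalso
    set t := tp (code G) with ht
    set t' := tp (code H) with ht'
    let Φ : KS t ≃ₜ KS t' := ((Ψ t).trans e).trans (Ψ t').symm
    have hΦ0 : ∀ x : KS t, sk 1 (Φ (sk 1 x)) = Φ x := by
      intro x
      change sk 1 ((Ψ t').symm (e (Ψ t (sk 1 x)))) = (Ψ t').symm (e (Ψ t x))
      rw [← hF, ← fam_symm hF, he]
    have hΦ : ∀ x : KS t, Φ (sk 1 x) = sk (-1) (Φ x) := by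
      intro x
      rw [← hΦ0 x, sk_sk, neg_add_cancel, sk_zero]
    have hq : ∀ (q : ℤ) (x : KS t), Φ (sk q x) = sk (-q) (Φ x) := by
      intro q x
      have := sk_nat hΦ q x
      rw [neg_one_mul] at this
      exact this
    obtain ⟨k, j, h1, h2, h3⟩ := exists_mark (i := 0) (j := 1) (by decide)
    refine no_flip Φ hq k j ?_ h1
    rw [ht, tp_ne_zero, h2, h3]
    decide

theorem factor_emb {G H : SimpleGraph ℕ} (h : Factor (F (tp (code G))) (F (tp (code H)))) :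
    Nonempty (H ↪g G) := by
  obtain ⟨φ, hs, hφ⟩ := h
  set t := tp (code G) with ht
  set t' := tp (code H) with ht'
  let Φ : KS t → KS t' := fun x => (Ψ t').symm (φ (Ψ t x))
  have hc : Continuous Φ := (Ψ t').symm.continuous.comp (φ.continuous.comp (Ψ t).continuous)
  have hs' : Function.Surjective Φ :=
    (Ψ t').symm.surjective.comp (hs.comp (Ψ t).surjective)
  have hΦ : ∀ x : KS t, Φ (sk 1 x) = sk 1 (Φ x) := by
    intro x
    change (Ψ t').symm (φ (Ψ t (sk 1 x))) = sk 1 ((Ψ t').symm (φ (Ψ t x)))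
    rw [← hF, hφ, fam_symm hF]
  obtain ⟨q, g, h1, h2, h3⟩ := marks_of_factor hc hs' hΦ
  obtain ⟨τ, -, hτ⟩ := emb_of_marks h3
  refine ⟨⟨⟨τ, fun i j hij => ?_⟩, ?_⟩⟩
  · by_contra hne
    exact (hτ i j hne).1 hij
  · intro i j
    by_cases hij : i = j
    · subst hij
      simp
    · change G.Adj (τ i) (τ j) ↔ H.Adj i j
      rw [← code_iff (G := H), ← code_iff (G := G), (hτ i j hij).2]

theorem emb_factor {G H : SimpleGraph ℕ} (h : Nonempty (H ↪g G)) :
    Factor (F (tp (code G))) (F (tp (code H))) := by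
  obtain ⟨e⟩ := h
  obtain ⟨Φ, hc, hs, hΦ⟩ := factor_sys (Γ := code G) (Γ' := code H) (τ := e)
    (fun i j hij => ⟨fun h => hij (e.injective h), by
      rw [Bool.eq_iff_iff, code_iff, code_iff]
      exact e.map_rel_iff⟩)
  refine ⟨⟨fun x => Ψ _ (Φ ((Ψ _).symm x)), ?_⟩, ?_, fun x => ?_⟩
  · exact (Ψ _).continuous.comp (hc.comp (Ψ _).symm.continuous)
  · exact (Ψ _).surjective.comp (hs.comp (Ψ _).symm.surjective)
  · change Ψ _ (Φ ((Ψ _).symm (F _ x))) = F _ (Ψ _ (Φ ((Ψ _).symm x)))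
    rw [fam_symm hF, hΦ, hF]

end

theorem main : ∃ (F : C(ℕ → ℕ → Bool, Maps)) (B : Maps), MinHomeo B ∧
    (∀ Γ, MinHomeo (F Γ) ∧ RegExtOf B (F Γ)) ∧
    ∀ G H : SimpleGraph ℕ,
      (Conj (F (code G)) (F (code H)) ↔ Nonempty (G ≃g H)) ∧
      (FlipConj (F (code G)) (F (code H)) ↔ Nonempty (G ≃g H)) ∧
      (Factor (F (code G)) (F (code H)) ↔ Nonempty (H ↪g G)) := by
  obtain ⟨F, Ψ, hF⟩ := exists_family
  refine ⟨F.comp ⟨tp, continuous_tp⟩, F 0, fam_min hF 0, fun Γ => ⟨fam_min hF _, fam_regExt hF _⟩,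
    fun G H => ⟨⟨fun h => conj_iso hF h, fun h => iso_conj hF h⟩,
      ⟨fun h => flip_iso hF h, fun h => Or.inl (iso_conj hF h)⟩,
      ⟨fun h => factor_emb hF h, fun h => emb_factor hF h⟩⟩⟩

end Pool.Agent.BCF
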