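import Pool.Agent.BCF.Top
import Pool.Agent.BCF.Both
import Pool.Agent.BCF.LiftM

/-!
# Maps between the systems

PLAN. `exists_map`: `Φ (z, k, u) = (z, fun m => γ⁻¹ * k m, fun m j' => u m (f j'))`. It is in `XX t'`:
the cocycle condition is multiplied by `γ⁻¹` on the left; `Ag j' (γ⁻¹ * k) n ↔ Ag (f j') k n` by `hf`, so
`FM c j' x (γ⁻¹ * k) w ↔ FM c (f j') x k w`, and `t' j' = t (f j')` (`cv` too).
`exists_iso`: the maps for `(γ, f)` and `(γ⁻¹, f')` are inverse to each other.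
`surj_of_equiv`: the image of a continuous equivariant map between the systems is closed (compact) and
contains an orbit, hence everything by `dense_fwd`.
`exists_proj`: `(z, k, u) ↦ (z, k, false)` to the system of the parameter `0`.
-/

namespace Pool.Agent.BCF

open Set Filter Topology

private theorem ag_iff {γ k : Gp} {f : Mk → Mk}
    (hf : ∀ (j' : Mk) (n : ℕ), (f j').1.1 n = γ n (j'.1.1 n) ∧ (f j').2.1 n = γ n (j'.2.1 n))
    (j' : Mk) (n : ℕ) : Ag j' (γ⁻¹ * k) n ↔ Ag (f j') k n := by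
  have h0 : (γ⁻¹ * k) n 0 = (γ n)⁻¹ (k n 0) := rfl
  have h1 : (γ⁻¹ * k) n 1 = (γ n)⁻¹ (k n 1) := rfl
  unfold Ag
  rw [h0, h1, (hf j' n).1, (hf j' n).2, Equiv.Perm.inv_eq_iff_eq, Equiv.Perm.inv_eq_iff_eq]

private theorem fm_iff {γ k : Gp} {f : Mk → Mk}
    (hf : ∀ (j' : Mk) (n : ℕ), (f j').1.1 n = γ n (j'.1.1 n) ∧ (f j').2.1 n = γ n (j'.2.1 n))
    (c : ℤ) (j' : Mk) (x : Pool.Agent.FlipC.Odo) (w : ℕ) :
    FM c j' x (γ⁻¹ * k) w ↔ FM c (f j') x k w := by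
  unfold FM
  simp only [ag_iff hf]

private theorem psi_mem {t t' : Par} {γ : Gp} {f : Mk → Mk}
    (hf : ∀ (j' : Mk) (n : ℕ), (f j').1.1 n = γ n (j'.1.1 n) ∧ (f j').2.1 n = γ n (j'.2.1 n))
    (ht : ∀ j', t' j' = t (f j')) {x : Om} (hx : x ∈ XX t) :
    ((x.1, (fun m => γ⁻¹ * x.2.1 m), fun m j' => x.2.2 m (f j')) : Om) ∈ XX t' := by
  refine ⟨fun m w h => ?_, fun m j' => ⟨fun h => ?_, fun h w hw => ?_⟩⟩
  · show γ⁻¹ * x.2.1 (m + 1) = γ⁻¹ * x.2.1 m * kp w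
    rw [hx.1 m w h, mul_assoc]
  · exact (hx.2 m (f j')).1 (by rw [← ht]; exact h)
  · have hc : cv t' j' = cv t (f j') := by
      unfold cv
      rw [ht]
    refine (hx.2 m (f j')).2 (by rw [← ht]; exact h) w ?_
    rw [← hc]
    exact (fm_iff hf _ _ _ _).1 hw

theorem exists_map {t t' : Par} {γ : Gp} {f : Mk → Mk}
    (hf : ∀ (j' : Mk) (n : ℕ), (f j').1.1 n = γ n (j'.1.1 n) ∧ (f j').2.1 n = γ n (j'.2.1 n))
    (ht : ∀ j', t' j' = t (f j')) :
    ∃ Φ : KS t → KS t', Continuous Φ ∧ (∀ (q : ℤ) (x : KS t), Φ (sk q x) = sk q (Φ x)) ∧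
      ∀ x : KS t, (Φ x).1 = (x.1.1, (fun m => γ⁻¹ * x.1.2.1 m), fun m j' => x.1.2.2 m (f j')) := by
  refine ⟨fun x => ⟨(x.1.1, (fun m => γ⁻¹ * x.1.2.1 m), fun m j' => x.1.2.2 m (f j')),
    psi_mem hf ht x.2⟩, ?_, fun q x => Subtype.ext rfl, fun x => rfl⟩
  refine Continuous.subtype_mk ?_ _
  refine (continuous_fst.comp continuous_subtype_val).prodMk (Continuous.prodMk ?_ ?_)
  · refine continuous_pi fun m => continuous_pi fun n => ?_
    have h1 : Continuous fun x : KS t => x.1.2.1 m n :=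
      (continuous_apply n).comp ((continuous_apply m).comp
        ((continuous_fst.comp continuous_snd).comp continuous_subtype_val))
    have h2 : Continuous fun p : Equiv.Perm (Fin (n + 2)) => (γ n)⁻¹ * p :=
      continuous_of_discreteTopology
    exact h2.comp h1
  · refine continuous_pi fun m => continuous_pi fun j' => ?_
    exact (continuous_apply (f j')).comp ((continuous_apply m).comp
        ((continuous_snd.comp continuous_snd).comp continuous_subtype_val))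

theorem exists_iso {t t' : Par} {γ : Gp} {f f' : Mk → Mk}
    (hf : ∀ (j' : Mk) (n : ℕ), (f j').1.1 n = γ n (j'.1.1 n) ∧ (f j').2.1 n = γ n (j'.2.1 n))
    (ht : ∀ j', t' j' = t (f j')) (h1 : ∀ j, f' (f j) = j) (h2 : ∀ j, f (f' j) = j) :
    ∃ Φ : KS t ≃ₜ KS t', ∀ (q : ℤ) (x : KS t), Φ (sk q x) = sk q (Φ x) := by
  have hf' : ∀ (j : Mk) (n : ℕ), (f' j).1.1 n = (γ⁻¹) n (j.1.1 n) ∧
      (f' j).2.1 n = (γ⁻¹) n (j.2.1 n) := by
    intro j n
    have ha := hf (f' j) n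
    rw [h2] at ha
    refine ⟨?_, ?_⟩
    · show (f' j).1.1 n = (γ n)⁻¹ (j.1.1 n)
      rw [ha.1]
      exact (Equiv.symm_apply_apply (γ n) _).symm
    · show (f' j).2.1 n = (γ n)⁻¹ (j.2.1 n)
      rw [ha.2]
      exact (Equiv.symm_apply_apply (γ n) _).symm
  have ht' : ∀ j, t j = t' (f' j) := fun j => by rw [ht, h2]
  obtain ⟨Φ, hc, he, hv⟩ := exists_map hf ht
  obtain ⟨Φ', hc', -, hv'⟩ := exists_map hf' ht'
  refine ⟨{ toFun := Φ
            invFun := Φ'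
            left_inv := fun x => ?_
            right_inv := fun y => ?_
            continuous_toFun := hc
            continuous_invFun := hc' }, he⟩
  · refine Subtype.ext ?_
    rw [hv', hv]
    refine Prod.ext rfl (Prod.ext ?_ ?_)
    · funext m
      show γ⁻¹⁻¹ * (γ⁻¹ * x.1.2.1 m) = x.1.2.1 m
      rw [← mul_assoc, inv_mul_cancel, one_mul]
    · funext m j
      show x.1.2.2 m (f (f' j)) = x.1.2.2 m j
      rw [h2]
  · refine Subtype.ext ?_
    rw [hv, hv']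
    refine Prod.ext rfl (Prod.ext ?_ ?_)
    · funext m
      show γ⁻¹ * (γ⁻¹⁻¹ * y.1.2.1 m) = y.1.2.1 m
      rw [← mul_assoc, mul_inv_cancel, one_mul]
    · funext m j
      show y.1.2.2 m (f' (f j)) = y.1.2.2 m j
      rw [h1]

theorem surj_of_equiv {t t' : Par} {Φ : KS t → KS t'} (hc : Continuous Φ)
    (hΦ : ∀ (q : ℤ) (x : KS t), Φ (sk q x) = sk q (Φ x)) : Function.Surjective Φ := by
  intro y
  obtain ⟨x, -, -, -⟩ := exists_pt t y.1.1 y.1.2.1 y.2.1 (fun _ _ => false)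
  obtain ⟨u, -, hu⟩ := dense_fwd (Φ x) y
  have hcl : IsClosed (Set.range Φ) := (isCompact_range hc).isClosed
  have hm : y ∈ Set.range Φ :=
    hcl.mem_of_tendsto hu (Filter.Eventually.of_forall fun n => ⟨sk (u n : ℤ) x, hΦ _ _⟩)
  exact hm

theorem exists_proj (t : Par) :
    ∃ Φ : KS t → KS 0, Continuous Φ ∧ (∀ (q : ℤ) (x : KS t), Φ (sk q x) = sk q (Φ x)) ∧
      ∀ x : KS t, (Φ x).1 = (x.1.1, x.1.2.1, fun _ _ => false) := by
  refine ⟨fun x => ⟨(x.1.1, x.1.2.1, fun _ _ => false),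
    ⟨x.2.1, fun m j => ⟨fun _ => rfl, fun h => absurd rfl h⟩⟩⟩, ?_,
    fun q x => Subtype.ext rfl, fun x => rfl⟩
  refine Continuous.subtype_mk ?_ _
  exact (continuous_fst.comp continuous_subtype_val).prodMk
    (((continuous_fst.comp continuous_snd).comp continuous_subtype_val).prodMk continuous_const)

/-- The system of an isomorphic digraph is isomorphic. -/
theorem iso_sys {Γ Γ' : ℕ → ℕ → Bool} (π : ℕ ≃ ℕ) (hπ : ∀ i j, i ≠ j → Γ' (π i) (π j) = Γ i j) :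
    ∃ Φ : KS (tp Γ) ≃ₜ KS (tp Γ'), ∀ (q : ℤ) (x : KS (tp Γ)), Φ (sk q x) = sk q (Φ x) := by
  obtain ⟨γ, h⟩ := exists_lift π.symm.injective
  have h' : Lift γ⁻¹ π.symm.symm := Lift.inv h
  have hτ : ∀ i j, i ≠ j → π.symm i ≠ π.symm j ∧ Γ (π.symm i) (π.symm j) = Γ' i j := by
    intro i j hij
    have hn : π.symm i ≠ π.symm j := fun e => hij (π.symm.injective e)
    refine ⟨hn, ?_⟩
    have := hπ _ _ hn
    rw [Equiv.apply_symm_apply, Equiv.apply_symm_apply] at this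
    exact this.symm
  exact exists_iso (γ := γ) (f := mv h) (f' := mv h') (fun j' n => ⟨rfl, rfl⟩)
    (fun j' => tp_mv h hτ j') (fun j => mv_mv h h' (inv_mul_cancel γ) j)
    (fun j => mv_mv h' h (mul_inv_cancel γ) j)

/-- The system of an induced subgraph is a factor. -/
theorem factor_sys {Γ Γ' : ℕ → ℕ → Bool} {τ : ℕ → ℕ}
    (hτ : ∀ i j, i ≠ j → τ i ≠ τ j ∧ Γ (τ i) (τ j) = Γ' i j) :
    ∃ Φ : KS (tp Γ) → KS (tp Γ'), Continuous Φ ∧ Function.Surjective Φ ∧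
      ∀ (q : ℤ) (x : KS (tp Γ)), Φ (sk q x) = sk q (Φ x) := by
  have hi : Function.Injective τ := by
    intro i j e
    by_contra hij
    exact (hτ i j hij).1 e
  obtain ⟨γ, h⟩ := exists_lift hi
  obtain ⟨Φ, hc, he, -⟩ := exists_map (γ := γ) (f := mv h) (t := tp Γ) (t' := tp Γ')
    (fun j' n => ⟨rfl, rfl⟩) (fun j' => tp_mv h hτ j')
  exact ⟨Φ, hc, surj_of_equiv hc he, he⟩

end Pool.Agent.BCF
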