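import Pool.Agent.BCF.Both
import Pool.Agent.BCF.Asy

/-!
# A factor map covers a translation; special pairs of points

`exists_theta`: the difference of the first components is continuous and invariant, hence constant. `exists_pair`: two points over `0` with the
same past and different futures. Over `pt 3` there are no cuts.
-/

namespace Pool.Agent.BCF

open Set Filter Topology
open Pool.Agent.FlipC (Odo)

theorem exists_theta {t t' : Par} {Φ : KS t → KS t'} (hc : Continuous Φ) (ς : ℤ)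
    (hΦ : ∀ x : KS t, (Φ (sk 1 x)).1.1 = (Φ x).1.1 + ((ς : ℤ) : Odo)) :
    ∃ θ : Odo, ∀ x : KS t, (Φ x).1.1 = ((ς : ℤ) : Odo) * x.1.1 + θ := by
  let d : KS t → Odo := fun z => (Φ z).1.1 - ((ς : ℤ) : Odo) * z.1.1
  have hd1 : ∀ z, d (sk 1 z) = d z := by
    intro z
    have h2 : (sk 1 z).1.1 = z.1.1 + 1 := by
      change z.1.1 + (((1 : ℤ) : ℤ) : Odo) = z.1.1 + 1
      rw [Int.cast_one]
    simp only [d]
    rw [hΦ, h2]
    ring
  have hdk : ∀ (k : ℕ) z, d (sk k z) = d z := by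
    intro k
    induction k with
    | zero => intro z; rw [Nat.cast_zero, sk_zero]
    | succ k ih =>
      intro z
      have : sk ((k + 1 : ℕ) : ℤ) z = sk 1 (sk k z) := by
        rw [sk_sk]; congr 1; push_cast; ring
      rw [this, hd1, ih]
  have hdc : Continuous d := by
    refine Continuous.sub ?_ ?_
    · exact continuous_fst.comp (continuous_subtype_val.comp hc)
    · exact continuous_const.mul (continuous_fst.comp continuous_subtype_val)
  have hconst : ∀ z z', d z' = d z := by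
    intro z z'
    obtain ⟨u, -, hu⟩ := dense_fwd z z'
    have h1 : Tendsto (fun n => d (sk (u n : ℤ) z)) atTop (𝓝 (d z')) :=
      (hdc.tendsto z').comp hu
    have h2 : (fun n => d (sk (u n : ℤ) z)) = fun _ => d z := by
      funext n; exact hdk _ z
    rw [h2] at h1
    exact tendsto_nhds_unique h1 tendsto_const_nhds
  by_cases hne : Nonempty (KS t)
  · obtain ⟨z0⟩ := hne
    refine ⟨d z0, fun z => ?_⟩
    have h1 : d z = d z0 := hconst z0 z
    have h2 : d z = (Φ z).1.1 - ((ς : ℤ) : Odo) * z.1.1 := rfl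
    rw [← h1, h2]
    ring
  · exact ⟨0, fun z => absurd ⟨z⟩ hne⟩

theorem asy_of_ge {t : Par} {y y' : KS t} (hz : y.1.1 = y'.1.1) (M : ℤ)
    (hk : ∀ m : ℤ, M ≤ m → y.1.2.1 m = y'.1.2.1 m) (hu : ∀ m : ℤ, M ≤ m → y.1.2.2 m = y'.1.2.2 m) :
    Asy (fun n : ℕ => sk (n : ℤ) y) (fun n : ℕ => sk (n : ℤ) y') := by
  have hev : ∀ m : ℤ, ∀ᶠ n : ℕ in atTop, M ≤ m + (n : ℤ) := by
    intro m
    filter_upwards [eventually_ge_atTop (M - m).toNat] with n hn
    omega
  refine asy_of_coord (fun n0 => ?_) (fun m n0 => ?_) (fun m j => ?_)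
  · refine Eventually.of_forall fun n => ?_
    change (y.1.1 + (((n : ℕ) : ℤ) : Odo)) n0 = (y'.1.1 + (((n : ℕ) : ℤ) : Odo)) n0
    rw [hz]
  · filter_upwards [hev m] with n hn
    change y.1.2.1 (m + (n : ℤ)) n0 = y'.1.2.1 (m + (n : ℤ)) n0
    rw [hk _ hn]
  · filter_upwards [hev m] with n hn
    change y.1.2.2 (m + (n : ℤ)) j = y'.1.2.2 (m + (n : ℤ)) j
    rw [hu _ hn]

theorem asy_of_le {t : Par} {y y' : KS t} (hz : y.1.1 = y'.1.1) (M : ℤ)
    (hk : ∀ m : ℤ, m ≤ M → y.1.2.1 m = y'.1.2.1 m) (hu : ∀ m : ℤ, m ≤ M → y.1.2.2 m = y'.1.2.2 m) :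
    Asy (fun n : ℕ => sk (-(n : ℤ)) y) (fun n : ℕ => sk (-(n : ℤ)) y') := by
  have hev : ∀ m : ℤ, ∀ᶠ n : ℕ in atTop, m + -(n : ℤ) ≤ M := by
    intro m
    filter_upwards [eventually_ge_atTop (m - M).toNat] with n hn
    omega
  refine asy_of_coord (fun n0 => ?_) (fun m n0 => ?_) (fun m j => ?_)
  · refine Eventually.of_forall fun n => ?_
    change (y.1.1 + ((-((n : ℕ) : ℤ) : ℤ) : Odo)) n0 = (y'.1.1 + ((-((n : ℕ) : ℤ) : ℤ) : Odo)) n0
    rw [hz]
  · filter_upwards [hev m] with n hn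
    change y.1.2.1 (m + -(n : ℤ)) n0 = y'.1.2.1 (m + -(n : ℤ)) n0
    rw [hk _ hn]
  · filter_upwards [hev m] with n hn
    change y.1.2.2 (m + -(n : ℤ)) j = y'.1.2.2 (m + -(n : ℤ)) j
    rw [hu _ hn]

/-- Two points over `0` with the same past and different futures. -/
theorem exists_pair (t : Par) : ∃ (y y' : KS t) (h : Gp), h ≠ 1 ∧ y.1.1 = 0 ∧ y'.1.1 = 0 ∧
    (∀ m : ℤ, m ≤ 0 → y'.1.2.1 m = y.1.2.1 m) ∧ (∀ m : ℤ, 1 ≤ m → y'.1.2.1 m = h * y.1.2.1 m) ∧
    ∀ m : ℤ, m ≤ 0 → y'.1.2.2 m = y.1.2.2 m := by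
  classical
  obtain ⟨k, -, hk, -⟩ := exists_coc 0 1 1
  let h : Gp := fun _ => Equiv.swap 0 1
  let k' : ℤ → Gp := fun m => if m ≤ 0 then k m else h * k m
  have hk' : ∀ (m : ℤ) (w : ℕ), FZ ((0 : Odo) + (m : Odo)) w → k' (m + 1) = k' m * kp w := by
    intro m w hw
    have h1 := hk m w hw
    rcases lt_trichotomy m 0 with hm | hm | hm
    · have e1 : k' (m + 1) = k (m + 1) := if_pos (by omega)
      have e2 : k' m = k m := if_pos (by omega)
      rw [e1, e2, h1]
    · exfalso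
      refine hw.ne_zero ?_
      rw [hm, Int.cast_zero, add_zero]
    · have e1 : k' (m + 1) = h * k (m + 1) := if_neg (by omega)
      have e2 : k' m = h * k m := if_neg (by omega)
      rw [e1, e2, h1, mul_assoc]
  obtain ⟨y, hy1, hy2, -⟩ := exists_pt t 0 k hk fun _ _ => false
  obtain ⟨y', hy1', hy2', -⟩ := exists_pt t 0 k' hk' fun _ _ => false
  have hpast : ∀ m : ℤ, m ≤ 0 → y'.1.2.1 m = y.1.2.1 m := by
    intro m hm
    rw [hy2', hy2]
    exact if_pos hm
  refine ⟨y, y', h, ?_, hy1, hy1', hpast, ?_, ?_⟩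
  · intro hh
    have h2 := congrFun hh 0
    have h3 := Equiv.congr_fun h2 0
    have h4 : (Equiv.swap (0 : Fin (0 + 2)) 1) 0 = 0 := h3
    rw [Equiv.swap_apply_left] at h4
    exact absurd h4 (by decide)
  · intro m hm
    rw [hy2', hy2]
    exact if_neg (by omega)
  · intro m hm
    funext j
    refine bit_eq y'.2 y.2 rfl ?_ (hpast m hm) ?_
    · rw [hy1', hy1]
    · intro ht hhit
      have h1 := hhit.1
      rw [hy1', zero_add] at h1
      have h2 := (pt_int h1.symm).1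
      refine ht ?_
      unfold cv at h2
      ext
      have h3 : (((t j : Fin 3) : ℕ) : ℤ) = 0 := h2
      have h4 : ((t j : Fin 3) : ℕ) = 0 := by exact_mod_cast h3
      rw [h4]
      rfl

theorem pt3_ne (m : ℤ) : pt 3 + (m : Odo) ≠ 0 := by
  intro h
  have h1 : pt 3 = (((-m : ℤ)) : Odo) := by
    rw [Int.cast_neg]
    exact eq_neg_of_add_eq_zero_left h
  have h2 := (pt_int h1).1
  omega

theorem pt3_not_hit (t : Par) (m : ℤ) (j : Mk) (g : Gp) : ¬ Hit (cv t j) j (pt 3 + (m : Odo)) g := by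
  intro h
  have h0 := h.1
  have h1 : pt (3 - cv t j) = (((-m : ℤ)) : Odo) := by
    rw [pt_sub, Int.cast_neg, ← h0]
    ring
  have h2 := (pt_int h1).1
  have h3 : ((t j : Fin 3) : ℕ) < 3 := (t j).2
  unfold cv at h2
  omega

/-- A point over `pt 3` with prescribed position at time `0`. -/
theorem exists_gen (t : Par) (g : Gp) : ∃ x : KS t, x.1.1 = pt 3 ∧ x.1.2.1 0 = g := by
  obtain ⟨k, hk0, hk, -⟩ := exists_coc (pt 3) g 1
  obtain ⟨x, hx1, hx2, -⟩ := exists_pt t (pt 3) k hk fun _ _ => false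
  exact ⟨x, hx1, by rw [hx2, hk0]⟩

theorem gen_unique {t : Par} {x x' : KS t} (h : x.1.1 = pt 3) (h' : x'.1.1 = pt 3)
    (hk : x.1.2.1 0 = x'.1.2.1 0) : x = x' := by
  have hz : x.1.1 = x'.1.1 := h.trans h'.symm
  have hkk : ∀ m : ℤ, x.1.2.1 m = x'.1.2.1 m := by
    intro m
    have h1 := quot_const x.2 x'.2 hz (fun m => by rw [h]; exact pt3_ne m) m
    rw [hk, mul_inv_cancel] at h1
    exact (mul_inv_eq_one.1 h1).symm
  refine Subtype.ext (Prod.ext hz (Prod.ext (funext hkk) (funext fun m => funext fun j => ?_)))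
  refine bit_eq x.2 x'.2 rfl (by rw [hz]) (hkk m) ?_
  intro _
  rw [h]
  exact pt3_not_hit t m j _

end Pool.Agent.BCF
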