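import Pool.Agent.BCF.ResDefs
import Pool.Agent.BCF.Fam
import Pool.Agent.BCF.MapM
import Pool.Agent.BCF.RigA

/-!
# The systems are regular almost one-to-one extensions of the system without cuts

PLAN. Let `Φ : KS t → KS 0` be the projection (`exists_proj`), surjective by `surj_of_equiv`, and
`π = Ψ 0 ∘ Φ ∘ (Ψ t).symm`.
* One-point fibre: over the point `Φ x`, `x` with `x.1.1 = pt 3` (`exists_gen t 1`; `gen_unique`).
* If `x ≠ y` in `KS t` have the same image, they have the same first two components and some bit differs,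
  by `bit_eq` there is a hit, so `x.1.1 + m = pt c` for some `m : ℤ` and `c ∈ {1, 2}` (`c = cv t j ≠ 0`).
* For every `m, c` the closed set `A = {g : Cantor | ((Ψ 0).symm g).1.1 + m = pt c}` is null: otherwise by
  `MeasurePreserving.exists_mem_iterate_mem` (as in `Pool.Agent.FlipC.Null.hit_null`) there are `g ∈ A` and
  `i ≠ 0` with `(F 0)^[i] g ∈ A`; the first component of `(Ψ 0).symm ((F 0)^[i] g)` is that of
  `(Ψ 0).symm g` plus `i` (`fam_iter`-like induction with `fam_symm`), so `i = 0` by `odo_int_inj`.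
* countable union.
-/

namespace Pool.Agent.BCF

open Set Filter Topology MeasureTheory
open Pool.Agent.FlipC (Cantor MinHomeo Odo)

private theorem nm_iter {F : C(Par, C(Cantor, Cantor))} {Ψ : ∀ t : Par, KS t ≃ₜ Cantor}
    (hF : ∀ t z, F t (Ψ t z) = Ψ t (sk 1 z)) (t : Par) (g : Cantor) (i : ℕ) :
    ((Ψ t).symm ((⇑(F t))^[i] g)).1.1 = ((Ψ t).symm g).1.1 + ((i : ℤ) : Odo) := by
  induction i with
  | zero =>
    rw [Function.iterate_zero, id, Nat.cast_zero, Int.cast_zero, add_zero]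
  | succ i ih =>
    rw [Function.iterate_succ_apply', fam_symm hF]
    have h1 : (sk 1 ((Ψ t).symm ((⇑(F t))^[i] g))).1.1 =
        ((Ψ t).symm ((⇑(F t))^[i] g)).1.1 + ((1 : ℤ) : Odo) := rfl
    rw [h1, ih]
    push_cast
    ring

private theorem nm_null {F : C(Par, C(Cantor, Cantor))} {Ψ : ∀ t : Par, KS t ≃ₜ Cantor}
    (hF : ∀ t z, F t (Ψ t z) = Ψ t (sk 1 z)) (t : Par) (ν : Measure Cantor) [IsProbabilityMeasure ν]
    (hν : ν.map (F t) = ν) (m c : ℤ) :
    ν {g | ((Ψ t).symm g).1.1 + ((m : ℤ) : Odo) = pt c} = 0 := by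
  by_contra hne
  have hmp : MeasurePreserving (⇑(F t)) ν ν := ⟨(F t).continuous.measurable, hν⟩
  have hcl : IsClosed {g : Cantor | ((Ψ t).symm g).1.1 + ((m : ℤ) : Odo) = pt c} := by
    refine isClosed_eq ?_ continuous_const
    exact (continuous_fst.comp (continuous_subtype_val.comp (Ψ t).symm.continuous)).add
      continuous_const
  obtain ⟨g, hg, i, hi, hgi⟩ := hmp.exists_mem_iterate_mem
    hcl.measurableSet.nullMeasurableSet hne
  have h1 : ((Ψ t).symm g).1.1 + ((m : ℤ) : Odo) = pt c := hg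
  have h2 : ((Ψ t).symm ((⇑(F t))^[i] g)).1.1 + ((m : ℤ) : Odo) = pt c := hgi
  rw [nm_iter hF, ← h1, add_assoc, add_right_inj] at h2
  have h3 : ((i : ℤ) : Odo) = ((0 : ℤ) : Odo) := by
    rw [Int.cast_zero]
    exact add_eq_right.1 h2
  exact hi (by exact_mod_cast odo_int_inj h3)

theorem fam_regExt {F : C(Par, C(Cantor, Cantor))} {Ψ : ∀ t : Par, KS t ≃ₜ Cantor}
    (hF : ∀ t z, F t (Ψ t z) = Ψ t (sk 1 z)) (t : Par) : RegExtOf (F 0) (F t) := by
  obtain ⟨Φ, hΦc, hΦe, hΦ⟩ := exists_proj t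
  have hs : Function.Surjective Φ := surj_of_equiv hΦc hΦe
  refine ⟨⟨fun x => Ψ 0 (Φ ((Ψ t).symm x)),
    (Ψ 0).continuous.comp (hΦc.comp (Ψ t).symm.continuous)⟩, ?_, ?_, ?_, ?_⟩
  · exact (Ψ 0).surjective.comp (hs.comp (Ψ t).symm.surjective)
  · intro x
    show Ψ 0 (Φ ((Ψ t).symm (F t x))) = F 0 (Ψ 0 (Φ ((Ψ t).symm x)))
    rw [fam_symm hF, hΦe, hF]
  · obtain ⟨x, hx, -⟩ := exists_gen t 1
    refine ⟨Ψ t x, fun y hy => ?_⟩
    have h1 : Ψ 0 (Φ ((Ψ t).symm y)) = Ψ 0 (Φ ((Ψ t).symm (Ψ t x))) := hy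
    rw [Homeomorph.symm_apply_apply] at h1
    have h2 := (Ψ 0).injective h1
    have h3 := congrArg Subtype.val h2
    rw [hΦ, hΦ] at h3
    have h4 : ((Ψ t).symm y).1.1 = x.1.1 := congrArg (fun z => z.1) h3
    have h5 : ((Ψ t).symm y).1.2.1 = x.1.2.1 := congrArg (fun z => z.2.1) h3
    have h6 : (Ψ t).symm y = x := gen_unique (h4.trans hx) hx (by rw [h5])
    rw [← h6, Homeomorph.apply_symm_apply]
  · intro ν hν1 hν
    refine measure_mono_null (t := ⋃ m : ℤ, ⋃ c : ℤ,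
      {g | ((Ψ 0).symm g).1.1 + ((m : ℤ) : Odo) = pt c}) ?_ ?_
    · rintro g ⟨x, y, hxy, hx, hy⟩
      have hx' : Ψ 0 (Φ ((Ψ t).symm x)) = g := hx
      have hy' : Ψ 0 (Φ ((Ψ t).symm y)) = g := hy
      have h1 : Φ ((Ψ t).symm x) = Φ ((Ψ t).symm y) := (Ψ 0).injective (hx'.trans hy'.symm)
      have hne : (Ψ t).symm x ≠ (Ψ t).symm y := fun h => hxy ((Ψ t).symm.injective h)
      have h3 := congrArg Subtype.val h1
      rw [hΦ, hΦ] at h3
      have h4 : ((Ψ t).symm x).1.1 = ((Ψ t).symm y).1.1 := congrArg (fun z => z.1) h3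
      have h5 : ((Ψ t).symm x).1.2.1 = ((Ψ t).symm y).1.2.1 := congrArg (fun z => z.2.1) h3
      have h6 : ∃ (m : ℤ) (j : Mk), ((Ψ t).symm x).1.2.2 m j ≠ ((Ψ t).symm y).1.2.2 m j := by
        by_contra hcon
        push Not at hcon
        exact hne (Subtype.ext (Prod.ext h4 (Prod.ext h5 (funext fun m => funext fun j => hcon m j))))
      obtain ⟨m, j, hmj⟩ := h6
      have h7 : t j ≠ 0 ∧ Hit (cv t j) j (((Ψ t).symm x).1.1 + (m : Odo)) (((Ψ t).symm x).1.2.1 m) := by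
        by_contra hcon
        exact hmj (bit_eq ((Ψ t).symm x).2 ((Ψ t).symm y).2 rfl (by rw [h4]) (by rw [h5])
          fun h8 h9 => hcon ⟨h8, h9⟩)
      rw [Set.mem_iUnion]
      refine ⟨m, ?_⟩
      rw [Set.mem_iUnion]
      refine ⟨cv t j, ?_⟩
      show ((Ψ 0).symm g).1.1 + ((m : ℤ) : Odo) = pt (cv t j)
      have h8 : (Ψ 0).symm g = Φ ((Ψ t).symm x) := by
        rw [← hx', Homeomorph.symm_apply_apply]
      rw [h8, hΦ]
      exact h7.2.1
    · rw [measure_iUnion_null_iff]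
      intro m
      rw [measure_iUnion_null_iff]
      intro c
      exact nm_null hF 0 ν hν m c

end Pool.Agent.BCF
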