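import Pool.Agent.FlipD.Defs

/-!
# Definitions of the final statement
-/

namespace Pool.Agent.BCF

open MeasureTheory
open Pool.Agent.FlipC (Cantor MinHomeo Conj Factor)
open Pool.Agent.FlipD (Maps)

/-- `T` is a regular almost one-to-one extension of `S`: there is a factor map from `T` to `S` with a
one-point fibre such that the set of points with at least two preimages is null for all `S`-invariant
Borel probability measures. -/
def RegExtOf (S T : Maps) : Prop :=
  ∃ π : C(Cantor, Cantor), Function.Surjective π ∧ (∀ x, π (T x) = S (π x)) ∧
    (∃ x, ∀ y, π y = π x → y = x) ∧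
    ∀ ν : Measure Cantor, IsProbabilityMeasure ν → ν.map S = ν →
      ν {g | ∃ x y, x ≠ y ∧ π x = g ∧ π y = g} = 0

open Classical in
/-- The adjacency matrix of a graph on `ℕ`, a point of the Cantor space of all `0/1` matrices. -/
noncomputable def code (G : SimpleGraph ℕ) : ℕ → ℕ → Bool := fun i j => decide (G.Adj i j)

end Pool.Agent.BCF
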