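import Pool.Agent.BCF.RigA

/-!
# The translation is an integer

PLAN. Suppose `θ` is not an integer. Let `y, y', h` be as in `exists_pair t'` and `x, x'` with `Φ x = y`,
`Φ x' = y'`. From `hθ`, `ς * ς = 1`: `x.1.1 = x'.1.1 = -ς * θ`, and `x.1.1 + m ≠ 0` for all integers `m`. So
`x'.1.2.1 m = h₁ * x.1.2.1 m` for all `m`, with `h₁ : Gp` (`quot_const`). Let `a` be a point over `pt 3`
(`exists_gen t 1`) and `a'` the point over `pt 3` with `a'.1.2.1 0 = h₁ * a.1.2.1 0` (`exists_gen`); by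
`quot_const` (`pt3_ne`) `a'.1.2.1 m = h₁ * a.1.2.1 m` for all `m`.
Claim: if `sk (v n) x → a` (`v : ℕ → ℤ`) then `sk (v n) x' → a'`: `tendsto_of_zk` (`pt3_not_hit`); the
positions are multiplied by `h₁` (continuous, coordinatewise).
Let `u, u'` be sequences with `sk (u n) x → a`, `sk (-(u' n)) x → a` (`dense_fwd, dense_bwd`). If `ς = 1`:
`Φ (sk (-(u' n)) x) = sk (-(u' n)) y`, and `sk (-n) y, sk (-n) y'` are asymptotic (`asy_of_le` with `M = 0`),
so `Φ a = Φ a'` by `Asy.lim_eq` (continuity of `Φ`); on the other hand `Φ (sk (u n) x) = sk (u n) y → Φ a`,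
`sk (u n) y' → Φ a'`, and the positions at time `0` of `sk (u n) y'` and `sk (u n) y` (for `u n ≥ 1`) have
quotient `h ≠ 1`, so the positions of `Φ a'` and `Φ a` have quotient `h` (limits are unique), a contradiction.
If `ς = -1` exchange the two directions: `Φ (sk (u n) x) = sk (-(u n)) y`.
-/

namespace Pool.Agent.BCF

open Set Filter Topology
open Pool.Agent.FlipC (Odo)

private theorem continuous_gmul (h : Gp) : Continuous (fun g : Gp => h * g) := by
  refine continuous_pi (fun n => ?_)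
  exact (continuous_of_discreteTopology (f := fun p : Equiv.Perm (Fin (n + 2)) => h n * p)).comp
    (continuous_apply n)

private theorem sgn_sq {ς : ℤ} (hς : ς = 1 ∨ ς = -1) : ς * ς = 1 := by
  rcases hς with h | h <;> subst h <;> norm_num

private theorem dense_sgn_fwd {t : Par} {ς : ℤ} (hς : ς = 1 ∨ ς = -1) (x y : KS t) :
    ∃ u : ℕ → ℕ, Tendsto u atTop atTop ∧ Tendsto (fun n => sk (ς * (u n : ℤ)) x) atTop (𝓝 y) := by
  rcases hς with h | h
  · obtain ⟨u, hu, h2⟩ := dense_fwd x y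
    refine ⟨u, hu, ?_⟩
    simpa [h] using h2
  · obtain ⟨u, hu, h2⟩ := dense_bwd x y
    refine ⟨u, hu, ?_⟩
    simpa [h] using h2

private theorem dense_sgn_bwd {t : Par} {ς : ℤ} (hς : ς = 1 ∨ ς = -1) (x y : KS t) :
    ∃ u : ℕ → ℕ, Tendsto u atTop atTop ∧ Tendsto (fun n => sk (ς * -(u n : ℤ)) x) atTop (𝓝 y) := by
  rcases hς with h | h
  · obtain ⟨u, hu, h2⟩ := dense_bwd x y
    refine ⟨u, hu, ?_⟩
    simpa [h] using h2
  · obtain ⟨u, hu, h2⟩ := dense_fwd x y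
    refine ⟨u, hu, ?_⟩
    simpa [h] using h2

theorem theta_int {t t' : Par} {Φ : KS t → KS t'} (hc : Continuous Φ) (hs : Function.Surjective Φ)
    {ς : ℤ} (hς : ς = 1 ∨ ς = -1) (hΦ : ∀ (q : ℤ) (x : KS t), Φ (sk q x) = sk (ς * q) (Φ x))
    {θ : Odo} (hθ : ∀ x : KS t, (Φ x).1.1 = ((ς : ℤ) : Odo) * x.1.1 + θ) :
    ∃ q : ℤ, θ = ((q : ℤ) : Odo) := by
  by_contra hno
  push Not at hno
  have hsq : ς * ς = 1 := sgn_sq hς
  have hsqO : ((ς : ℤ) : Odo) * ((ς : ℤ) : Odo) = 1 := by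
    rw [← Int.cast_mul, hsq, Int.cast_one]
  obtain ⟨y, y', h, hh, hy0, hy0', hpast, hfut, hbit⟩ := exists_pair t'
  obtain ⟨x, hx⟩ := hs y
  obtain ⟨x', hx'⟩ := hs y'
  have hx1 : ∀ z : KS t, (Φ z).1.1 = 0 → z.1.1 = -(((ς : ℤ) : Odo) * θ) := by
    intro z hz
    have h1 := hθ z
    rw [hz] at h1
    have h2 : ((ς : ℤ) : Odo) * (((ς : ℤ) : Odo) * z.1.1 + θ) = 0 := by rw [← h1, mul_zero]
    rw [mul_add, ← mul_assoc, hsqO, one_mul] at h2
    exact eq_neg_of_add_eq_zero_left h2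
  have hxz : x.1.1 = -(((ς : ℤ) : Odo) * θ) := hx1 x (by rw [hx]; exact hy0)
  have hxz' : x'.1.1 = -(((ς : ℤ) : Odo) * θ) := hx1 x' (by rw [hx']; exact hy0')
  have hxx : x.1.1 = x'.1.1 := by rw [hxz, hxz']
  have hn0 : ∀ m : ℤ, x.1.1 + (m : Odo) ≠ 0 := by
    intro m hm
    rw [hxz] at hm
    have h2 : ((ς : ℤ) : Odo) * θ = (m : Odo) := (neg_add_eq_zero.mp hm)
    apply hno (ς * m)
    calc θ = ((ς : ℤ) : Odo) * (((ς : ℤ) : Odo) * θ) := by rw [← mul_assoc, hsqO, one_mul]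
      _ = ((ς * m : ℤ) : Odo) := by rw [h2, Int.cast_mul]
  obtain ⟨h1, hh1⟩ : ∃ h1 : Gp, ∀ m : ℤ, x'.1.2.1 m = h1 * x.1.2.1 m := by
    refine ⟨x'.1.2.1 0 * (x.1.2.1 0)⁻¹, fun m => ?_⟩
    rw [← quot_const x.2 x'.2 hxx hn0 m, inv_mul_cancel_right]
  obtain ⟨a, ha1, ha2⟩ := exists_gen t 1
  obtain ⟨a', ha1', ha2'⟩ := exists_gen t (h1 * a.1.2.1 0)
  have haa : a.1.1 = a'.1.1 := by rw [ha1, ha1']
  have hga : ∀ m : ℤ, a'.1.2.1 m = h1 * a.1.2.1 m := by
    intro m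
    have h3 := quot_const a.2 a'.2 haa (fun m => by rw [ha1]; exact pt3_ne m) m
    rw [ha2', mul_inv_cancel_right] at h3
    rw [← h3, inv_mul_cancel_right]
  have hclaim : ∀ v : ℕ → ℤ, Tendsto (fun n => sk (v n) x) atTop (𝓝 a) →
      Tendsto (fun n => sk (v n) x') atTop (𝓝 a') := by
    intro v hv
    have hv1 : Tendsto (fun n => (sk (v n) x).1) atTop (𝓝 a.1) :=
      (continuous_subtype_val.tendsto a).comp hv
    refine tendsto_of_zk ?_ ?_ ?_
    · intro m j _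
      rw [ha1']
      exact pt3_not_hit t m j _
    · have h4 : (fun n => (sk (v n) x').1.1) = fun n => (sk (v n) x).1.1 := by
        funext n
        show x'.1.1 + ((v n : ℤ) : Odo) = x.1.1 + ((v n : ℤ) : Odo)
        rw [hxx]
      rw [h4, ← haa]
      exact (continuous_fst.tendsto a.1).comp hv1
    · intro m
      have h4 : (fun n => (sk (v n) x').1.2.1 m) = fun n => h1 * (sk (v n) x).1.2.1 m := by
        funext n
        show x'.1.2.1 (m + v n) = h1 * x.1.2.1 (m + v n)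
        exact hh1 _
      rw [h4, hga m]
      refine ((continuous_gmul h1).tendsto _).comp ?_
      have h5 : Continuous (fun z : Om => z.2.1 m) :=
        (continuous_apply m).comp (continuous_fst.comp continuous_snd)
      exact (h5.tendsto a.1).comp hv1
  obtain ⟨u, hu, hux⟩ := dense_sgn_fwd hς x a
  obtain ⟨u', hu', hux'⟩ := dense_sgn_bwd hς x a
  have hmap : ∀ (q : ℤ) (z : KS t), Φ (sk (ς * q) z) = sk q (Φ z) := by
    intro q z
    rw [hΦ, ← mul_assoc, hsq, one_mul]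
  have hF : Tendsto (fun n => sk (u n : ℤ) y) atTop (𝓝 (Φ a)) := by
    have h4 : (fun n => sk (u n : ℤ) y) = fun n => Φ (sk (ς * (u n : ℤ)) x) := by
      funext n; rw [hmap, hx]
    rw [h4]
    exact (hc.tendsto a).comp hux
  have hF' : Tendsto (fun n => sk (u n : ℤ) y') atTop (𝓝 (Φ a')) := by
    have h4 : (fun n => sk (u n : ℤ) y') = fun n => Φ (sk (ς * (u n : ℤ)) x') := by
      funext n; rw [hmap, hx']
    rw [h4]
    exact (hc.tendsto a').comp (hclaim _ hux)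
  have hB : Tendsto (fun n => sk (-(u' n : ℤ)) y) atTop (𝓝 (Φ a)) := by
    have h4 : (fun n => sk (-(u' n : ℤ)) y) = fun n => Φ (sk (ς * -(u' n : ℤ)) x) := by
      funext n; rw [hmap, hx]
    rw [h4]
    exact (hc.tendsto a).comp hux'
  have hB' : Tendsto (fun n => sk (-(u' n : ℤ)) y') atTop (𝓝 (Φ a')) := by
    have h4 : (fun n => sk (-(u' n : ℤ)) y') = fun n => Φ (sk (ς * -(u' n : ℤ)) x') := by
      funext n; rw [hmap, hx']
    rw [h4]
    exact (hc.tendsto a').comp (hclaim _ hux')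
  have hasy : Asy (fun n : ℕ => sk (-(n : ℤ)) y) (fun n : ℕ => sk (-(n : ℤ)) y') :=
    asy_of_le (by rw [hy0, hy0']) 0 (fun m hm => (hpast m hm).symm) (fun m hm => (hbit m hm).symm)
  have heq : Φ a = Φ a' := hasy.lim_eq hu' hB hB'
  have hpos : Continuous (fun z : KS t' => z.1.2.1 0) :=
    (continuous_apply 0).comp ((continuous_fst.comp continuous_snd).comp continuous_subtype_val)
  have hP : Tendsto (fun n => (sk (u n : ℤ) y).1.2.1 0) atTop (𝓝 ((Φ a).1.2.1 0)) :=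
    (hpos.tendsto _).comp hF
  have hP' : Tendsto (fun n => (sk (u n : ℤ) y').1.2.1 0) atTop (𝓝 ((Φ a').1.2.1 0)) :=
    (hpos.tendsto _).comp hF'
  have hP2 : Tendsto (fun n => (sk (u n : ℤ) y').1.2.1 0) atTop (𝓝 (h * (Φ a).1.2.1 0)) := by
    have h6 : Tendsto (fun n => h * (sk (u n : ℤ) y).1.2.1 0) atTop (𝓝 (h * (Φ a).1.2.1 0)) :=
      ((continuous_gmul h).tendsto _).comp hP
    refine h6.congr' ?_
    filter_upwards [hu.eventually (eventually_ge_atTop 1)] with n hn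
    show h * y.1.2.1 (0 + (u n : ℤ)) = y'.1.2.1 (0 + (u n : ℤ))
    rw [hfut (0 + (u n : ℤ)) (by omega)]
  have h7 : (Φ a').1.2.1 0 = h * (Φ a).1.2.1 0 := tendsto_nhds_unique hP' hP2
  rw [← heq] at h7
  exact hh (right_eq_mul.mp h7)

end Pool.Agent.BCF
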