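import Pool.Agent.BCF.Basic

/-!
# Shifts, existence of points, comparison of bits

PLAN.
* `sg_sg, sg_zero`: extensionality, `push_cast`, `ring`/`add_assoc` (the three components of `sg`).
* `sg_mem`: the two conditions of `XX` at time `m` for `sg q x` are the conditions at time `m + q` for
  `x` (`x.1 + q + m = x.1 + (m + q : ℤ)`).
* `exists_coc`: for `c : ℤ → Gp`, `c m = kp w` if `FZ (z + m) w` (choose `w`; unique), `c m = d` if
  `z + m = 0`; solve `k (m + 1) = k m * c m`, `k 0 = g` on `ℤ`: `k m = g * P m` for `m ≥ 0` with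
  `P (n + 1) = P n * c n` (recursion on `ℕ`), and `k (-n) = g * N n` with `N (n + 1) = N n * (c (-(n+1)))⁻¹`.
* `exists_pt`: `x = (z, k, u)` with `u m j = false` if `t j = 0`, `v m j` if `Hit (cv t j) j (z + m) (k m)`,
  and `decide (∃ w, FM (cv t j) j (z + m) (k m) w ∧ Odd w)` otherwise (`FM.unique`).
* `bit_eq`: both sides are `false` if `t j = 0`, otherwise take `w` from `exists_FM`; the conditions of `XX`
  give `decide (Odd w)` for both.
* `quot_step`: take `w` from `exists_FZ`; `x.2.1 (m+1) = x.2.1 m * kp w`, same for `x'`, cancel.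
* `quot_const`: from `quot_step` by `Int.induction_on`.
-/

namespace Pool.Agent.BCF

open Pool.Agent.FlipC (Odo)

private theorem om_ext {x y : Om} (h1 : x.1 = y.1) (h2 : ∀ m, x.2.1 m = y.2.1 m)
    (h3 : ∀ m, x.2.2 m = y.2.2 m) : x = y :=
  Prod.ext h1 (Prod.ext (funext h2) (funext h3))

theorem sg_sg (k l : ℤ) (x : Om) : sg k (sg l x) = sg (k + l) x := by
  refine om_ext ?_ (fun m => ?_) (fun m => ?_)
  · show x.1 + (l : Odo) + (k : Odo) = x.1 + ((k + l : ℤ) : Odo)
    rw [Int.cast_add, add_assoc, add_comm (l : Odo)]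
  · show x.2.1 (m + k + l) = x.2.1 (m + (k + l))
    rw [add_assoc]
  · show x.2.2 (m + k + l) = x.2.2 (m + (k + l))
    rw [add_assoc]

theorem sg_zero (x : Om) : sg 0 x = x := by
  refine om_ext ?_ (fun m => ?_) (fun m => ?_)
  · show x.1 + ((0 : ℤ) : Odo) = x.1
    rw [Int.cast_zero, add_zero]
  · show x.2.1 (m + 0) = x.2.1 m
    rw [add_zero]
  · show x.2.2 (m + 0) = x.2.2 m
    rw [add_zero]

theorem sg_mem {t : Par} (q : ℤ) {x : Om} (hx : x ∈ XX t) : sg q x ∈ XX t := by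
  have hz : ∀ m : ℤ, x.1 + (q : Odo) + (m : Odo) = x.1 + ((m + q : ℤ) : Odo) := by
    intro m
    rw [Int.cast_add, add_assoc, add_comm (q : Odo)]
  refine ⟨fun m w hw => ?_, fun m j => ⟨fun ht => ?_, fun ht w hw => ?_⟩⟩
  · show x.2.1 (m + 1 + q) = x.2.1 (m + q) * kp w
    have h1 : FZ (x.1 + ((m + q : ℤ) : Odo)) w := by
      rw [← hz]
      exact hw
    rw [← hx.1 (m + q) w h1, add_right_comm]
  · exact (hx.2 (m + q) j).1 ht
  · have h1 : FM (cv t j) j (x.1 + ((m + q : ℤ) : Odo)) (x.2.1 (m + q)) w := by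
      rw [← hz]
      exact hw
    exact (hx.2 (m + q) j).2 ht w h1

/-- The shift on the system. -/
noncomputable def sk {t : Par} (q : ℤ) (x : KS t) : KS t := ⟨sg q x.1, sg_mem q x.2⟩

theorem sk_sk {t : Par} (k l : ℤ) (x : KS t) : sk k (sk l x) = sk (k + l) x :=
  Subtype.ext (sg_sg k l x.1)

theorem sk_zero {t : Par} (x : KS t) : sk 0 x = x := Subtype.ext (sg_zero x.1)

theorem continuous_sg (q : ℤ) : Continuous (sg q) := by
  unfold sg
  refine Continuous.prodMk ?_ (Continuous.prodMk ?_ ?_)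
  · refine continuous_pi fun m => ?_
    have h1 : Continuous fun a : ZMod (Nat.nth Nat.Prime m) => a + (q : ZMod (Nat.nth Nat.Prime m)) :=
      continuous_of_discreteTopology
    exact h1.comp ((continuous_apply m).comp continuous_fst)
  · refine continuous_pi fun m => ?_
    exact (continuous_apply (m + q)).comp (continuous_fst.comp continuous_snd)
  · refine continuous_pi fun m => ?_
    exact (continuous_apply (m + q)).comp (continuous_snd.comp continuous_snd)

theorem continuous_sk {t : Par} (q : ℤ) : Continuous (sk (t := t) q) :=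
  ((continuous_sg q).comp continuous_subtype_val).subtype_mk _

/-- positive part of the cocycle -/
private def cocP (c : ℤ → Gp) : ℕ → Gp
  | 0 => 1
  | n + 1 => cocP c n * c (n : ℤ)

/-- negative part of the cocycle -/
private def cocN (c : ℤ → Gp) : ℕ → Gp
  | 0 => 1
  | n + 1 => cocN c n * (c (-((n : ℤ) + 1)))⁻¹

private theorem exists_rec (c : ℤ → Gp) (g : Gp) :
    ∃ k : ℤ → Gp, k 0 = g ∧ ∀ m : ℤ, k (m + 1) = k m * c m := by
  refine ⟨fun m => match m with
    | Int.ofNat n => g * cocP c n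
    | Int.negSucc n => g * cocN c (n + 1), ?_, ?_⟩
  · show g * cocP c 0 = g
    show g * 1 = g
    rw [mul_one]
  · intro m
    cases m with
    | ofNat n =>
      show g * cocP c (n + 1) = g * cocP c n * c (n : ℤ)
      show g * (cocP c n * c (n : ℤ)) = g * cocP c n * c (n : ℤ)
      rw [mul_assoc]
    | negSucc n =>
      cases n with
      | zero =>
        show g * cocP c 0 = g * cocN c 1 * c (Int.negSucc 0)
        have h1 : c (-(((0 : ℕ) : ℤ) + 1)) = c (Int.negSucc 0) := rfl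
        show g * 1 = g * (1 * (c (-(((0 : ℕ) : ℤ) + 1)))⁻¹) * c (Int.negSucc 0)
        rw [h1, one_mul, inv_mul_cancel_right, mul_one]
      | succ n =>
        show g * cocN c (n + 1) = g * cocN c (n + 1 + 1) * c (Int.negSucc (n + 1))
        have h1 : c (-(((n + 1 : ℕ) : ℤ) + 1)) = c (Int.negSucc (n + 1)) := by
          congr 1
        show g * cocN c (n + 1) = g * (cocN c (n + 1) * (c (-(((n + 1 : ℕ) : ℤ) + 1)))⁻¹) *
          c (Int.negSucc (n + 1))
        rw [h1, ← mul_assoc, inv_mul_cancel_right]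

theorem exists_coc (z : Odo) (g d : Gp) : ∃ k : ℤ → Gp, k 0 = g ∧
    (∀ (m : ℤ) (w : ℕ), FZ (z + (m : Odo)) w → k (m + 1) = k m * kp w) ∧
    ∀ m : ℤ, z + (m : Odo) = 0 → k (m + 1) = k m * d := by
  classical
  have hc : ∃ c : ℤ → Gp, (∀ (m : ℤ) (w : ℕ), FZ (z + (m : Odo)) w → c m = kp w) ∧
      ∀ m : ℤ, z + (m : Odo) = 0 → c m = d := by
    refine ⟨fun m => if h : ∃ w, FZ (z + (m : Odo)) w then kp h.choose else d, ?_, ?_⟩
    · intro m w hw
      have h : ∃ w, FZ (z + (m : Odo)) w := ⟨w, hw⟩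
      show (if h : ∃ w, FZ (z + (m : Odo)) w then kp h.choose else d) = kp w
      rw [dif_pos h, h.choose_spec.unique hw]
    · intro m hm
      have h : ¬ ∃ w, FZ (z + (m : Odo)) w := by
        rintro ⟨w, hw⟩
        exact hw.ne_zero hm
      show (if h : ∃ w, FZ (z + (m : Odo)) w then kp h.choose else d) = d
      rw [dif_neg h]
  obtain ⟨c, h1, h2⟩ := hc
  obtain ⟨k, h3, h4⟩ := exists_rec c g
  exact ⟨k, h3, fun m w hw => by rw [h4, h1 m w hw], fun m hm => by rw [h4, h2 m hm]⟩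

theorem exists_pt (t : Par) (z : Odo) (k : ℤ → Gp)
    (hk : ∀ (m : ℤ) (w : ℕ), FZ (z + (m : Odo)) w → k (m + 1) = k m * kp w) (v : ℤ → Mk → Bool) :
    ∃ x : KS t, x.1.1 = z ∧ x.1.2.1 = k ∧
      ∀ (m : ℤ) (j : Mk), t j ≠ 0 → Hit (cv t j) j (z + (m : Odo)) (k m) → x.1.2.2 m j = v m j := by
  classical
  let u : ℤ → Mk → Bool := fun (m : ℤ) (j : Mk) =>
    if t j = 0 then false else
      if Hit (cv t j) j (z + (m : Odo)) (k m) then v m j else
        decide (∃ w, FM (cv t j) j (z + (m : Odo)) (k m) w ∧ Odd w)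
  have hu0 : ∀ (m : ℤ) (j : Mk), t j = 0 → u m j = false := fun m j h => if_pos h
  have hu1 : ∀ (m : ℤ) (j : Mk), t j ≠ 0 → Hit (cv t j) j (z + (m : Odo)) (k m) → u m j = v m j := by
    intro m j h h'
    show (if t j = 0 then false else
      if Hit (cv t j) j (z + (m : Odo)) (k m) then v m j else
        decide (∃ w, FM (cv t j) j (z + (m : Odo)) (k m) w ∧ Odd w)) = v m j
    rw [if_neg h, if_pos h']
  have hu2 : ∀ (m : ℤ) (j : Mk), t j ≠ 0 → ∀ w, FM (cv t j) j (z + (m : Odo)) (k m) w →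
      u m j = decide (Odd w) := by
    intro m j h w hw
    have h' : ¬ Hit (cv t j) j (z + (m : Odo)) (k m) := fun h' => h'.not_FM w hw
    have h3 : u m j = decide (∃ w, FM (cv t j) j (z + (m : Odo)) (k m) w ∧ Odd w) := by
      show (if t j = 0 then false else
        if Hit (cv t j) j (z + (m : Odo)) (k m) then v m j else
          decide (∃ w, FM (cv t j) j (z + (m : Odo)) (k m) w ∧ Odd w)) = _
      rw [if_neg h, if_neg h']
    rw [h3, decide_eq_decide]
    constructor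
    · rintro ⟨w', h5, h6⟩
      rwa [h5.unique hw] at h6
    · intro h5
      exact ⟨w, hw, h5⟩
  exact ⟨⟨(z, k, u), fun m w hw => hk m w hw, fun m j => ⟨hu0 m j, hu2 m j⟩⟩, rfl, rfl, hu1⟩

/-- Bits off the cuts are determined by the other coordinates. -/
theorem bit_eq {t t' : Par} {x x' : Om} (hx : x ∈ XX t) (hx' : x' ∈ XX t') {m m' : ℤ} {j : Mk}
    (ht : t j = t' j) (hz : x.1 + (m : Odo) = x'.1 + (m' : Odo)) (hk : x.2.1 m = x'.2.1 m')
    (hn : t j ≠ 0 → ¬ Hit (cv t j) j (x.1 + (m : Odo)) (x.2.1 m)) : x.2.2 m j = x'.2.2 m' j := by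
  by_cases h : t j = 0
  · rw [(hx.2 m j).1 h, (hx'.2 m' j).1 (ht ▸ h)]
  · obtain ⟨w, hw⟩ := exists_FM (hn h)
    have hcv : cv t j = cv t' j := by
      unfold cv
      rw [ht]
    have hw' : FM (cv t' j) j (x'.1 + (m' : Odo)) (x'.2.1 m') w := by
      rw [← hcv, ← hz, ← hk]
      exact hw
    rw [(hx.2 m j).2 h w hw, (hx'.2 m' j).2 (ht ▸ h) w hw']

/-- The quotient of the positions does not change away from the cut of the cocycle. -/
theorem quot_step {t t' : Par} {x x' : Om} (hx : x ∈ XX t) (hx' : x' ∈ XX t') {m m' : ℤ}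
    (hz : x.1 + (m : Odo) = x'.1 + (m' : Odo)) (h0 : x.1 + (m : Odo) ≠ 0) :
    x'.2.1 (m' + 1) * (x.2.1 (m + 1))⁻¹ = x'.2.1 m' * (x.2.1 m)⁻¹ := by
  obtain ⟨w, hw⟩ := exists_FZ h0
  rw [hx.1 m w hw, hx'.1 m' w (hz ▸ hw), mul_inv_rev, mul_assoc, mul_inv_cancel_left]

theorem quot_const {t t' : Par} {x x' : Om} (hx : x ∈ XX t) (hx' : x' ∈ XX t')
    (hz : x.1 = x'.1) (h0 : ∀ m : ℤ, x.1 + (m : Odo) ≠ 0) (m : ℤ) :
    x'.2.1 m * (x.2.1 m)⁻¹ = x'.2.1 0 * (x.2.1 0)⁻¹ := by
  have hstep : ∀ m : ℤ, x'.2.1 (m + 1) * (x.2.1 (m + 1))⁻¹ = x'.2.1 m * (x.2.1 m)⁻¹ :=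
    fun m => quot_step hx hx' (by rw [hz]) (h0 m)
  induction m using Int.induction_on with
  | zero => rfl
  | succ i ih => rw [hstep, ih]
  | pred i ih =>
    have h1 := hstep (-(i : ℤ) - 1)
    rw [sub_add_cancel] at h1
    rw [← h1, ih]

end Pool.Agent.BCF
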