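import Pool.Agent.BCF.Shift

/-!
# Closedness of the family, countability of the marks

PLAN. Adapt `Pool.Agent.FlipC.Cut` (`isClopen_imp`, `isClopen_coord`, `isClopen_Fst`, `isClosed_KT`).
* `countable_mk`: `Ev` is countable: the map `s ↦ ` (some `i, N` with `∀ n ≥ N, (s n : ℕ) = i`) has fibres that
  inject into the finite type `∀ n : Fin N, Fin (n + 2)`; e.g. `Ev` injects into
  `Σ N : ℕ, (Fin N → ℕ) × ℕ` by `s ↦ ⟨N, fun n => s n, i⟩`.
* `isClopen_FZ`, `isClopen_FM`: finite intersections of conditions on finitely many coordinates (the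
  coordinates take values in discrete spaces).
* `isClosed_KT`: `KT` is the intersection over `m, w` and `m, j` of clopen sets: `{x | FZ (x.2.1 + m) w →
  x.2.2.1 (m+1) = x.2.2.1 m * kp w}` is closed (`isClosed_eq` in the T2 space `Gp`, or coordinatewise),
  the others are clopen.
-/

namespace Pool.Agent.BCF

open Pool.Agent.FlipC (Odo)

private theorem bt_imp {X : Type*} [TopologicalSpace X] {p q : X → Prop} (hp : IsClopen {x | p x})
    (hq : IsClopen {x | q x}) : IsClopen {x | p x → q x} := by
  have : {x | p x → q x} = {x | p x}ᶜ ∪ {x | q x} := by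
    ext x
    simp only [Set.mem_union, Set.mem_compl_iff]
    exact imp_iff_not_or
  rw [this]
  exact hp.compl.union hq

private theorem bt_imp' {X : Type*} [TopologicalSpace X] {p q : X → Prop} (hp : IsClopen {x | p x})
    (hq : IsClosed {x | q x}) : IsClosed {x | p x → q x} := by
  have : {x | p x → q x} = {x | p x}ᶜ ∪ {x | q x} := by
    ext x
    simp only [Set.mem_union, Set.mem_compl_iff]
    exact imp_iff_not_or
  rw [this]
  exact hp.compl.isClosed.union hq

private theorem bt_all {X : Type*} [TopologicalSpace X] {p : ℕ → X → Prop} (w : ℕ)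
    (hp : ∀ n, IsClopen {x | p n x}) : IsClopen {x | ∀ n < w, p n x} := by
  have : {x | ∀ n < w, p n x} = ⋂ n ∈ Finset.range w, {x | p n x} := by
    ext x
    simp
  rw [this]
  exact isClopen_biInter_finset fun n _ => hp n

private theorem bt_coord (m : ℕ) (a : ZMod (Nat.nth Nat.Prime m)) : IsClopen {g : Odo | g m = a} :=
  (isClopen_discrete {a}).preimage (continuous_apply m)

private theorem bt_FZ (w : ℕ) : IsClopen {x : Odo | FZ x w} := by
  have h1 : IsClopen {x : Odo | x w ≠ 0} := (bt_coord w 0).compl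
  have h2 : IsClopen {x : Odo | ∀ w' < w, x w' = 0} := bt_all w fun n => bt_coord n 0
  exact h1.inter h2

private theorem bt_Ag (j : Mk) (n : ℕ) : IsClopen {g : Gp | Ag j g n} := by
  have : {g : Gp | Ag j g n} = (fun g : Gp => g n) ⁻¹' {s | s 0 = j.1.1 n ∧ s 1 = j.2.1 n} := rfl
  rw [this]
  exact (isClopen_discrete _).preimage (continuous_apply n)

private theorem bt_FM (c : ℤ) (j : Mk) (w : ℕ) : IsClopen {x : Odo × Gp | FM c j x.1 x.2 w} := by
  have h1 : ∀ n, IsClopen {x : Odo × Gp | x.1 n = pt c n} := fun n =>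
    (bt_coord n (pt c n)).preimage continuous_fst
  have h2 : ∀ n, IsClopen {x : Odo × Gp | Ag j x.2 n} := fun n =>
    (bt_Ag j n).preimage continuous_snd
  have h3 : IsClopen {x : Odo × Gp | x.1 w ≠ pt c w ∨ ¬ Ag j x.2 w} := (h1 w).compl.union (h2 w).compl
  have h4 : IsClopen {x : Odo × Gp | ∀ w' < w, x.1 w' = pt c w' ∧ Ag j x.2 w'} :=
    bt_all w fun n => (h1 n).inter (h2 n)
  exact h3.inter h4

instance countable_ev : Countable Ev := by
  classical
  have hN : ∀ s : Ev, ∃ q : ℕ × ℕ, ∀ n, q.1 ≤ n → (s.1 n : ℕ) = q.2 := by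
    intro s
    obtain ⟨i, N, h⟩ := s.2
    exact ⟨(N, i), h⟩
  choose q hq using hN
  refine Function.Injective.countable
    (f := fun s : Ev => (q s, (List.range (q s).1).map fun n => (s.1 n : ℕ))) ?_
  intro s s' h
  have h1 : q s = q s' := congrArg Prod.fst h
  have h2 : (List.range (q s).1).map (fun n => (s.1 n : ℕ)) =
      (List.range (q s').1).map (fun n => (s'.1 n : ℕ)) := congrArg Prod.snd h
  rw [← h1, List.map_inj_left] at h2
  refine Subtype.ext (funext fun n => Fin.ext ?_)
  rcases lt_or_ge n (q s).1 with hn | hn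
  · exact h2 n (List.mem_range.2 hn)
  · rw [hq s n hn, hq s' n (by rw [← h1]; exact hn), h1]

instance countable_mk : Countable Mk := inferInstance

theorem isClopen_FZ (m : ℤ) (w : ℕ) : IsClopen {x : Odo | FZ (x + (m : Odo)) w} := by
  exact (bt_FZ w).preimage (continuous_id.add continuous_const)

theorem isClopen_FM (c : ℤ) (j : Mk) (m : ℤ) (w : ℕ) :
    IsClopen {x : Om | FM c j (x.1 + (m : Odo)) (x.2.1 m) w} := by
  have hc : Continuous fun x : Om => ((x.1 + (m : Odo), x.2.1 m) : Odo × Gp) :=
    (continuous_fst.add continuous_const).prodMk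
      ((continuous_apply m).comp (continuous_fst.comp continuous_snd))
  exact (bt_FM c j w).preimage hc

/-- The total space of the family. -/
def KT : Set (Par × Om) := {x | x.2 ∈ XX x.1}

theorem isClosed_KT : IsClosed KT := by
  have hbit : ∀ (m : ℤ) (j : Mk) (c : Bool), IsClopen {x : Par × Om | x.2.2.2 m j = c} := by
    intro m j c
    have hc : Continuous (fun x : Par × Om => x.2.2.2 m j) :=
      (continuous_apply j).comp ((continuous_apply m).comp
        (continuous_snd.comp (continuous_snd.comp continuous_snd)))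
    exact (isClopen_discrete {c}).preimage hc
  have hpar : ∀ (j : Mk) (c : Fin 3), IsClopen {x : Par × Om | x.1 j = c} := by
    intro j c
    have hc : Continuous (fun x : Par × Om => x.1 j) := (continuous_apply j).comp continuous_fst
    exact (isClopen_discrete {c}).preimage hc
  have hFZ : ∀ (m : ℤ) (w : ℕ), IsClopen {x : Par × Om | FZ (x.2.1 + (m : Odo)) w} := fun m w =>
    (isClopen_FZ m w).preimage (continuous_fst.comp continuous_snd)
  have hFM : ∀ (c : ℤ) (j : Mk) (m : ℤ) (w : ℕ),
      IsClopen {x : Par × Om | FM c j (x.2.1 + (m : Odo)) (x.2.2.1 m) w} := fun c j m w =>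
    (isClopen_FM c j m w).preimage continuous_snd
  have hcoc : ∀ (m : ℤ) (w : ℕ), IsClosed {x : Par × Om | x.2.2.1 (m + 1) = x.2.2.1 m * kp w} := by
    intro m w
    have h1 : ∀ l : ℤ, Continuous fun x : Par × Om => x.2.2.1 l := fun l =>
      (continuous_apply l).comp (continuous_fst.comp (continuous_snd.comp continuous_snd))
    exact isClosed_eq (h1 (m + 1)) ((h1 m).mul continuous_const)
  have : KT = (⋂ m : ℤ, ⋂ w : ℕ, {x : Par × Om | FZ (x.2.1 + (m : Odo)) w →
      x.2.2.1 (m + 1) = x.2.2.1 m * kp w}) ∩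
      ⋂ m : ℤ, ⋂ j : Mk, ({x : Par × Om | x.1 j = 0 → x.2.2.2 m j = false} ∩
        ⋂ c : Fin 3, ⋂ w : ℕ, {x : Par × Om | x.1 j = c → (c ≠ 0 →
          FM (((c : ℕ) : ℤ)) j (x.2.1 + (m : Odo)) (x.2.2.1 m) w → x.2.2.2 m j = decide (Odd w))}) := by
    ext x
    simp only [KT, XX, Set.mem_iInter, Set.mem_inter_iff, Set.mem_ofPred_eq]
    constructor
    · rintro ⟨h1, h2⟩
      refine ⟨h1, fun m j => ⟨(h2 m j).1, fun c w hc hne hf => ?_⟩⟩
      subst hc
      exact (h2 m j).2 hne w hf
    · rintro ⟨h1, h2⟩
      refine ⟨h1, fun m j => ⟨(h2 m j).1, fun hne w hf => ?_⟩⟩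
      exact (h2 m j).2 (x.1 j) w rfl hne hf
  rw [this]
  refine IsClosed.inter ?_ ?_
  · exact isClosed_iInter fun m => isClosed_iInter fun w => bt_imp' (hFZ m w) (hcoc m w)
  · refine isClosed_iInter fun m => isClosed_iInter fun j => IsClosed.inter ?_ ?_
    · exact (bt_imp (hpar j 0) (hbit m j false)).isClosed
    · refine isClosed_iInter fun c => isClosed_iInter fun w => ?_
      have hcc : IsClopen {x : Par × Om | c ≠ 0} := by
        by_cases hc : c = 0
        · have h : {x : Par × Om | c ≠ 0} = ∅ := by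
            ext x
            simp [hc]
          rw [h]
          exact isClopen_empty
        · have h : {x : Par × Om | c ≠ 0} = Set.univ := by
            ext x
            simp [hc]
          rw [h]
          exact isClopen_univ
      exact (bt_imp (hpar j c) (bt_imp hcc (bt_imp (hFM _ j m w) (hbit m j _)))).isClosed

instance compactSpace_KS (t : Par) : CompactSpace (KS t) := by
  have h1 : IsClosed {x : Om | x ∈ XX t} := by
    have h2 : {x : Om | x ∈ XX t} = (fun x : Om => ((t, x) : Par × Om)) ⁻¹' KT := rfl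
    rw [h2]
    exact isClosed_KT.preimage (Continuous.prodMk continuous_const continuous_id)
  exact isCompact_iff_compactSpace.1 h1.isCompact

instance t2Space_KS (t : Par) : T2Space (KS t) := inferInstance

end Pool.Agent.BCF
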